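import Pool.Agent.Work.MP_37ce0f_lc.W.Defs

namespace Pool.Agent.Work.MP_37ce0f_lc.W

/-- If `f` increases along every segment of a chain, it increases from start to end. -/
theorem low_chain (f : ℤ × ℤ → ℝ) (m : List (ℤ × ℤ)) (a b : ℤ × ℤ)
    (h : ∀ s ∈ (a :: (m ++ [b])).zip (m ++ [b]), f s.1 < f s.2) : f a < f b := by
  induction m generalizing a with
  | nil => exact h (a, b) (by simp)
  | cons c m ih =>
    have h1 : f a < f c := h (a, c) (by simp)
    have h2 : f c < f b := ih c (fun s hs => h s (by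
      simp only [List.cons_append, List.zip_cons_cons]
      exact List.mem_cons_of_mem _ hs))
    exact h1.trans h2

/-- The parent of `v ≥ 1` in the spider with legs `1..L`, `L+1..2L`, `2L+1..`. -/
def lowPar (L v : ℕ) : ℕ := if v = L + 1 ∨ v = 2 * L + 1 then 0 else v - 1

/-- The leg of `w ≥ 1`. -/
def lowLeg (L w : ℕ) : ℕ := if w ≤ L then 0 else if w ≤ 2 * L then 1 else 2

theorem lowPar_lt {L v : ℕ} (hv : v ≠ 0) : lowPar L v < v := by
  unfold lowPar; split_ifs <;> omega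

theorem lowPar_spec (L v : ℕ) : ((v = L + 1 ∨ v = 2 * L + 1) ∧ lowPar L v = 0) ∨
    (v ≠ L + 1 ∧ v ≠ 2 * L + 1 ∧ lowPar L v = v - 1) := by
  unfold lowPar; split_ifs <;> omega

theorem lowLeg_spec (L w : ℕ) : (w ≤ L ∧ lowLeg L w = 0) ∨ (L < w ∧ w ≤ 2 * L ∧ lowLeg L w = 1) ∨
    (2 * L < w ∧ lowLeg L w = 2) := by
  unfold lowLeg; split_ifs <;> omega

/-- The spider with centre `0`. -/
def lowSpider (n L : ℕ) : SimpleGraph (Fin n) where
  Adj u v := (u.val ≠ 0 ∧ v.val = lowPar L u.val) ∨ (v.val ≠ 0 ∧ u.val = lowPar L v.val)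
  symm := ⟨fun _ _ h => h.symm⟩
  loopless := ⟨fun u h => by
    rcases h with ⟨h0, h1⟩ | ⟨h0, h1⟩ <;> exact absurd (lowPar_lt (L := L) h0) (by omega)⟩

theorem low_cut {L v a b : ℕ} (hv : v ≠ 0)
    (h : (a ≠ 0 ∧ b = lowPar L a) ∨ (b ≠ 0 ∧ a = lowPar L b))
    (ha : v ≤ a ∧ lowLeg L a = lowLeg L v) (hb : ¬ (v ≤ b ∧ lowLeg L b = lowLeg L v)) :
    a = v ∧ b = lowPar L v := by
  have key : a = v ∧ b = lowPar L a := by
    have s1 := lowPar_spec L a
    have s2 := lowPar_spec L b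
    have s3 := lowLeg_spec L a
    have s4 := lowLeg_spec L b
    have s5 := lowLeg_spec L v
    omega
  obtain ⟨rfl, h2⟩ := key
  exact ⟨rfl, h2⟩

theorem low_out {n L : ℕ} {x y : Fin n} (p : (lowSpider n L).Walk x y) {v : ℕ} (hv : v ≠ 0)
    (hx : v ≤ x.val ∧ lowLeg L x.val = lowLeg L v)
    (hy : ¬ (v ≤ y.val ∧ lowLeg L y.val = lowLeg L v)) :
    ∃ d ∈ p.darts, d.fst.val = v ∧ d.snd.val = lowPar L v := by
  obtain ⟨d, hd, h1, h2⟩ := p.exists_boundary_dart
    {w | v ≤ w.val ∧ lowLeg L w.val = lowLeg L v} hx hy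
  exact ⟨d, hd, low_cut hv d.adj h1 h2⟩

theorem low_in {n L : ℕ} {x y : Fin n} (p : (lowSpider n L).Walk x y) {v : ℕ} (hv : v ≠ 0)
    (hx : ¬ (v ≤ x.val ∧ lowLeg L x.val = lowLeg L v))
    (hy : v ≤ y.val ∧ lowLeg L y.val = lowLeg L v) :
    ∃ d ∈ p.darts, d.snd.val = v ∧ d.fst.val = lowPar L v := by
  obtain ⟨d, hd, h1, h2⟩ := p.exists_boundary_dart
    {w | ¬ (v ≤ w.val ∧ lowLeg L w.val = lowLeg L v)} hx (not_not.mpr hy)
  exact ⟨d, hd, low_cut hv d.adj.symm (not_not.mp h2) h1⟩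

theorem low_tree (n L : ℕ) (hn : 1 ≤ n) : (lowSpider n L).IsTree := by
  have hr : ∀ k : ℕ, ∀ v : Fin n, v.val = k → (lowSpider n L).Reachable v ⟨0, hn⟩ := by
    intro k
    induction k using Nat.strong_induction_on with
    | _ k ih =>
      intro v hv
      by_cases h0 : v.val = 0
      · have : v = ⟨0, hn⟩ := Fin.ext h0
        rw [this]
      · have hl := lowPar_lt (L := L) h0
        have hw : lowPar L v.val < n := hl.trans v.isLt
        have ha : (lowSpider n L).Adj v ⟨lowPar L v.val, hw⟩ := Or.inl ⟨h0, rfl⟩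
        exact ha.reachable.trans (ih _ (hv ▸ hl) ⟨_, hw⟩ rfl)
  have hb : ∀ u v : Fin n, u.val ≠ 0 → v.val = lowPar L u.val →
      (lowSpider n L).IsBridge s(u, v) := by
    intro u v h0 h1
    rw [SimpleGraph.isBridge_iff_forall_walk_mem_edges]
    intro p
    have hl := lowPar_lt (L := L) h0
    obtain ⟨d, hd, e1, e2⟩ := low_out p h0 ⟨le_rfl, rfl⟩ (by omega)
    have f1 : d.fst = u := Fin.ext e1
    have f2 : d.snd = v := Fin.ext (e2.trans h1.symm)
    rw [SimpleGraph.Walk.edges_eq_map_darts]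
    exact List.mem_map.mpr ⟨d, hd, by rw [← f1, ← f2]; rfl⟩
  have hne : Nonempty (Fin n) := ⟨⟨0, hn⟩⟩
  refine ⟨⟨fun u v => (hr _ u rfl).trans (hr _ v rfl).symm⟩, ?_⟩
  rw [SimpleGraph.isAcyclic_iff_forall_adj_isBridge]
  rintro u v (⟨h0, h1⟩ | ⟨h0, h1⟩)
  · exact hb u v h0 h1
  · rw [Sym2.eq_swap]; exact hb v u h0 h1

theorem low_nc (n L : ℕ) : NoCross (lowSpider n L) := by
  intro a b c d hab hbc hcd h1 h2
  have h1' : (a.val ≠ 0 ∧ c.val = lowPar L a.val) ∨ (c.val ≠ 0 ∧ a.val = lowPar L c.val) := h1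
  have h2' : (b.val ≠ 0 ∧ d.val = lowPar L b.val) ∨ (d.val ≠ 0 ∧ b.val = lowPar L d.val) := h2
  rw [Fin.lt_def] at hab hbc hcd
  unfold lowPar at h1' h2'
  split_ifs at h1' h2' <;> omega

/-- A horizontal vector in the cone spanned by a vector going up and a vector going down. -/
theorem low_flat (p1 p2 q1 q2 : ℝ) (hp : 0 ≤ p2) (hq : q2 ≤ 0) :
    ∃ x : ℝ, ∀ d1 d2 : ℝ, 0 < d1 * p1 + d2 * p2 → 0 < d1 * q1 + d2 * q2 → 0 < d1 * x := by
  rcases hp.eq_or_lt with h | h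
  · exact ⟨p1, fun d1 d2 h1 _ => by rw [← h] at h1; linarith⟩
  · refine ⟨-q2 * p1 + p2 * q1, fun d1 d2 h1 h2 => ?_⟩
    have e : d1 * (-q2 * p1 + p2 * q1) = (-q2) * (d1 * p1 + d2 * p2) + p2 * (d1 * q1 + d2 * q2) := by
      ring
    rw [e]
    have := mul_nonneg (neg_nonneg.mpr hq) h1.le
    have := mul_pos h h2
    linarith

/-- Integer steps of one strict sign add up. -/
theorem low_tele (Y : ℕ → ℤ) (L : ℕ) (h : ∀ k, k < L → Y k < Y (k + 1)) : Y 0 + L ≤ Y L := by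
  induction L with
  | zero => simp
  | succ L ih =>
    have h1 := ih (fun k hk => h k (by omega))
    have h2 := h L (by omega)
    push_cast; omega

/-- The core: three legs `X i, Y i` of `L` steps; for any two legs some vector is negative on the
steps of one and positive on the steps of the other. -/
theorem low_core (X Y : Fin 3 → ℕ → ℤ) (L H : ℕ) (y0 : ℤ)
    (hb : ∀ i k, k ≤ L → y0 ≤ Y i k ∧ Y i k ≤ y0 + H)
    (hd : ∀ i j, i ≠ j → ∃ d1 d2 : ℝ,
      (∀ k, k < L → d1 * ((X i (k + 1) : ℝ) - X i k) + d2 * ((Y i (k + 1) : ℝ) - Y i k) < 0) ∧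
      (∀ k, k < L → 0 < d1 * ((X j (k + 1) : ℝ) - X j k) + d2 * ((Y j (k + 1) : ℝ) - Y j k))) :
    L ≤ H := by
  by_contra hlt
  have hx : ∀ i, ∃ x : ℝ, ∀ d1 d2 : ℝ, (∀ k, k < L →
      0 < d1 * ((X i (k + 1) : ℝ) - X i k) + d2 * ((Y i (k + 1) : ℝ) - Y i k)) → 0 < d1 * x := by
    intro i
    have b0 := hb i 0 (by omega)
    have bL := hb i L le_rfl
    have hu : ∃ k, k < L ∧ Y i k ≤ Y i (k + 1) := by
      by_contra hc
      push Not at hc
      have := low_tele (fun k => - Y i k) L (fun k hk => by have := hc k hk; omega)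
      omega
    have hw : ∃ k, k < L ∧ Y i (k + 1) ≤ Y i k := by
      by_contra hc
      push Not at hc
      have := low_tele (Y i) L hc
      omega
    obtain ⟨k, hk, h1⟩ := hu
    obtain ⟨l, hl, h2⟩ := hw
    have h1' : (Y i k : ℝ) ≤ Y i (k + 1) := by exact_mod_cast h1
    have h2' : (Y i (l + 1) : ℝ) ≤ Y i l := by exact_mod_cast h2
    obtain ⟨x, hx⟩ := low_flat ((X i (k + 1) : ℝ) - X i k) ((Y i (k + 1) : ℝ) - Y i k)
      ((X i (l + 1) : ℝ) - X i l) ((Y i (l + 1) : ℝ) - Y i l) (by linarith) (by linarith)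
    exact ⟨x, fun d1 d2 h => hx d1 d2 (h k hk) (h l hl)⟩
  choose x hx using hx
  have hneg : ∀ i j, i ≠ j → x i * x j < 0 := by
    intro i j hij
    obtain ⟨d1, d2, h1, h2⟩ := hd i j hij
    have a1 := hx i (-d1) (-d2) (fun k hk => by have := h1 k hk; linarith)
    have a2 := hx j d1 d2 h2
    have a3 := mul_pos a1 a2
    by_contra hc
    have a4 := mul_nonneg (mul_self_nonneg d1) (not_lt.mp hc)
    nlinarith
  have h01 := hneg 0 1 (by decide)
  have h02 := hneg 0 2 (by decide)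
  have h12 := hneg 1 2 (by decide)
  have a1 := mul_pos_of_neg_of_neg h01 h02
  have a2 := mul_nonneg (mul_self_nonneg (x 0)) (neg_nonneg.mpr h12.le)
  nlinarith

/-- The `k`-th vertex of leg `i` (the centre for `k = 0`). -/
def lowV (L i k : ℕ) : ℕ := if k = 0 then 0 else i * L + k

theorem lower (n : ℕ) (hn : 1 ≤ n) : ∃ G : SimpleGraph (Fin n), G.IsTree ∧ NoCross G ∧
    ∀ (D : Drawing n) (W H : ℕ), IsMono G D → InBox G D W H →
      (n - 1) / 3 ≤ W ∧ (n - 1) / 3 ≤ H := by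
  obtain ⟨L, hL⟩ : ∃ L, L = (n - 1) / 3 := ⟨_, rfl⟩
  refine ⟨lowSpider n L, low_tree n L hn, low_nc n L, ?_⟩
  intro D W H hm hbox
  rw [← hL]
  have h3 : 3 * L < n := by omega
  let P : ℕ → ℤ × ℤ := fun v => if h : v < n then D.pos ⟨v, h⟩ else D.pos ⟨0, hn⟩
  have hP : ∀ v : Fin n, P v.val = D.pos v := fun v => by simp [P]
  obtain ⟨x0, y0, hbox⟩ := hbox
  have hPb : ∀ v, x0 ≤ (P v).1 ∧ (P v).1 ≤ x0 + W ∧ y0 ≤ (P v).2 ∧ (P v).2 ≤ y0 + H := by
    intro v
    apply hbox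
    left
    by_cases h : v < n
    · exact ⟨⟨v, h⟩, by simp [P, h]⟩
    · exact ⟨⟨0, hn⟩, by simp [P, h]⟩
  have hv : ∀ (i : Fin 3) (k : ℕ), k < L → lowV L i (k + 1) ≠ 0 ∧
      lowPar L (lowV L i (k + 1)) = lowV L i k ∧ lowV L i (k + 1) ≤ lowV L i L ∧
      lowLeg L (lowV L i (k + 1)) = i ∧ lowLeg L (lowV L i L) = i := by
    intro i k hk
    have e1 : lowV L i (k + 1) = i * L + (k + 1) := if_neg (by omega)
    have e2 : lowV L i L = i * L + L := if_neg (by omega)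
    have e3 : (k = 0 ∧ lowV L i k = 0) ∨ (k ≠ 0 ∧ lowV L i k = i * L + k) := by
      unfold lowV; split_ifs <;> omega
    have s1 := lowPar_spec L (lowV L i (k + 1))
    have s2 := lowLeg_spec L (lowV L i (k + 1))
    have s3 := lowLeg_spec L (lowV L i L)
    have hi : i.val = 0 ∨ i.val = 1 ∨ i.val = 2 := by omega
    generalize i.val = m at *
    rcases hi with rfl | rfl | rfl <;> omega
  have ht : ∀ i : Fin 3, lowV L i L < n := by
    intro i
    unfold lowV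
    fin_cases i <;> simp only [] <;> split_ifs <;> omega
  have hd : ∀ i j : Fin 3, i ≠ j → ∃ d1 d2 : ℝ,
      (∀ k, k < L → d1 * (((P (lowV L i (k + 1))).1 : ℝ) - (P (lowV L i k)).1) +
        d2 * (((P (lowV L i (k + 1))).2 : ℝ) - (P (lowV L i k)).2) < 0) ∧
      (∀ k, k < L → 0 < d1 * (((P (lowV L j (k + 1))).1 : ℝ) - (P (lowV L j k)).1) +
        d2 * (((P (lowV L j (k + 1))).2 : ℝ) - (P (lowV L j k)).2)) := by
    intro i j hij
    obtain ⟨p, -, d, hp⟩ := hm ⟨_, ht i⟩ ⟨_, ht j⟩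
    have hij' : i.val ≠ j.val := fun h => hij (Fin.ext h)
    have he : ∀ e ∈ p.darts, d.1 * ((P e.fst.val).1 : ℝ) + d.2 * (P e.fst.val).2 <
        d.1 * ((P e.snd.val).1 : ℝ) + d.2 * (P e.snd.val).2 := by
      intro e he
      rw [hP, hP]
      refine low_chain (fun q => d.1 * (q.1 : ℝ) + d.2 * q.2) (D.bends e.fst e.snd) _ _ ?_
      intro s hs
      have := hp e he s hs
      linarith
    refine ⟨d.1, d.2, fun k hk => ?_, fun k hk => ?_⟩
    · obtain ⟨a1, a2, a3, a4, a5⟩ := hv i k hk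
      obtain ⟨-, -, -, -, b5⟩ := hv j k hk
      obtain ⟨e, he', e1, e2⟩ := low_out p a1 ⟨a3, a5.trans a4.symm⟩
        (fun h => hij' (a4.symm.trans (h.2.symm.trans b5)))
      have := he e he'
      rw [e1, e2, a2] at this
      linarith
    · obtain ⟨a1, a2, a3, a4, a5⟩ := hv j k hk
      obtain ⟨-, -, -, -, b5⟩ := hv i k hk
      obtain ⟨e, he', e1, e2⟩ := low_in p a1
        (fun h => hij' (b5.symm.trans (h.2.trans a4))) ⟨a3, a5.trans a4.symm⟩
      have := he e he'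
      rw [e1, e2, a2] at this
      linarith
  constructor
  · refine low_core (fun i k => (P (lowV L i k)).2) (fun i k => (P (lowV L i k)).1) L W x0
      (fun i k _ => ⟨(hPb _).1, (hPb _).2.1⟩) (fun i j hij => ?_)
    obtain ⟨d1, d2, h1, h2⟩ := hd i j hij
    exact ⟨d2, d1, fun k hk => by have := h1 k hk; linarith,
      fun k hk => by have := h2 k hk; linarith⟩
  · exact low_core (fun i k => (P (lowV L i k)).1) (fun i k => (P (lowV L i k)).2) L H y0
      (fun i k _ => ⟨(hPb _).2.2.1, (hPb _).2.2.2⟩) hd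

end Pool.Agent.Work.MP_37ce0f_lc.W
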