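import Pool.Agent.Work.MP_37ce0f_lc.W.Defs

namespace Pool.Agent.Work.MP_37ce0f_lc.W
open Finset Classical
noncomputable section
variable {n : ℕ} {G : SimpleGraph (Fin n)}

theorem cy_eq (p x : Fin n) :
    cy p x = if p.val ≤ x.val then x.val - p.val else x.val + n - p.val := by
  have hp := p.isLt
  have hx := x.isLt
  unfold cy
  split_ifs with h
  · have : x.val + n - p.val = (x.val - p.val) + n := by omega
    rw [this, Nat.add_mod_right, Nat.mod_eq_of_lt (by omega)]
  · exact Nat.mod_eq_of_lt (by omega)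

theorem cy_lt (p x : Fin n) : cy p x < n := Nat.mod_lt _ (Fin.pos p)

theorem cy_self (p : Fin n) : cy p p = 0 := by rw [cy_eq]; simp

theorem cy_inj {p x y : Fin n} (h : cy p x = cy p y) : x = y := by
  have := p.isLt; have := x.isLt; have := y.isLt
  rw [cy_eq, cy_eq] at h
  apply Fin.ext
  split_ifs at h <;> omega

theorem cy_pos {p x : Fin n} (h : x ≠ p) : 0 < cy p x := by
  rcases Nat.eq_zero_or_pos (cy p x) with h0 | h0
  · exact absurd (cy_inj (h0.trans (cy_self p).symm)) h
  · exact h0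

/-- change of base point -/
theorem cy_rel (r p x : Fin n) :
    cy p x = if cy r p ≤ cy r x then cy r x - cy r p else cy r x + n - cy r p := by
  have := p.isLt; have := x.isLt; have := r.isLt
  rw [cy_eq p x, cy_eq r p, cy_eq r x]
  split_ifs <;> omega

theorem nc_cy (h : NoCross G) (p a b c d : Fin n) (h1 : cy p a < cy p b) (h2 : cy p b < cy p c)
    (h3 : cy p c < cy p d) (hac : G.Adj a c) (hbd : G.Adj b d) : False := by
  have := p.isLt; have := a.isLt; have := b.isLt; have := c.isLt; have := d.isLt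
  rw [cy_eq, cy_eq] at h1 h2 h3
  have k1 := h a b c d
  have k2 := h b c d a
  have k3 := h c d a b
  have k4 := h d a b c
  simp only [Fin.lt_def] at k1 k2 k3 k4
  by_cases c1 : a.val < b.val ∧ b.val < c.val ∧ c.val < d.val
  · exact k1 c1.1 c1.2.1 c1.2.2 hac hbd
  by_cases c2 : b.val < c.val ∧ c.val < d.val ∧ d.val < a.val
  · exact k2 c2.1 c2.2.1 c2.2.2 hbd hac.symm
  by_cases c3 : c.val < d.val ∧ d.val < a.val ∧ a.val < b.val
  · exact k3 c3.1 c3.2.1 c3.2.2 hac.symm hbd.symm
  by_cases c4 : d.val < a.val ∧ a.val < b.val ∧ b.val < c.val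
  · exact k4 c4.1 c4.2.1 c4.2.2 hbd.symm hac
  split_ifs at h1 h2 h3 <;> omega

/-- the two ends of an edge `xy` disjoint from the edge `ab` are on the same side of `ab` -/
theorem nc_side (h : NoCross G) (p : Fin n) {a b x y : Fin n} (hab : G.Adj a b) (hxy : G.Adj x y)
    (h1 : x ≠ a) (h2 : x ≠ b) (h3 : y ≠ a) (h4 : y ≠ b) :
    ((cy p a < cy p x ↔ cy p b < cy p x) ↔ (cy p a < cy p y ↔ cy p b < cy p y)) := by
  have e1 : cy p x ≠ cy p a := fun e => h1 (cy_inj e)
  have e2 : cy p x ≠ cy p b := fun e => h2 (cy_inj e)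
  have e3 : cy p y ≠ cy p a := fun e => h3 (cy_inj e)
  have e4 : cy p y ≠ cy p b := fun e => h4 (cy_inj e)
  have k1 := fun i j k => nc_cy h p a x b y i j k hab hxy
  have k2 := fun i j k => nc_cy h p a y b x i j k hab hxy.symm
  have k3 := fun i j k => nc_cy h p b x a y i j k hab.symm hxy
  have k4 := fun i j k => nc_cy h p b y a x i j k hab.symm hxy.symm
  have k5 := fun i j k => nc_cy h p x a y b i j k hxy hab
  have k6 := fun i j k => nc_cy h p x b y a i j k hxy hab.symm
  have k7 := fun i j k => nc_cy h p y a x b i j k hxy.symm hab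
  have k8 := fun i j k => nc_cy h p y b x a i j k hxy.symm hab.symm
  generalize cy p a = A at *
  generalize cy p b = B at *
  generalize cy p x = X at *
  generalize cy p y = Y at *
  simp only [imp_false] at k1 k2 k3 k4 k5 k6 k7 k8
  omega

def wt (a b : Fin n) : ℕ := min (cy a b) (cy b a)

theorem wt_comm (a b : Fin n) : wt a b = wt b a := min_comm _ _

/-- rooted spanning tree given by parent pointers -/
structure RT {n : ℕ} (G : SimpleGraph (Fin n)) where
  r : Fin n
  par : Fin n → Fin n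
  dep : Fin n → ℕ
  par_r : par r = r
  dep_r : dep r = 0
  adj : ∀ v, v ≠ r → G.Adj v (par v)
  dep_par : ∀ v, v ≠ r → dep v = dep (par v) + 1

namespace RT
variable (S : RT G)

def Anc (a v : Fin n) : Prop := ∃ k : ℕ, S.par^[k] v = a

def HasP : Prop :=
  ∀ u v x, G.Adj u v → S.Anc x u → ¬ S.Anc x v → wt u v ≤ wt x (S.par x)

theorem ind {P : Fin n → Prop} (h0 : P S.r) (hs : ∀ v, v ≠ S.r → P (S.par v) → P v) (v : Fin n) :
    P v := by
  induction h : S.dep v generalizing v with
  | zero =>
    by_cases hv : v = S.r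
    · exact hv ▸ h0
    · have := S.dep_par v hv; omega
  | succ k ih =>
    have hv : v ≠ S.r := by rintro rfl; rw [S.dep_r] at h; omega
    exact hs v hv (ih _ (by have := S.dep_par v hv; omega))

theorem anc_refl (a : Fin n) : S.Anc a a := ⟨0, rfl⟩

theorem anc_par (v : Fin n) : S.Anc (S.par v) v := ⟨1, rfl⟩

variable {S}

theorem Anc.trans {a b c : Fin n} (h1 : S.Anc a b) (h2 : S.Anc b c) : S.Anc a c := by
  obtain ⟨k, rfl⟩ := h1
  obtain ⟨l, rfl⟩ := h2
  exact ⟨k + l, by rw [Function.iterate_add_apply]⟩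

theorem Anc.step {a v : Fin n} (h : S.Anc a (S.par v)) : S.Anc a v := h.trans (S.anc_par v)

theorem Anc.cases {a v : Fin n} (h : S.Anc a v) : a = v ∨ (v ≠ S.r ∧ S.Anc a (S.par v)) := by
  obtain ⟨k, hk⟩ := h
  by_cases hv : v = S.r
  · left
    subst hv
    rw [← hk]
    exact Function.iterate_fixed S.par_r k
  · rcases k with _ | k
    · exact Or.inl hk.symm
    · exact Or.inr ⟨hv, k, hk⟩

theorem Anc.of_ne {a v : Fin n} (h : S.Anc a v) (hne : a ≠ v) : S.Anc a (S.par v) :=
  (h.cases.resolve_left hne).2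

theorem Anc.ne_r {a v : Fin n} (h : S.Anc a v) (hne : a ≠ v) : v ≠ S.r :=
  (h.cases.resolve_left hne).1

theorem Anc.eq_r {a : Fin n} (h : S.Anc a S.r) : a = S.r :=
  h.cases.resolve_right (fun h => h.1 rfl)

variable (S) in
theorem anc_r (v : Fin n) : S.Anc S.r v :=
  S.ind (P := fun v => S.Anc S.r v) (S.anc_refl _) (fun _ _ h => h.step) v

theorem Anc.dep_aux {a v : Fin n} (h : S.Anc a v) : a = v ∨ S.dep a < S.dep v := by
  induction v using S.ind with
  | h0 => exact Or.inl h.eq_r
  | hs v hv ih =>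
    rcases h.cases with h | h
    · exact Or.inl h
    · right
      have := S.dep_par v hv
      rcases ih h.2 with h' | h'
      · rw [h']; omega
      · omega

theorem Anc.dep_le {a v : Fin n} (h : S.Anc a v) : S.dep a ≤ S.dep v := by
  rcases h.dep_aux with h | h
  · rw [h]
  · omega

theorem Anc.dep_lt {a v : Fin n} (h : S.Anc a v) (hne : a ≠ v) : S.dep a < S.dep v :=
  h.dep_aux.resolve_left hne

theorem Anc.eq_of_dep {a v : Fin n} (h : S.Anc a v) (hd : S.dep v ≤ S.dep a) : a = v := by
  rcases h.dep_aux with h | h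
  · exact h
  · omega

theorem Anc.antisymm {a v : Fin n} (h : S.Anc a v) (h' : S.Anc v a) : a = v :=
  h.eq_of_dep h'.dep_le

theorem Anc.total {a b v : Fin n} (ha : S.Anc a v) (hb : S.Anc b v) (hd : S.dep a ≤ S.dep b) :
    S.Anc a b := by
  induction v using S.ind with
  | h0 => rw [ha.eq_r, hb.eq_r]; exact S.anc_refl _
  | hs v hv ih =>
    by_cases e : b = v
    · exact e ▸ ha
    · by_cases e' : a = v
      · have := hb.dep_lt e
        rw [e'] at hd; omega
      · exact ih (ha.of_ne e') (hb.of_ne e)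

theorem Anc.total' {a b v : Fin n} (ha : S.Anc a v) (hb : S.Anc b v) :
    S.Anc a b ∨ S.Anc b a := by
  rcases le_total (S.dep a) (S.dep b) with h | h
  · exact Or.inl (ha.total hb h)
  · exact Or.inr (hb.total ha h)

theorem Anc.eq_of_dep_eq {a b v : Fin n} (ha : S.Anc a v) (hb : S.Anc b v)
    (hd : S.dep a = S.dep b) : a = b :=
  (ha.total hb hd.le).eq_of_dep hd.ge

theorem not_anc_par {v : Fin n} (hv : v ≠ S.r) : ¬ S.Anc v (S.par v) := fun h => by
  have := h.dep_le; have := S.dep_par v hv; omega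

theorem par_ne {v : Fin n} (hv : v ≠ S.r) : S.par v ≠ v := fun h => by
  have := S.dep_par v hv; rw [h] at this; omega

theorem ne_r_of_par_ne {v : Fin n} (h : v ≠ S.par v) : v ≠ S.r := by
  rintro rfl; exact h S.par_r.symm

theorem ne_r_of_not_anc {v z : Fin n} (h : ¬ S.Anc v z) : v ≠ S.r := by
  rintro rfl; exact h (S.anc_r z)

variable (S)

/-- the ancestor of `v` at depth `j` -/
def up (v : Fin n) (j : ℕ) : Fin n := S.par^[S.dep v - j] v

theorem up_anc (v : Fin n) (j : ℕ) : S.Anc (S.up v j) v := ⟨_, rfl⟩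

theorem dep_iter (v : Fin n) (k : ℕ) : S.dep (S.par^[k] v) = S.dep v - k := by
  induction k with
  | zero => rfl
  | succ k ih =>
    rw [Function.iterate_succ_apply']
    by_cases h : S.par^[k] v = S.r
    · rw [h, S.par_r, S.dep_r]; rw [h, S.dep_r] at ih; omega
    · have := S.dep_par _ h; omega

theorem dep_up {v : Fin n} {j : ℕ} (h : j ≤ S.dep v) : S.dep (S.up v j) = j := by
  unfold up; rw [S.dep_iter]; omega

theorem par_up {v : Fin n} {j : ℕ} (h : j + 1 ≤ S.dep v) : S.par (S.up v (j + 1)) = S.up v j := by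
  unfold up
  rw [← Function.iterate_succ_apply' S.par]
  congr 1; omega

theorem up_dep (v : Fin n) : S.up v (S.dep v) = v := by unfold up; simp

variable {S} in
theorem Anc.eq_up {a v : Fin n} (h : S.Anc a v) : S.up v (S.dep a) = a :=
  (S.up_anc v _).eq_of_dep_eq h (S.dep_up h.dep_le)

/-- the child of `w` towards `v` -/
def ch (w v : Fin n) : Fin n := S.up v (S.dep w + 1)

theorem ch_anc (w v : Fin n) : S.Anc (S.ch w v) v := S.up_anc _ _

variable {S}

theorem dep_ch {w v : Fin n} (h : S.Anc w v) (hne : w ≠ v) : S.dep (S.ch w v) = S.dep w + 1 :=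
  S.dep_up (h.dep_lt hne)

theorem par_ch {w v : Fin n} (h : S.Anc w v) (hne : w ≠ v) : S.par (S.ch w v) = w := by
  unfold ch; rw [S.par_up (h.dep_lt hne), h.eq_up]

theorem ch_ne {w v : Fin n} (h : S.Anc w v) (hne : w ≠ v) : S.ch w v ≠ w := fun e => by
  have := dep_ch h hne; rw [e] at this; omega

theorem ch_ne_r {w v : Fin n} (h : S.Anc w v) (hne : w ≠ v) : S.ch w v ≠ S.r := fun e => by
  have := dep_ch h hne; rw [e, S.dep_r] at this; omega

theorem anc_ch {w v : Fin n} (h : S.Anc w v) (hne : w ≠ v) : S.Anc w (S.ch w v) := by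
  have := S.anc_par (S.ch w v); rwa [par_ch h hne] at this

theorem ch_unique {c w v : Fin n} (hc : S.Anc c v) (hp : S.par c = w) (hne : c ≠ w) :
    S.ch w v = c := by
  have hr : c ≠ S.r := ne_r_of_par_ne (hp ▸ hne)
  have := S.dep_par c hr
  unfold ch
  rw [← hp, ← this, hc.eq_up]

/-- a proper descendant `y` of `w` that is an ancestor of `v` lies below the child towards `v` -/
theorem ch_anc_of {w y v : Fin n} (hw : S.Anc w y) (hne : w ≠ y) (hy : S.Anc y v) :
    S.Anc (S.ch w v) y := by
  have h1 := hw.dep_lt hne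
  have hwv : w ≠ v := fun e => hne (hw.antisymm (e ▸ hy))
  exact (S.ch_anc w v).total hy (by rw [dep_ch (hw.trans hy) hwv]; omega)

variable (S)

def lca (u v : Fin n) : Fin n :=
  S.up u (Nat.findGreatest (fun j => S.Anc (S.up u j) v) (S.dep u))

theorem lca_l (u v : Fin n) : S.Anc (S.lca u v) u := S.up_anc _ _

theorem lca_r (u v : Fin n) : S.Anc (S.lca u v) v := by
  have h0 : S.Anc (S.up u 0) v := by
    have := (S.anc_r u).eq_up
    rw [S.dep_r] at this
    rw [this]; exact S.anc_r v
  exact Nat.findGreatest_spec (P := fun j => S.Anc (S.up u j) v) (Nat.zero_le _) h0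

variable {S}

theorem anc_lca {y u v : Fin n} (hu : S.Anc y u) (hv : S.Anc y v) : S.Anc y (S.lca u v) := by
  refine hu.total (S.lca_l u v) ?_
  unfold lca
  rw [S.dep_up (Nat.findGreatest_le _)]
  exact Nat.le_findGreatest hu.dep_le (by rw [hu.eq_up]; exact hv)

theorem lca_eq {w u v : Fin n} (hu : S.Anc w u) (hv : S.Anc w v)
    (h : ∀ y, S.Anc y u → S.Anc y v → S.Anc y w) : S.lca u v = w :=
  (h _ (S.lca_l u v) (S.lca_r u v)).antisymm (anc_lca hu hv)

variable (S) in
theorem lca_comm (u v : Fin n) : S.lca u v = S.lca v u :=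
  lca_eq (S.lca_r v u) (S.lca_l v u) (fun _ h1 h2 => anc_lca h2 h1)

theorem lca_of_anc {u v : Fin n} (h : S.Anc u v) : S.lca u v = u :=
  lca_eq (S.anc_refl u) h (fun _ h1 _ => h1)

theorem lca_par {u v : Fin n} (h : ¬ S.Anc u v) : S.lca (S.par u) v = S.lca u v :=
  lca_eq ((S.lca_l u v).of_ne (fun e => h (e ▸ S.lca_r u v))) (S.lca_r u v)
    (fun _ h1 h2 => anc_lca h1.step h2)

/-- an ancestor of `y` off the path to `z` has the same foot -/
theorem lca_of_off {a y z : Fin n} (ha : S.Anc a y) (h : ¬ S.Anc a z) : S.lca a z = S.lca y z := by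
  refine lca_eq ?_ (S.lca_r y z) (fun _ h1 h2 => anc_lca (h1.trans ha) h2)
  rcases (S.lca_l y z).total' ha with h1 | h1
  · exact h1
  · exact absurd (h1.trans (S.lca_r y z)) h

variable (S)

/-- recursion down the tree -/
def rc {X : Type} (f0 : X) (st : Fin n → X → X) (v : Fin n) : X :=
  if h : v = S.r then f0 else st v (rc f0 st (S.par v))
termination_by S.dep v
decreasing_by have := S.dep_par v h; omega

theorem rc_r {X : Type} (f0 : X) (st : Fin n → X → X) : S.rc f0 st S.r = f0 := by
  rw [rc]; simp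

theorem rc_step {X : Type} (f0 : X) (st : Fin n → X → X) {v : Fin n} (h : v ≠ S.r) :
    S.rc f0 st v = st v (S.rc f0 st (S.par v)) := by
  rw [rc]; simp [h]

theorem card_anc (y : Fin n) : (univ.filter (fun a => S.Anc a y)).card = S.dep y + 1 := by
  induction y using S.ind with
  | h0 =>
    rw [S.dep_r, card_eq_one]
    exact ⟨S.r, by ext a; simp only [mem_filter, mem_univ, true_and, mem_singleton]
                   exact ⟨fun h => h.eq_r, fun h => h ▸ S.anc_refl _⟩⟩
  | hs v hv ih =>
    have : univ.filter (fun a => S.Anc a v) = insert v (univ.filter (fun a => S.Anc a (S.par v))) := by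
      ext a
      simp only [mem_filter, mem_univ, true_and, mem_insert]
      exact ⟨fun h => h.cases.imp id (fun h => h.2),
        fun h => h.elim (fun h => h ▸ S.anc_refl _) (fun h => h.step)⟩
    rw [this, card_insert_of_notMem (by simpa using not_anc_par hv), ih, S.dep_par v hv]

/-- the part of the path to `y` that is off the path to `z` -/
def tail (y z : Fin n) : Finset (Fin n) := univ.filter (fun a => S.Anc a y ∧ ¬ S.Anc a z)

theorem mem_tail {a y z : Fin n} : a ∈ S.tail y z ↔ S.Anc a y ∧ ¬ S.Anc a z := by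
  simp [tail]

theorem card_tail (y z : Fin n) : (S.tail y z).card + S.dep (S.lca y z) = S.dep y := by
  have h1 := S.card_anc y
  have h2 := S.card_anc (S.lca y z)
  have h3 : univ.filter (fun a => S.Anc a y) =
      S.tail y z ∪ univ.filter (fun a => S.Anc a (S.lca y z)) := by
    ext a
    simp only [mem_filter, mem_univ, true_and, mem_union, mem_tail]
    constructor
    · intro h
      by_cases hz : S.Anc a z
      · exact Or.inr (anc_lca h hz)
      · exact Or.inl ⟨h, hz⟩
    · rintro (h | h)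
      · exact h.1
      · exact h.trans (S.lca_l y z)
  rw [h3, card_union_of_disjoint] at h1
  · omega
  · rw [disjoint_left]
    intro a ha hb
    rw [mem_tail] at ha
    exact ha.2 ((mem_filter.1 hb).2.trans (S.lca_r y z))

variable {S}

/-- a vertex `m` outside the subtree of `c` is on the same side of all vertices of it -/
theorem sub_side (h : NoCross G) {c x y m : Fin n} (hx : S.Anc c x) (hy : S.Anc c y)
    (hm : ¬ S.Anc c m) : cy S.r x < cy S.r m ↔ cy S.r y < cy S.r m := by
  have key : ∀ a b, G.Adj a b → ¬ S.Anc c a → ¬ S.Anc c b → ∀ x, S.Anc c x →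
      ((cy S.r a < cy S.r x ↔ cy S.r b < cy S.r x) ↔
        (cy S.r a < cy S.r c ↔ cy S.r b < cy S.r c)) := by
    intro a b hab ha hb x
    induction x using S.ind with
    | h0 => intro hx; rw [hx.eq_r]
    | hs v hv ih =>
      intro hx
      rcases hx.cases with e | e
      · rw [e]
      · rw [← ih e.2]
        exact nc_side h S.r hab (S.adj v hv) (fun e' => ha (e' ▸ hx)) (fun e' => hb (e' ▸ hx))
          (fun e' => ha (e' ▸ e.2)) (fun e' => hb (e' ▸ e.2))
  have main : ∀ m, ¬ S.Anc c m → (cy S.r m < cy S.r x ↔ cy S.r m < cy S.r y) := by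
    intro m
    induction m using S.ind with
    | h0 =>
      intro hm
      have h1 : x ≠ S.r := fun e => hm (e ▸ hx)
      have h2 : y ≠ S.r := fun e => hm (e ▸ hy)
      rw [cy_self]
      exact ⟨fun _ => cy_pos h2, fun _ => cy_pos h1⟩
    | hs v hv ih =>
      intro hm
      have hp : ¬ S.Anc c (S.par v) := fun h => hm h.step
      have i1 := ih hp
      have k1 := key v _ (S.adj v hv) hm hp x hx
      have k2 := key v _ (S.adj v hv) hm hp y hy
      tauto
  have h1 : cy S.r x ≠ cy S.r m := fun e => hm (cy_inj e ▸ hx)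
  have h2 : cy S.r y ≠ cy S.r m := fun e => hm (cy_inj e ▸ hy)
  have := main m hm
  omega

/-- inside the subtree of `w` the order from `par w` is the order from the root -/
theorem key_mono (h : NoCross G) {w x y : Fin n} (hx : S.Anc w x) (hy : S.Anc w y) :
    cy (S.par w) x < cy (S.par w) y ↔ cy S.r x < cy S.r y := by
  by_cases hw : w = S.r
  · rw [hw, S.par_r]
  · have h1 := sub_side h hx hy (not_anc_par hw)
    have h2 := cy_lt S.r x
    have h3 := cy_lt S.r y
    have h4 := cy_lt S.r (S.par w)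
    rw [cy_rel S.r (S.par w) x, cy_rel S.r (S.par w) y]
    split_ifs <;> omega

end RT

/-- the output of the spine lemma -/
structure Sp (S : RT G) where
  z : Fin n
  xi : Fin n → ℤ
  T : Fin n → ℤ
  z_ne : z ≠ S.r
  xi0 : ∀ v, 0 ≤ xi v
  xi1 : ∀ v, xi v ≤ (((n - 1) / 3 : ℕ) : ℤ)
  xiR : ∀ v, ¬ S.Anc v z → cy S.r v < cy S.r z → xi v = xi (S.par v) + 1
  xiL : ∀ v, ¬ S.Anc v z → cy S.r z < cy S.r v → xi v = xi (S.par v) - 1
  T0 : ∀ v, 0 ≤ T v
  T1 : ∀ v, T v ≤ 3 * n
  Tstep : ∀ v, v ≠ S.r → S.Anc v z → T (S.par v) + |xi v - xi (S.par v)| + 1 ≤ T v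

/-- `w` is a bad foot for the spine from the root to `z` -/
def RT.Bad (S : RT G) (z w : Fin n) : Prop :=
  ∃ y y', S.lca y z = w ∧ S.lca y' z = w ∧ (S.Anc y z ∨ cy S.r y < cy S.r z) ∧
    (S.Anc y' z ∨ cy S.r z < cy S.r y') ∧
    (n - 1) / 3 < (S.dep y - S.dep w) + (S.dep y' - S.dep w)

end
end Pool.Agent.Work.MP_37ce0f_lc.W
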