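import Mathlib

namespace Pool.Agent.Work.MP_37ce0f_lc.W

/-- The vertices `0, …, n-1` sit counterclockwise on a circle; `cy p x = (x - p) mod n` is the
number of steps from `p` forward to `x`. -/
def cy {n : ℕ} (p x : Fin n) : ℕ := (x.val + n - p.val) % n

/-- No two edges cross when the vertices are placed in convex position in the order
`0, …, n-1`: the graph with this convex drawing is an outerplane graph. -/
def NoCross {n : ℕ} (G : SimpleGraph (Fin n)) : Prop :=
  ∀ a b c d : Fin n, a < b → b < c → c < d → G.Adj a c → ¬ G.Adj b d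

/-- Grid data: a grid point for each vertex and, for each ordered pair, the list of bends met
when going from the first vertex to the second (only used for edges). -/
structure Drawing (n : ℕ) where
  pos : Fin n → ℤ × ℤ
  bends : Fin n → Fin n → List (ℤ × ℤ)
  symm : ∀ u v, bends v u = (bends u v).reverse

/-- The polygonal chain of the edge `uv`, from `u` to `v`. -/
def Drawing.chain {n : ℕ} (D : Drawing n) (u v : Fin n) : List (ℤ × ℤ) :=
  D.pos u :: (D.bends u v ++ [D.pos v])

/-- The segments (start, end) of that chain, in order from `u` to `v`. -/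
def Drawing.segs {n : ℕ} (D : Drawing n) (u v : Fin n) : List ((ℤ × ℤ) × (ℤ × ℤ)) :=
  (D.chain u v).zip (D.chain u v).tail

/-- A grid point as a point of the plane. -/
def toR (p : ℤ × ℤ) : ℝ × ℝ := ((p.1 : ℝ), (p.2 : ℝ))

/-- The closed straight segment between two grid points. -/
def seg (s : (ℤ × ℤ) × (ℤ × ℤ)) : Set (ℝ × ℝ) := segment ℝ (toR s.1) (toR s.2)

/-- The set of points of the plane covered by the edge `uv`. -/
def Drawing.trace {n : ℕ} (D : Drawing n) (u v : Fin n) : Set (ℝ × ℝ) :=
  {p | ∃ s ∈ D.segs u v, p ∈ seg s}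

/-- The direction in which the edge `uv` leaves `u`. -/
def Drawing.dir {n : ℕ} (D : Drawing n) (u v : Fin n) : ℤ × ℤ :=
  (D.bends u v).headD (D.pos v) - D.pos u

/-- Planarity: distinct vertices get distinct points; every edge is a simple chain (no
degenerate segment, two segments meet only if the earlier ends where the later starts, and only
there); an edge passes through no vertex except its ends; two different edges meet only in
vertices (hence only in common ends). -/
def Planar {n : ℕ} (G : SimpleGraph (Fin n)) (D : Drawing n) : Prop :=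
  Function.Injective D.pos ∧
  (∀ u v, G.Adj u v → (∀ s ∈ D.segs u v, s.1 ≠ s.2) ∧
    (D.segs u v).Pairwise (fun s t => ∀ p ∈ seg s, p ∈ seg t → s.2 = t.1 ∧ p = toR s.2)) ∧
  (∀ u v w, G.Adj u v → toR (D.pos w) ∈ D.trace u v → w = u ∨ w = v) ∧
  (∀ u v x y, G.Adj u v → G.Adj x y → s(u, v) ≠ s(x, y) →
    ∀ p ∈ D.trace u v, p ∈ D.trace x y → ∃ w, p = toR (D.pos w))

/-- The determinant of two vectors (positive when `b` is less than a half turn
counterclockwise from `a`). -/
def cr (a b : ℤ × ℤ) : ℤ := a.1 * b.2 - a.2 * b.1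

/-- Turning counterclockwise from the direction `o`, the direction `a` comes before `b`
(for `a`, `b` not pointing in direction `o`): either `a` is in the first half turn and `b` is
not, or both are in the same half turn and `b` is counterclockwise from `a`. -/
def Before (o a b : ℤ × ℤ) : Prop :=
  (0 < cr o a ∧ cr o b ≤ 0) ∨ ((0 < cr o a ↔ 0 < cr o b) ∧ 0 < cr a b)

/-- The embedding is preserved: from every vertex `v` an infinite straight ray misses all edges
(so it runs in the outer face), and turning counterclockwise from this ray one meets the edges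
at `v` in the order `v+1, v+2, …` of their other ends, as in the convex drawing. -/
def Preserves {n : ℕ} (G : SimpleGraph (Fin n)) (D : Drawing n) : Prop :=
  ∀ v, ∃ o : ℤ × ℤ, o ≠ 0 ∧
    (∀ t : ℝ, 0 < t → ∀ x y, G.Adj x y → toR (D.pos v) + t • toR o ∉ D.trace x y) ∧
    ∀ a b, G.Adj v a → G.Adj v b → cy v a < cy v b → Before o (D.dir v a) (D.dir v b)

/-- Monotone drawing: any two vertices are joined by a path of the graph such that some vector
has positive scalar product with every segment of the drawn path, oriented from `u` to `v`. -/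
def IsMono {n : ℕ} (G : SimpleGraph (Fin n)) (D : Drawing n) : Prop :=
  ∀ u v, ∃ p : G.Walk u v, p.IsPath ∧ ∃ d : ℝ × ℝ, ∀ e ∈ p.darts, ∀ s ∈ D.segs e.fst e.snd,
    0 < d.1 * ((s.2.1 : ℝ) - s.1.1) + d.2 * ((s.2.2 : ℝ) - s.1.2)

/-- All vertices and all bends of edges lie in an axis-parallel box of width `W`, height `H`. -/
def InBox {n : ℕ} (G : SimpleGraph (Fin n)) (D : Drawing n) (W H : ℕ) : Prop :=
  ∃ x₀ y₀ : ℤ, ∀ p : ℤ × ℤ, ((∃ v, p = D.pos v) ∨ ∃ u v, G.Adj u v ∧ p ∈ D.bends u v) →
    x₀ ≤ p.1 ∧ p.1 ≤ x₀ + W ∧ y₀ ≤ p.2 ∧ p.2 ≤ y₀ + H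

end Pool.Agent.Work.MP_37ce0f_lc.W
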