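import Pool.Agent.Work.MP_37ce0f_lc.W.Tree

-- merged part: Pool.Agent.Work.MP_37ce0f_lc.W.Prim
section
namespace Pool.Agent.Work.MP_37ce0f_lc.W
open Finset Classical
noncomputable section
variable {n : ℕ} {G : SimpleGraph (Fin n)}

structure PInv (G : SimpleGraph (Fin n)) (r : Fin n) (U : Finset (Fin n)) (par : Fin n → Fin n)
    (dep tm : Fin n → ℕ) : Prop where
  r_mem : r ∈ U
  par_r : par r = r
  dep_r : dep r = 0
  tm_r : tm r = 0
  tm_lt : ∀ v ∈ U, tm v < U.card
  tm_inj : ∀ v ∈ U, ∀ w ∈ U, tm v = tm w → v = w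
  step : ∀ v ∈ U, v ≠ r → par v ∈ U ∧ G.Adj v (par v) ∧ dep v = dep (par v) + 1 ∧ tm (par v) < tm v
  heavy : ∀ v ∈ U, v ≠ r → ∀ a ∈ U, ∀ b, G.Adj a b → tm a < tm v → (b ∉ U ∨ tm v ≤ tm b) →
    wt a b ≤ wt v (par v)

theorem pinv_step (hc : G.Connected) {r : Fin n} {U : Finset (Fin n)} {par : Fin n → Fin n}
    {dep tm : Fin n → ℕ} (h : PInv G r U par dep tm) (hU : U ≠ univ) :
    ∃ U' par' dep' tm', PInv G r U' par' dep' tm' ∧ U'.card = U.card + 1 := by
  obtain ⟨x, hx⟩ : ∃ x, x ∉ U := by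
    by_contra hcon
    push Not at hcon
    exact hU (eq_univ_of_forall hcon)
  obtain ⟨p⟩ := hc.preconnected r x
  obtain ⟨d, -, hd1, hd2⟩ := p.exists_boundary_dart (U : Set (Fin n)) h.r_mem hx
  obtain ⟨⟨a0, b0⟩, he, hmax⟩ := exists_max_image
    (univ.filter (fun e : Fin n × Fin n => G.Adj e.1 e.2 ∧ e.1 ∈ U ∧ e.2 ∉ U))
    (fun e => wt e.1 e.2) ⟨(d.fst, d.snd), by
      simp only [mem_filter, mem_univ, true_and]; exact ⟨d.adj, hd1, hd2⟩⟩
  simp only [mem_filter, mem_univ, true_and] at he hmax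
  obtain ⟨hab, ha, hb⟩ := he
  have ne : ∀ v ∈ U, v ≠ b0 := fun v hv e => hb (e ▸ hv)
  refine ⟨insert b0 U, Function.update par b0 a0, Function.update dep b0 (dep a0 + 1),
    Function.update tm b0 U.card, ?_, card_insert_of_notMem hb⟩
  have hcard := card_insert_of_notMem hb
  constructor
  · exact mem_insert_of_mem h.r_mem
  · rw [Function.update_of_ne (ne _ h.r_mem), h.par_r]
  · rw [Function.update_of_ne (ne _ h.r_mem), h.dep_r]
  · rw [Function.update_of_ne (ne _ h.r_mem), h.tm_r]
  · intro v hv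
    rcases mem_insert.1 hv with e | hv
    · rw [e, Function.update_self]; omega
    · rw [Function.update_of_ne (ne _ hv)]; have := h.tm_lt v hv; omega
  · intro v hv w hw
    rcases mem_insert.1 hv with e | hv <;> rcases mem_insert.1 hw with e' | hw
    · intro _; rw [e, e']
    · rw [e, Function.update_self, Function.update_of_ne (ne _ hw)]
      have := h.tm_lt w hw; omega
    · rw [e', Function.update_self, Function.update_of_ne (ne _ hv)]
      have := h.tm_lt v hv; omega
    · rw [Function.update_of_ne (ne _ hv), Function.update_of_ne (ne _ hw)]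
      exact h.tm_inj v hv w hw
  · intro v hv hr
    rcases mem_insert.1 hv with e | hv
    · rw [e]
      simp only [Function.update_self, Function.update_of_ne (ne _ ha)]
      exact ⟨mem_insert_of_mem ha, hab.symm, trivial, h.tm_lt _ ha⟩
    · obtain ⟨h1, h2, h3, h4⟩ := h.step v hv hr
      simp only [Function.update_of_ne (ne _ hv), Function.update_of_ne (ne _ h1)]
      exact ⟨mem_insert_of_mem h1, h2, h3, h4⟩
  · intro v hv hr a ha' b hadj hlt hor
    have haU : a ∈ U := by
      rcases mem_insert.1 ha' with e | h'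
      · exfalso
        rw [e, Function.update_self] at hlt
        rcases mem_insert.1 hv with e | hv
        · rw [e, Function.update_self] at hlt; omega
        · rw [Function.update_of_ne (ne _ hv)] at hlt; have := h.tm_lt v hv; omega
      · exact h'
    rw [Function.update_of_ne (ne _ haU)] at hlt
    rcases mem_insert.1 hv with e | hv
    · rw [e] at hor ⊢
      simp only [Function.update_self] at hor ⊢
      have hbU : b ∉ U := by
        intro hbU
        rcases hor with h' | h'
        · exact h' (mem_insert_of_mem hbU)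
        · rw [Function.update_of_ne (ne _ hbU)] at h'; have := h.tm_lt b hbU; omega
      rw [wt_comm b0 a0]
      exact hmax (a, b) ⟨hadj, haU, hbU⟩
    · rw [Function.update_of_ne (ne _ hv)] at hlt hor ⊢
      refine h.heavy v hv hr a haU b hadj hlt ?_
      by_cases hbU : b ∈ U
      · right
        rcases hor with h' | h'
        · exact absurd (mem_insert_of_mem hbU) h'
        · rwa [Function.update_of_ne (ne _ hbU)] at h'
      · exact Or.inl hbU

theorem pinv_all (hc : G.Connected) (r : Fin n) :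
    ∃ par dep tm, PInv G r univ par dep tm := by
  have key : ∀ k, 1 ≤ k → k ≤ n → ∃ U par dep tm, PInv G r U par dep tm ∧ U.card = k := by
    intro k hk
    induction k, hk using Nat.le_induction with
    | base =>
      intro _
      refine ⟨{r}, fun _ => r, fun _ => 0, fun _ => 0, ?_, card_singleton r⟩
      constructor <;> simp
    | succ k hk ih =>
      intro hkn
      obtain ⟨U, par, dep, tm, h, hU⟩ := ih (by omega)
      obtain ⟨U', par', dep', tm', h', hU'⟩ := pinv_step hc h (by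
        intro e; rw [e, card_univ, Fintype.card_fin] at hU; omega)
      exact ⟨U', par', dep', tm', h', by omega⟩
  obtain ⟨U, par, dep, tm, h, hU⟩ := key n (Fin.pos r) le_rfl
  have : U = univ := eq_univ_of_card U (by rw [hU, Fintype.card_fin])
  exact ⟨par, dep, tm, this ▸ h⟩

theorem exists_P (hc : G.Connected) : ∃ S : RT G, S.HasP := by
  obtain ⟨r⟩ := hc.nonempty
  obtain ⟨par, dep, tm, h⟩ := pinv_all hc r
  let S : RT G := ⟨r, par, dep, h.par_r, h.dep_r, fun v hv => (h.step v (mem_univ _) hv).2.1,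
    fun v hv => (h.step v (mem_univ _) hv).2.2.1⟩
  have nr : ∀ k, 0 < tm k → k ≠ r := fun k hk e => by rw [e, h.tm_r] at hk; omega
  have heavy : ∀ k a b, G.Adj a b → tm a < tm k → tm k ≤ tm b → wt a b ≤ wt k (par k) :=
    fun k a b hab h1 h2 => h.heavy k (mem_univ _) (nr k (by omega)) a (mem_univ _) b hab h1
      (Or.inr h2)
  have Q : ∀ m i j x om, tm j = m → tm i ≤ tm j →
      (∀ k, tm i < tm k → tm k ≤ tm j → om ≤ wt k (par k)) → (S.Anc x i ↔ ¬ S.Anc x j) →
      om ≤ wt x (par x) := by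
    intro m
    induction m using Nat.strong_induction_on with
    | _ m ih =>
      intro i j x om hj hij hk hx
      have hne : i ≠ j := by rintro rfl; tauto
      have hlt : tm i < tm j :=
        lt_of_le_of_ne hij (fun e => hne (h.tm_inj i (mem_univ _) j (mem_univ _) e))
      have hjr : j ≠ r := nr j (by omega)
      obtain ⟨-, hadj, -, htm⟩ := h.step j (mem_univ _) hjr
      by_cases hxj : x = j
      · rw [hxj]; exact hk j hlt le_rfl
      have hx' : S.Anc x j ↔ S.Anc x (par j) := ⟨fun h => h.of_ne hxj, fun h => h.step⟩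
      rw [hx'] at hx
      rcases le_or_gt (tm i) (tm (par j)) with hc | hc
      · exact ih (tm (par j)) (by omega) i (par j) x om rfl hc
          (fun k h1 h2 => hk k h1 (by omega)) hx
      · refine ih (tm i) (by omega) (par j) i x om rfl hc.le (fun k h1 h2 => ?_) (by tauto)
        have h3 := hk j hlt le_rfl
        have h4 := heavy k (par j) j hadj.symm h1 (by omega)
        rw [wt_comm] at h4
        omega
  refine ⟨S, fun u v x huv hu hv => ?_⟩
  rcases le_total (tm u) (tm v) with hc | hc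
  · exact Q _ u v x _ rfl hc (fun k h1 h2 => heavy k u v huv h1 h2) (by tauto)
  · rw [wt_comm]
    exact Q _ v u x _ rfl hc (fun k h1 h2 => heavy k v u huv.symm h1 h2) (by tauto)

/-- re-rooting at `z` -/
theorem RT.reroot (S : RT G) (z : Fin n) : ∃ S' : RT G, S'.r = z ∧ (S.HasP → S'.HasP) ∧
    (∀ v, S'.dep v + 2 * S.dep (S.lca v z) = S.dep z + S.dep v) ∧
    (∀ v, S'.lca v S.r = S.lca v z) := by
  let par' : Fin n → Fin n := fun v => if v = z then z else if S.Anc v z then S.ch v z else S.par v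
  let dep' : Fin n → ℕ := fun v => S.dep z + S.dep v - 2 * S.dep (S.lca v z)
  have hd : ∀ v, dep' v + 2 * S.dep (S.lca v z) = S.dep z + S.dep v := by
    intro v
    have h1 := (S.lca_l v z).dep_le
    have h2 := (S.lca_r v z).dep_le
    simp only [dep']; omega
  have p1 : ∀ v, v ≠ z → S.Anc v z → par' v = S.ch v z := fun v h1 h2 => by simp [par', h1, h2]
  have p2 : ∀ v, ¬ S.Anc v z → par' v = S.par v := fun v h2 => by
    have : v ≠ z := fun e => h2 (e ▸ S.anc_refl _)
    simp [par', this, h2]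
  let S' : RT G :=
    { r := z, par := par', dep := dep'
      par_r := by simp [par']
      dep_r := by have := hd z; rw [RT.lca_of_anc (S.anc_refl z)] at this; omega
      adj := by
        intro v hv
        by_cases h : S.Anc v z
        · rw [p1 v hv h]
          have := S.adj _ (RT.ch_ne_r h hv)
          rw [RT.par_ch h hv] at this
          exact this.symm
        · rw [p2 v h]; exact S.adj v (RT.ne_r_of_not_anc h)
      dep_par := by
        intro v hv
        have h1 := hd v
        have h2 := hd (par' v)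
        by_cases h : S.Anc v z
        · rw [p1 v hv h] at h2 ⊢
          rw [RT.lca_of_anc h] at h1
          rw [RT.lca_of_anc (S.ch_anc v z), RT.dep_ch h hv] at h2
          omega
        · rw [p2 v h] at h2 ⊢
          rw [RT.lca_par h] at h2
          have := S.dep_par v (RT.ne_r_of_not_anc h)
          omega }
  have hanc : ∀ x y, S'.Anc x y ↔
      (if S.Anc x z then (x = z ∨ ¬ S.Anc (S.ch x z) y) else S.Anc x y) := by
    intro x y
    induction y using S'.ind with
    | h0 =>
      change S'.Anc x z ↔ _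
      constructor
      · intro h
        have e : x = z := h.eq_r
        rw [e, if_pos (S.anc_refl z)]; exact Or.inl rfl
      · intro h
        change (if S.Anc x z then (x = z ∨ ¬ S.Anc (S.ch x z) z) else S.Anc x z) at h
        split_ifs at h with hx
        · rcases h with h | h
          · exact h ▸ S'.anc_refl _
          · exact absurd (S.ch_anc x z) h
        · exact absurd h hx
    | hs y hy ih =>
      change y ≠ z at hy
      have e1 : S'.Anc x y ↔ x = y ∨ S'.Anc x (par' y) :=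
        ⟨fun h => h.cases.imp id (fun h => h.2),
          fun h => h.elim (fun h => h ▸ S'.anc_refl _) (fun h => h.step)⟩
      change S'.Anc x (par' y) ↔
        (if S.Anc x z then (x = z ∨ ¬ S.Anc (S.ch x z) (par' y)) else S.Anc x (par' y)) at ih
      rw [e1, ih]
      by_cases hx : S.Anc x z
      · rw [if_pos hx, if_pos hx]
        by_cases hxz : x = z
        · simp [hxz]
        simp only [hxz, false_or]
        have dx := RT.dep_ch hx hxz
        by_cases h : S.Anc y z
        · rw [p1 y hy h]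
          have dy := RT.dep_ch h hy
          constructor
          · rintro (e | e) hh
            · have := hh.dep_le; rw [e] at dx this; omega
            · exact e (hh.trans (RT.anc_ch h hy))
          · intro hh
            by_cases e : x = y
            · exact Or.inl e
            · right
              intro h2
              have d1 := h2.dep_le
              have d2 : S.dep x ≠ S.dep y := fun d => e (hx.eq_of_dep_eq h d)
              exact hh ((S.ch_anc x z).total h (by omega))
        · rw [p2 y h]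
          constructor
          · rintro (e | e) hh
            · exact h (e ▸ hx)
            · exact e (hh.of_ne (fun e' => h (e' ▸ S.ch_anc x z)))
          · exact fun hh => Or.inr (fun h2 => hh h2.step)
      · rw [if_neg hx, if_neg hx]
        by_cases h : S.Anc y z
        · rw [p1 y hy h]
          constructor
          · rintro (e | e)
            · exact e ▸ S.anc_refl _
            · exact absurd (e.trans (S.ch_anc y z)) hx
          · exact fun hh => absurd (hh.trans h) hx
        · rw [p2 y h]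
          exact ⟨fun h => h.elim (fun h => h ▸ S.anc_refl _) (fun h => h.step),
            fun h => h.cases.imp id (fun h => h.2)⟩
  refine ⟨S', rfl, ?_, hd, ?_⟩
  · intro hP u v x huv hu hv
    rw [hanc] at hu hv
    change wt u v ≤ wt x (par' x)
    by_cases hx : S.Anc x z
    · rw [if_pos hx] at hu hv
      push Not at hv
      have hu' := hu.resolve_left hv.1
      have := hP v u _ huv.symm hv.2 hu'
      rw [RT.par_ch hx hv.1] at this
      rw [p1 x hv.1 hx, wt_comm u v, wt_comm x]
      exact this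
    · rw [if_neg hx] at hu hv
      rw [p2 x hx]
      exact hP u v x huv hu hv
  · intro v
    have hw := S.lca_r v z
    apply RT.lca_eq
    · rw [hanc, if_pos hw]
      by_cases e : S.lca v z = z
      · exact Or.inl e
      · right
        intro h
        have := (RT.anc_lca h (S.ch_anc (S.lca v z) z)).dep_le
        rw [RT.dep_ch hw e] at this; omega
    · rw [hanc, if_pos hw]
      by_cases e : S.lca v z = z
      · exact Or.inl e
      · exact Or.inr (fun h => RT.ch_ne_r hw e h.eq_r)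
    · intro y h1 h2
      rw [hanc] at h1 h2 ⊢
      by_cases hy : S.Anc y z
      · rw [if_pos hy] at h1 h2 ⊢
        exact h1.imp id (fun h h' => h (h'.trans (S.lca_l v z)))
      · rw [if_neg hy] at h2
        exact absurd (h2.eq_r ▸ S.anc_r z) hy

end
end Pool.Agent.Work.MP_37ce0f_lc.W
end

-- merged part: Pool.Agent.Work.MP_37ce0f_lc.W.Spine
section
namespace Pool.Agent.Work.MP_37ce0f_lc.W
open Finset Classical
noncomputable section
variable {n : ℕ} {G : SimpleGraph (Fin n)}

theorem five {A B C D E : Finset (Fin n)} (ab : Disjoint A B) (ac : Disjoint A C)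
    (ad : Disjoint A D) (ae : Disjoint A E) (bc : Disjoint B C) (bd : Disjoint B D)
    (be : Disjoint B E) (cd : Disjoint C D) (ce : Disjoint C E) (de : Disjoint D E) :
    A.card + B.card + C.card + D.card + E.card ≤ n := by
  have h := card_le_univ (A ∪ B ∪ C ∪ D ∪ E)
  rw [card_union_of_disjoint (by simp [disjoint_union_left, *]),
    card_union_of_disjoint (by simp [disjoint_union_left, *]),
    card_union_of_disjoint (by simp [disjoint_union_left, *]),
    card_union_of_disjoint ab, Fintype.card_fin] at h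
  exact h

namespace RT
variable {S : RT G}

theorem tail_R (h : NoCross G) {a y z : Fin n} (hy : S.Anc y z ∨ cy S.r y < cy S.r z)
    (ha : a ∈ S.tail y z) : cy S.r a < cy S.r z := by
  rw [mem_tail] at ha
  rcases hy with hy | hy
  · exact absurd (ha.1.trans hy) ha.2
  · exact (sub_side h (S.anc_refl a) ha.1 ha.2).2 hy

theorem tail_L (h : NoCross G) {a y z : Fin n} (hy : S.Anc y z ∨ cy S.r z < cy S.r y)
    (ha : a ∈ S.tail y z) : ¬ cy S.r a < cy S.r z := by
  rw [mem_tail] at ha
  rcases hy with hy | hy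
  · exact absurd (ha.1.trans hy) ha.2
  · rw [sub_side h (S.anc_refl a) ha.1 ha.2]; omega

theorem tail_foot {a y z : Fin n} (ha : a ∈ S.tail y z) : S.lca a z = S.lca y z := by
  rw [mem_tail] at ha; exact lca_of_off ha.1 ha.2

theorem dj_Z (y z : Fin n) : Disjoint (univ.filter (fun a => S.Anc a z)) (S.tail y z) := by
  rw [disjoint_left]
  intro a h1 h2
  exact (S.mem_tail.1 h2).2 (mem_filter.1 h1).2

theorem dj_RL (h : NoCross G) {y y' z : Fin n} (hy : S.Anc y z ∨ cy S.r y < cy S.r z)
    (hy' : S.Anc y' z ∨ cy S.r z < cy S.r y') : Disjoint (S.tail y z) (S.tail y' z) := by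
  rw [disjoint_left]
  intro a h1 h2
  exact tail_L h hy' h2 (tail_R h hy h1)

theorem dj_foot {y y' z : Fin n} (hne : S.lca y z ≠ S.lca y' z) :
    Disjoint (S.tail y z) (S.tail y' z) := by
  rw [disjoint_left]
  intro a h1 h2
  exact hne ((tail_foot h1).symm.trans (tail_foot h2))

theorem sp_of_nobad (h : NoCross G) {z : Fin n} (hz : z ≠ S.r) (nb : ∀ w, ¬ S.Bad z w) :
    Nonempty (Sp S) := by
  let L : Fin n → Finset (Fin n) := fun w =>
    univ.filter (fun y => S.lca y z = w ∧ (S.Anc y z ∨ cy S.r z < cy S.r y))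
  let hL : Fin n → ℕ := fun w => (L w).sup (fun y => S.dep y - S.dep w)
  have hex : ∀ w, S.Anc w z → ∃ y, S.lca y z = w ∧ (S.Anc y z ∨ cy S.r z < cy S.r y) ∧
      hL w = S.dep y - S.dep w := by
    intro w hw
    obtain ⟨y, hy, e⟩ := exists_mem_eq_sup (L w) ⟨w, by
      simp only [L, mem_filter, mem_univ, true_and]; exact ⟨lca_of_anc hw, Or.inl hw⟩⟩
      (fun y => S.dep y - S.dep w)
    simp only [L, mem_filter, mem_univ, true_and] at hy
    exact ⟨y, hy.1, hy.2, e⟩
  have hle : ∀ y, cy S.r z < cy S.r y → S.dep y - S.dep (S.lca y z) ≤ hL (S.lca y z) := by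
    intro y hy
    exact le_sup (f := fun y' => S.dep y' - S.dep (S.lca y z)) (b := y) (by
      simp only [L, mem_filter, mem_univ, true_and]; exact Or.inr hy)
  have hgood : ∀ y, (S.Anc y z ∨ cy S.r y < cy S.r z) →
      hL (S.lca y z) + (S.dep y - S.dep (S.lca y z)) ≤ (n - 1) / 3 := by
    intro y hy
    obtain ⟨y', e1, e2, e3⟩ := hex _ (S.lca_r y z)
    by_contra hcon
    exact nb (S.lca y z) ⟨y, y', rfl, e1, hy, e2, by omega⟩
  have hth : ∀ w, S.Anc w z → hL w ≤ (n - 1) / 3 := by
    intro w hw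
    have := hgood w (Or.inl hw)
    rw [lca_of_anc hw] at this; omega
  let xi : Fin n → ℤ := fun v =>
    if cy S.r z < cy S.r v then (hL (S.lca v z) : ℤ) - ((S.dep v : ℤ) - S.dep (S.lca v z))
    else (hL (S.lca v z) : ℤ) + ((S.dep v : ℤ) - S.dep (S.lca v z))
  have xsp : ∀ v, S.Anc v z → xi v = hL v := by
    intro v hv
    simp only [xi, lca_of_anc hv]
    split_ifs <;> ring
  let sz : Fin n → ℕ := fun v => (univ.filter (fun a => S.Anc v a)).card
  have szn : ∀ v, sz v ≤ n := fun v => by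
    have := card_le_univ (univ.filter (fun a => S.Anc v a))
    rwa [Fintype.card_fin] at this
  have hsz : ∀ v, v ≠ S.r → S.Anc v z → hL (S.par v) + 1 + sz v ≤ sz (S.par v) := by
    intro v hv hvz
    have hw : S.Anc (S.par v) z := (S.anc_par v).trans hvz
    obtain ⟨y, e1, -, e3⟩ := hex _ hw
    have c1 := S.card_tail y z
    rw [e1] at c1
    have hwy : S.Anc (S.par v) y := e1 ▸ S.lca_l y z
    have sub : insert (S.par v) (S.tail y z ∪ univ.filter (fun a => S.Anc v a)) ⊆
        univ.filter (fun a => S.Anc (S.par v) a) := by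
      intro a ha
      simp only [mem_insert, mem_union, mem_tail, mem_filter, mem_univ, true_and] at ha ⊢
      rcases ha with e | e | e
      · exact e ▸ S.anc_refl _
      · exact (hwy.total' e.1).resolve_right (fun hh => e.2 (hh.trans hw))
      · exact (S.anc_par v).trans e
    have c2 := card_le_card sub
    rw [card_insert_of_notMem, card_union_of_disjoint] at c2
    · simp only [sz]; omega
    · rw [disjoint_left]
      intro a h1 h2
      have := anc_lca ((mem_filter.1 h2).2.trans (S.mem_tail.1 h1).1) hvz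
      rw [e1] at this
      exact not_anc_par hv this
    · simp only [mem_union, mem_tail, mem_filter, mem_univ, true_and, not_or]
      exact ⟨fun hh => hh.2 hw, not_anc_par hv⟩
  have step : ∀ v, ¬ S.Anc v z → xi (S.par v) =
      if cy S.r z < cy S.r v then
        (hL (S.lca v z) : ℤ) - ((S.dep (S.par v) : ℤ) - S.dep (S.lca v z))
      else (hL (S.lca v z) : ℤ) + ((S.dep (S.par v) : ℤ) - S.dep (S.lca v z)) := by
    intro v hv
    by_cases hp : S.Anc (S.par v) z
    · rw [xsp _ hp, ← lca_par hv, lca_of_anc hp]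
      split_ifs <;> ring
    · have h1 := sub_side h (S.anc_par v) (S.anc_refl (S.par v)) hp
      have h2 : cy S.r v ≠ cy S.r z := fun e => hv (cy_inj e ▸ S.anc_refl _)
      have h3 : cy S.r (S.par v) ≠ cy S.r z := fun e => hp (cy_inj e ▸ S.anc_refl _)
      simp only [xi, lca_par hv]
      have : cy S.r z < cy S.r (S.par v) ↔ cy S.r z < cy S.r v := by omega
      simp only [this]
  refine ⟨⟨z, xi, fun v => if S.Anc v z then 2 * ((n : ℤ) - sz v) + hL v else 0, hz,
    ?_, ?_, ?_, ?_, ?_, ?_, ?_⟩⟩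
  · intro v
    have := (S.lca_l v z).dep_le
    simp only [xi]
    split_ifs with hc
    · have := hle v hc; omega
    · omega
  · intro v
    have := (S.lca_l v z).dep_le
    simp only [xi]
    split_ifs with hc
    · have := hth _ (S.lca_r v z); omega
    · have := hgood v (by
        by_cases e : v = z
        · exact Or.inl (e ▸ S.anc_refl _)
        · have : cy S.r v ≠ cy S.r z := fun e' => e (cy_inj e')
          right; omega)
      omega
  · intro v hv hc
    have hd := S.dep_par v (ne_r_of_not_anc hv)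
    rw [step v hv]
    simp only [xi, if_neg (by omega : ¬ cy S.r z < cy S.r v)]
    omega
  · intro v hv hc
    have hd := S.dep_par v (ne_r_of_not_anc hv)
    rw [step v hv]
    simp only [xi, if_pos hc]
    omega
  · intro v
    have := szn v
    split_ifs <;> omega
  · intro v
    split_ifs with hv
    · have := hth v hv; omega
    · omega
  · intro v hv hvz
    have hw : S.Anc (S.par v) z := (S.anc_par v).trans hvz
    have := hsz v hv hvz
    simp only [if_pos hvz, if_pos hw, xsp _ hvz, xsp _ hw]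
    rcases abs_cases ((hL v : ℤ) - hL (S.par v)) with e | e <;> omega

theorem exists_nobad (h : NoCross G) {z w : Fin n} (hz : ∀ v, S.dep v ≤ S.dep z)
    (hb : S.Bad z w) (ht : S.dep z ≤ 2 * S.dep w) : ∃ z', z' ≠ S.r ∧ ∀ w', ¬ S.Bad z' w' := by
  obtain ⟨y, y', fy, fy', sy, sy', hab⟩ := hb
  have cZ := S.card_anc z
  have cy1 := S.card_tail y z
  have cy2 := S.card_tail y' z
  rw [fy] at cy1
  rw [fy'] at cy2
  have d1 := hz y
  have d2 := hz y'
  have hwz : S.Anc w z := fy ▸ S.lca_r y z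
  have hwy' : S.Anc w y' := fy' ▸ S.lca_l y' z
  have d3 := hwz.dep_le
  have n1 := five (dj_Z (S := S) y z) (dj_Z y' z) (disjoint_empty_right _) (disjoint_empty_right _)
    (dj_RL h sy sy') (disjoint_empty_right _) (disjoint_empty_right _) (disjoint_empty_right _)
    (disjoint_empty_right _) (disjoint_empty_right _)
  rw [card_empty] at n1
  have hq : S.dep z - S.dep w ≤ (n - 1) / 3 := by omega
  have hne : w ≠ y' := by intro e; rw [← e] at hab; omega
  have hy'z : ¬ S.Anc y' z := fun hh => hne (by rw [← fy', lca_of_anc hh])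
  have sL : cy S.r z < cy S.r y' := sy'.resolve_left hy'z
  obtain ⟨c, hc, cmax⟩ := exists_max_image (univ.filter (fun c => S.par c = w ∧ c ≠ w))
    (fun c => cy S.r c) ⟨S.ch w y', by
      simp only [mem_filter, mem_univ, true_and]; exact ⟨par_ch hwy' hne, ch_ne hwy' hne⟩⟩
  simp only [mem_filter, mem_univ, true_and] at hc cmax
  have hcr : c ≠ S.r := ne_r_of_par_ne (hc.1 ▸ hc.2)
  have dc : S.dep c = S.dep w + 1 := hc.1 ▸ S.dep_par c hcr
  have hwc : S.Anc w c := hc.1 ▸ S.anc_par c
  have h0z : ¬ S.Anc (S.ch w y') z := fun hh => by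
    have := (anc_lca (S.ch_anc w y') hh).dep_le
    rw [fy', dep_ch hwy' hne] at this; omega
  have h0 : cy S.r z < cy S.r (S.ch w y') := by
    have := sub_side h (S.ch_anc w y') (S.anc_refl _) h0z
    have e : cy S.r (S.ch w y') ≠ cy S.r z := fun e => h0z (cy_inj e ▸ S.anc_refl _)
    omega
  have h0c := cmax _ ⟨par_ch hwy' hne, ch_ne hwy' hne⟩
  have hcz : ¬ S.Anc c z := fun hh => by
    have e : ¬ S.Anc c (S.ch w y') := fun h2 =>
      h0z (h2.eq_of_dep (by rw [dep_ch hwy' hne, dc]) ▸ hh)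
    have := sub_side h hh (S.anc_refl c) e
    omega
  have inC : ∀ a, S.Anc c a → cy S.r z < cy S.r a := fun a ha => by
    have := sub_side h ha (S.anc_refl c) hcz
    have e : cy S.r a ≠ cy S.r z := fun e => hcz (cy_inj e ▸ ha)
    omega
  obtain ⟨z', hz', zmax⟩ := exists_max_image (univ.filter (fun a => S.Anc c a)) S.dep
    ⟨c, by simp [S.anc_refl]⟩
  simp only [mem_filter, mem_univ, true_and] at hz' zmax
  have hwz' : S.Anc w z' := hwc.trans hz'
  have fz' : S.lca z' z = w := lca_eq hwz' hwz (fun a h1 h2 => by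
    rcases h1.total' hz' with h3 | h3
    · exact hc.1 ▸ h3.of_ne (fun e => hcz (e ▸ h2))
    · exact absurd (h3.trans h2) hcz)
  refine ⟨z', fun e => by have := hz'.dep_le; rw [e, S.dep_r] at this; omega, ?_⟩
  rintro w2 ⟨y2, y2', f2, f2', s2, s2', hab2⟩
  have hw2 : S.Anc w2 z' := f2 ▸ S.lca_r y2 z'
  have c21 := S.card_tail y2 z'
  have c22 := S.card_tail y2' z'
  rw [f2] at c21
  rw [f2'] at c22
  by_cases k1 : S.Anc c w2
  · have in2 : ∀ a y0, S.lca y0 z' = w2 → a ∈ S.tail y0 z' → S.Anc c a := fun a y0 e ha => by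
      have := S.lca_l a z'
      rw [tail_foot ha, e] at this
      exact k1.trans this
    obtain ⟨y3, s3, c3, e3⟩ : ∃ y3, cy S.r z < cy S.r y3 ∧
        S.dep y' - S.dep w ≤ (S.tail y3 z).card ∧
        ∀ a ∈ S.tail y3 z, S.Anc c a → S.Anc a z' := by
      by_cases k : S.Anc c y'
      · refine ⟨z', inC _ hz', ?_, fun a ha _ => (S.mem_tail.1 ha).1⟩
        have := S.card_tail z' z
        have := zmax y' k
        rw [fz'] at *; omega
      · exact ⟨y', sL, by omega, fun a ha h2 => absurd (h2.trans (S.mem_tail.1 ha).1) k⟩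
    have dZ : ∀ y0, S.lca y0 z' = w2 →
        Disjoint (univ.filter (fun a => S.Anc a z)) (S.tail y0 z') := fun y0 e =>
      disjoint_left.2 (fun a h1 h2 => hcz ((in2 a y0 e h2).trans (mem_filter.1 h1).2))
    have dY : ∀ y0, S.lca y0 z' = w2 → Disjoint (S.tail y z) (S.tail y0 z') := fun y0 e =>
      disjoint_left.2 (fun a h1 h2 => by
        have := tail_R h sy h1; have := inC a (in2 a y0 e h2); omega)
    have d3 : ∀ y0, S.lca y0 z' = w2 → Disjoint (S.tail y3 z) (S.tail y0 z') := fun y0 e =>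
      disjoint_left.2 (fun a h1 h2 => (S.mem_tail.1 h2).2 (e3 a h1 (in2 a y0 e h2)))
    have := five (dj_Z (S := S) y z) (dj_Z y3 z) (dZ _ f2) (dZ _ f2') (dj_RL h sy (Or.inr s3))
      (dY _ f2) (dY _ f2') (d3 _ f2) (d3 _ f2') (dj_RL h s2 s2')
    omega
  have k2 : S.Anc w2 w :=
    hc.1 ▸ ((hw2.total' hz').resolve_right k1).of_ne (fun e => k1 (e ▸ S.anc_refl _))
  by_cases k3 : w2 = w
  · subst k3
    have e : w2 = y2' := by
      by_contra hne2
      have a2 : S.Anc w2 y2' := f2' ▸ S.lca_l y2' z'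
      have g1 : ¬ S.Anc (S.ch w2 y2') z' := fun hh => by
        have := (anc_lca (S.ch_anc w2 y2') hh).dep_le
        rw [f2', dep_ch a2 hne2] at this; omega
      have g2 : ¬ S.Anc c (S.ch w2 y2') := fun h2 =>
        g1 (h2.eq_of_dep (by rw [dep_ch a2 hne2, dc]) ▸ hz')
      have g3 := cmax _ ⟨par_ch a2 hne2, ch_ne a2 hne2⟩
      have g4 := sub_side h (S.anc_refl c) hz' g2
      have g5 := sub_side h (S.ch_anc w2 y2') (S.anc_refl _) g1
      have g6 : cy S.r z' ≠ cy S.r (S.ch w2 y2') := fun e => g1 (cy_inj e ▸ S.anc_refl _)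
      have g7 := s2'.resolve_left (fun hh => hne2 (by rw [← f2', lca_of_anc hh]))
      omega
    have := hz y2
    rw [← e] at hab2
    omega
  · have off : ∀ y0, S.lca y0 z' = w2 → ¬ S.Anc w y0 := fun y0 e hh =>
      k3 (k2.antisymm (e ▸ anc_lca hh hwz'))
    have ft : ∀ y0, S.lca y0 z' = w2 → S.lca y0 z = w2 := fun y0 e =>
      lca_eq (e ▸ S.lca_l y0 z') (k2.trans hwz) (fun a h1 h2 => by
        rcases h2.total' hwz with h3 | h3
        · exact e ▸ anc_lca h1 (h3.trans hwz')
        · exact absurd (h3.trans h1) (off y0 e))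
    have on : ∀ y0, S.lca y0 z' = w2 → S.Anc y0 z' → S.Anc y0 z := fun y0 e hh => by
      rw [lca_of_anc hh] at e
      exact e ▸ k2.trans hwz
    have t2 : S.Anc y2 z ∨ cy S.r y2 < cy S.r z := s2.imp (on _ f2) (fun hh => by
      have := sub_side h hwz hwz' (off _ f2)
      have e : cy S.r y2 ≠ cy S.r z := fun e => off _ f2 (cy_inj e ▸ hwz)
      omega)
    have t2' : S.Anc y2' z ∨ cy S.r z < cy S.r y2' := s2'.imp (on _ f2') (fun hh =>
      (sub_side h hwz hwz' (off _ f2')).2 hh)
    have u1 := S.card_tail y2 z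
    have u2 := S.card_tail y2' z
    rw [ft _ f2] at u1
    rw [ft _ f2'] at u2
    have := five (dj_Z (S := S) y z) (dj_Z y' z) (dj_Z y2 z) (dj_Z y2' z) (dj_RL h sy sy')
      (dj_foot (by rw [fy, ft _ f2]; exact Ne.symm k3))
      (dj_foot (by rw [fy, ft _ f2']; exact Ne.symm k3))
      (dj_foot (by rw [fy', ft _ f2]; exact Ne.symm k3))
      (dj_foot (by rw [fy', ft _ f2']; exact Ne.symm k3)) (dj_RL h t2 t2')
    omega

end RT

theorem exists_sp (hn : 2 ≤ n) (hc : G.Connected) (h : NoCross G) :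
    ∃ S : RT G, S.HasP ∧ Nonempty (Sp S) := by
  let P : ℕ → Prop := fun q => ∃ S : RT G, ∃ z, S.HasP ∧ S.dep z = q
  have hmax : ∀ S : RT G, S.HasP → ∀ v, S.dep v ≤ Nat.findGreatest P n := by
    intro S hS v
    have := card_le_univ (univ.filter (fun a => S.Anc a v))
    rw [S.card_anc, Fintype.card_fin] at this
    exact Nat.le_findGreatest (by omega) ⟨S, v, hS, rfl⟩
  obtain ⟨S0, hS0⟩ := exists_P hc
  have hq : 1 ≤ Nat.findGreatest P n := by
    have : Nontrivial (Fin n) := Fin.nontrivial_iff_two_le.2 hn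
    obtain ⟨v, hv⟩ := exists_ne S0.r
    have := hmax S0 hS0 v
    have := S0.dep_par v hv
    omega
  obtain ⟨S, z, hS, hz⟩ : P (Nat.findGreatest P n) :=
    Nat.findGreatest_spec (P := P) (Nat.zero_le n) ⟨S0, S0.r, hS0, S0.dep_r⟩
  have hzr : z ≠ S.r := fun e => by rw [e, S.dep_r] at hz; omega
  by_cases hb : ∃ w, S.Bad z w
  · obtain ⟨w, hw⟩ := hb
    by_cases ht : S.dep z ≤ 2 * S.dep w
    · obtain ⟨z', h1, h2⟩ := RT.exists_nobad h (fun v => hz ▸ hmax S hS v) hw ht
      exact ⟨S, hS, RT.sp_of_nobad h h1 h2⟩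
    · obtain ⟨S', r', hP', hd', hl'⟩ := S.reroot z
      obtain ⟨y, y', fy, fy', sy, sy', hab⟩ := hw
      have e0 := hd' S.r
      rw [RT.lca_of_anc (S.anc_r z), S.dep_r] at e0
      have hwz : S.Anc w z := fy ▸ S.lca_r y z
      have e1 := hd' w
      rw [RT.lca_of_anc hwz] at e1
      have e2 := hd' y
      have e3 := hd' y'
      rw [fy] at e2
      rw [fy'] at e3
      have on : ∀ y0, S.Anc y0 z → S'.Anc y0 S.r := fun y0 hh => by
        have := S'.lca_r y0 S.r
        rwa [hl', RT.lca_of_anc hh] at this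
      have p0 := cy_pos hzr
      have hb' : S'.Bad S.r w := by
        refine ⟨y', y, by rw [hl', fy'], by rw [hl', fy], sy'.imp (on _) (fun hh => ?_), ?_,
          by omega⟩
        · have := cy_lt S.r y'
          rw [r', cy_rel S.r z y', cy_rel S.r z S.r, cy_self]
          split_ifs <;> omega
        · by_cases e : y = S.r
          · exact Or.inl (e ▸ S'.anc_refl _)
          · refine sy.imp (on _) (fun hh => ?_)
            have := cy_pos e
            have := cy_lt S.r z
            rw [r', cy_rel S.r z y, cy_rel S.r z S.r, cy_self]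
            split_ifs <;> omega
      obtain ⟨z', h1, h2⟩ := RT.exists_nobad h
        (fun v => by have := hmax S' (hP' hS) v; omega) hb' (by have := hwz.dep_le; omega)
      exact ⟨S', hP' hS, RT.sp_of_nobad h h1 h2⟩
  · push Not at hb
    exact ⟨S, hS, RT.sp_of_nobad h hzr hb⟩

end
end Pool.Agent.Work.MP_37ce0f_lc.W
end

-- merged part: Pool.Agent.Work.MP_37ce0f_lc.W.Alloc
section
namespace Pool.Agent.Work.MP_37ce0f_lc.W
open Finset Classical
noncomputable section
variable {n : ℕ} {G : SimpleGraph (Fin n)}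

theorem darts_le (h : NoCross G) :
    (univ.filter (fun p : Fin n × Fin n => p.2 = p.1 ∨ G.Adj p.1 p.2)).card ≤ 5 * n := by
  let mx : Fin n → Fin n := fun a =>
    if ha : (univ.filter (fun b => G.Adj a b)).Nonempty then
      (univ.filter (fun b => G.Adj a b)).max' ha else a
  let mn : Fin n → Fin n := fun a =>
    if ha : (univ.filter (fun b => G.Adj a b)).Nonempty then
      (univ.filter (fun b => G.Adj a b)).min' ha else a
  have key : ∀ a b, G.Adj a b → a < b → b = mx a ∨ a = mn b := by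
    intro a b hab hlt
    have ha : (univ.filter (fun b => G.Adj a b)).Nonempty := ⟨b, by simpa using hab⟩
    have hb : (univ.filter (fun c => G.Adj b c)).Nonempty := ⟨a, by simpa using hab.symm⟩
    have h1 : G.Adj a (mx a) := by
      simp only [mx, dif_pos ha]; exact (mem_filter.1 (max'_mem _ ha)).2
    have h2 : b ≤ mx a := by
      simp only [mx, dif_pos ha]; exact le_max' _ _ (by simpa using hab)
    have h3 : G.Adj b (mn b) := by
      simp only [mn, dif_pos hb]; exact (mem_filter.1 (min'_mem _ hb)).2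
    have h4 : mn b ≤ a := by
      simp only [mn, dif_pos hb]; exact min'_le _ _ (by simpa using hab.symm)
    by_contra hcon
    push Not at hcon
    exact h (mn b) a b (mx a) (lt_of_le_of_ne h4 hcon.2.symm) hlt (lt_of_le_of_ne h2 hcon.1)
      h3.symm h1
  let f : Fin 5 × Fin n → Fin n × Fin n := fun q =>
    ![(q.2, q.2), (q.2, mx q.2), (mn q.2, q.2), (mx q.2, q.2), (q.2, mn q.2)] q.1
  have sub : univ.filter (fun p : Fin n × Fin n => p.2 = p.1 ∨ G.Adj p.1 p.2) ⊆
      univ.image f := by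
    rintro ⟨a, b⟩ hp
    simp only [mem_filter, mem_univ, true_and] at hp
    simp only [mem_image, mem_univ, true_and]
    rcases hp with e | hab
    · exact ⟨(0, a), by simp [f, e]⟩
    · rcases lt_or_gt_of_ne hab.ne with hlt | hlt
      · rcases key a b hab hlt with e | e
        · exact ⟨(1, a), by simp [f, ← e]⟩
        · exact ⟨(2, b), by simp [f, ← e]⟩
      · rcases key b a hab.symm hlt with e | e
        · exact ⟨(3, b), by simp [f, ← e]⟩
        · exact ⟨(4, a), by simp [f, ← e]⟩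
  refine (card_le_card sub).trans (card_image_le.trans ?_)
  simp

/-- all data of the construction -/
structure Ctx {n : ℕ} (G : SimpleGraph (Fin n)) where
  S : RT G
  hP : S.HasP
  sp : Sp S
  nc : NoCross G
  K : ℕ
  K1 : 1 ≤ K

namespace Ctx
variable (C : Ctx G)

def Item (x a : Fin n) : Prop := (a = x ∨ G.Adj x a) ∧ a ≠ C.S.par x
def Child (x a : Fin n) : Prop := C.S.par a = x ∧ a ≠ x
def II (v : Fin n) : Finset (Fin n × Fin n) :=
  univ.filter (fun p => C.S.Anc v p.1 ∧ (p.2 = p.1 ∨ G.Adj p.1 p.2))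
def mu (v : Fin n) : ℕ := (C.II v).card
def mass (x a : Fin n) : ℕ := if C.Child x a then C.mu a else 1
def key (x a : Fin n) : ℕ := cy (C.S.par x) a
def pre (x a : Fin n) : ℕ :=
  ∑ b ∈ univ.filter (fun b => C.Item x b ∧ C.key x b < C.key x a), C.mass x b
def s0 : ℝ := (C.K : ℝ) / (5 * n)
def sc : Fin n → ℝ :=
  C.S.rc C.s0 (fun v s => if C.S.Anc v C.sp.z then C.s0 else s * C.mu v / (C.mu v - 1))
def base : Fin n → ℝ :=
  C.S.rc 0 (fun v a => a + C.sc (C.S.par v) * C.pre (C.S.par v) v)
def A (x a : Fin n) : ℝ := C.base x + C.sc x * C.pre x a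
def Lam (x a : Fin n) : ℝ := C.sc x * C.mass x a
def Und (w g x a : Fin n) : Prop := (x = w ∧ a = g) ∨ (C.Child w g ∧ C.S.Anc g x)
def top (w x a : Fin n) : Fin n := if x = w then a else C.S.ch w x
def Right (x a : Fin n) : Prop := C.A x a + C.Lam x a ≤ C.A C.sp.z C.sp.z
def Left (x a : Fin n) : Prop := C.A C.sp.z C.sp.z + C.s0 ≤ C.A x a
def Spine (x a : Fin n) : Prop :=
  (C.Child x a ∧ C.S.Anc a C.sp.z) ∨ (x = C.sp.z ∧ a = C.sp.z)

variable {C}

theorem Child.ne_r {x a : Fin n} (h : C.Child x a) : a ≠ C.S.r :=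
  RT.ne_r_of_par_ne (h.1 ▸ h.2)

theorem Child.dep {x a : Fin n} (h : C.Child x a) : C.S.dep a = C.S.dep x + 1 :=
  h.1 ▸ C.S.dep_par a h.ne_r

theorem Child.anc {x a : Fin n} (h : C.Child x a) : C.S.Anc x a := h.1 ▸ C.S.anc_par a

theorem Child.adj {x a : Fin n} (h : C.Child x a) : G.Adj x a :=
  h.1 ▸ (C.S.adj a h.ne_r).symm

theorem Child.item {x a : Fin n} (h : C.Child x a) : C.Item x a :=
  ⟨Or.inr h.adj, fun e => by
    have h1 := h.dep
    have h2 := (C.S.anc_par x).dep_le
    rw [← e] at h2; omega⟩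

theorem child_par {v : Fin n} (hv : v ≠ C.S.r) : C.Child (C.S.par v) v :=
  ⟨rfl, (RT.par_ne hv).symm⟩

theorem child_ch {w v : Fin n} (h : C.S.Anc w v) (hne : w ≠ v) : C.Child w (C.S.ch w v) :=
  ⟨RT.par_ch h hne, RT.ch_ne h hne⟩

theorem item_ray {v : Fin n} (hv : v ≠ C.S.r) : C.Item v v :=
  ⟨Or.inl rfl, (RT.par_ne hv).symm⟩

theorem not_child_ray (v : Fin n) : ¬ C.Child v v := fun h => h.2 rfl

theorem und_refl (x a : Fin n) : C.Und x a x a := Or.inl ⟨rfl, rfl⟩

theorem n_pos (C : Ctx G) : 0 < n := Fin.pos C.S.r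

variable (C)

theorem s0_pos : 0 < C.s0 := by
  have h1 : (0 : ℝ) < C.K := by exact_mod_cast C.K1
  have h2 : (0 : ℝ) < n := by exact_mod_cast C.n_pos
  unfold s0; positivity

theorem s0_mul : C.s0 * (5 * n) = C.K := by
  have h2 : (0 : ℝ) < n := by exact_mod_cast C.n_pos
  unfold s0; field_simp

theorem mu_le (v : Fin n) : C.mu v ≤ 5 * n :=
  (card_le_card (fun p hp => by
    simp only [II, mem_filter, mem_univ, true_and] at hp ⊢; exact hp.2)).trans (darts_le C.nc)

theorem mu_pos (v : Fin n) : 1 ≤ C.mu v :=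
  card_pos.2 ⟨(v, v), by simp [II, C.S.anc_refl]⟩

theorem mass_pos (x a : Fin n) : 1 ≤ C.mass x a := by
  unfold mass; split_ifs
  · exact C.mu_pos a
  · exact le_rfl

theorem sum_mass (x : Fin n) :
    ∑ b ∈ univ.filter (fun b => C.Item x b), C.mass x b + 1 ≤ C.mu x := by
  let F : Fin n → Finset (Fin n × Fin n) := fun b => if C.Child x b then C.II b else {(x, b)}
  have h1 : ∑ b ∈ univ.filter (fun b => C.Item x b), C.mass x b =
      ((univ.filter (fun b => C.Item x b)).biUnion F).card := by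
    rw [card_biUnion]
    · refine sum_congr rfl (fun b _ => ?_)
      simp only [F, mass]; split_ifs <;> simp [mu]
    · intro b _ b' _ hne
      simp only [Function.onFun, F]
      rw [disjoint_left]
      rintro ⟨y, c⟩ h1 h2
      split_ifs at h1 h2 with k1 k2 k2
      · simp only [II, mem_filter, mem_univ, true_and] at h1 h2
        exact hne (h1.1.eq_of_dep_eq h2.1 (by rw [k1.dep, k2.dep]))
      · simp only [II, mem_filter, mem_univ, true_and, mem_singleton, Prod.mk.injEq] at h1 h2
        have := h1.1.dep_le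
        rw [h2.1, k1.dep] at this; omega
      · simp only [II, mem_filter, mem_univ, true_and, mem_singleton, Prod.mk.injEq] at h1 h2
        have := h2.1.dep_le
        rw [h1.1, k2.dep] at this; omega
      · simp only [mem_singleton, Prod.mk.injEq] at h1 h2
        exact hne (h1.2.symm.trans h2.2)
  have h2 : insert (x, C.S.par x) ((univ.filter (fun b => C.Item x b)).biUnion F) ⊆ C.II x := by
    rintro ⟨y, c⟩ hp
    simp only [mem_insert, mem_biUnion, mem_filter, mem_univ, true_and, Prod.mk.injEq] at hp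
    simp only [II, mem_filter, mem_univ, true_and]
    rcases hp with ⟨e1, e2⟩ | ⟨b, hb, hp⟩
    · rw [e1, e2]
      refine ⟨C.S.anc_refl _, ?_⟩
      by_cases hx : x = C.S.r
      · left; rw [hx, C.S.par_r]
      · exact Or.inr (C.S.adj x hx)
    · simp only [F] at hp
      split_ifs at hp with k
      · simp only [II, mem_filter, mem_univ, true_and] at hp
        exact ⟨k.anc.trans hp.1, hp.2⟩
      · simp only [mem_singleton, Prod.mk.injEq] at hp
        rw [hp.1, hp.2]; exact ⟨C.S.anc_refl _, hb.1⟩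
  have h3 := card_le_card h2
  rw [card_insert_of_notMem] at h3
  · rw [h1]; exact h3
  · simp only [mem_biUnion, mem_filter, mem_univ, true_and, not_exists, not_and]
    intro b hb hp
    simp only [F] at hp
    split_ifs at hp with k
    · simp only [II, mem_filter, mem_univ, true_and] at hp
      have := hp.1.dep_le
      rw [k.dep] at this; omega
    · simp only [mem_singleton, Prod.mk.injEq, true_and] at hp
      exact hb.2 hp.symm

variable {C}

theorem pre_le {x a : Fin n} (ha : C.Item x a) {U : Finset (Fin n)} (h1 : a ∈ U)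
    (h2 : ∀ b, C.Item x b → C.key x b < C.key x a → b ∈ U) :
    C.pre x a + C.mass x a ≤ ∑ b ∈ U, C.mass x b := by
  unfold pre
  rw [add_comm, ← sum_insert (by simp)]
  refine sum_le_sum_of_subset (fun b hb => ?_)
  simp only [mem_insert, mem_filter, mem_univ, true_and] at hb
  rcases hb with e | e
  · exact e ▸ h1
  · exact h2 b e.1 e.2

theorem pre_mass {x a : Fin n} (ha : C.Item x a) : C.pre x a + C.mass x a + 1 ≤ C.mu x := by
  have h1 := pre_le ha (U := univ.filter (fun b => C.Item x b)) (by simpa using ha)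
    (fun b hb _ => by simpa using hb)
  have := C.sum_mass x
  omega

theorem two_le_mu {v : Fin n} (hv : v ≠ C.S.r) : 2 ≤ C.mu v := by
  have := pre_mass (item_ray hv)
  have := C.mass_pos v v
  omega

theorem sc_sp {v : Fin n} (h : C.S.Anc v C.sp.z) : C.sc v = C.s0 := by
  by_cases hv : v = C.S.r
  · rw [hv]; exact C.S.rc_r _ _
  · unfold sc; rw [C.S.rc_step _ _ hv, if_pos h]

theorem sc_off {v : Fin n} (h : ¬ C.S.Anc v C.sp.z) :
    C.sc v = C.sc (C.S.par v) * C.mu v / (C.mu v - 1) := by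
  unfold sc; rw [C.S.rc_step _ _ (RT.ne_r_of_not_anc h), if_neg h]

variable (C) in
theorem sc_ge (v : Fin n) : C.s0 ≤ C.sc v := by
  induction v using C.S.ind with
  | h0 => rw [sc_sp (C.S.anc_r _)]
  | hs v hv ih =>
    by_cases h : C.S.Anc v C.sp.z
    · rw [sc_sp h]
    · have h2 : (2 : ℝ) ≤ C.mu v := by exact_mod_cast two_le_mu hv
      have := C.s0_pos
      rw [sc_off h, le_div_iff₀ (by linarith)]
      nlinarith

variable (C) in
theorem sc_pos (v : Fin n) : 0 < C.sc v := C.s0_pos.trans_le (C.sc_ge v)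

variable (C) in
theorem Lam_ge (x a : Fin n) : C.s0 ≤ C.Lam x a := by
  have h1 : (1 : ℝ) ≤ C.mass x a := by exact_mod_cast C.mass_pos x a
  have := C.sc_ge x
  have := C.sc_pos x
  unfold Lam; nlinarith

variable (C) in
theorem Lam_pos (x a : Fin n) : 0 < C.Lam x a := C.s0_pos.trans_le (C.Lam_ge x a)

theorem Lam_par {v : Fin n} (hv : v ≠ C.S.r) :
    C.Lam (C.S.par v) v = C.sc (C.S.par v) * C.mu v := by
  unfold Lam mass; rw [if_pos (child_par hv)]

theorem inv_sc {v : Fin n} (h : ¬ C.S.Anc v C.sp.z) :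
    1 / C.sc v = 1 / C.sc (C.S.par v) - 1 / C.Lam (C.S.par v) v := by
  have hv := RT.ne_r_of_not_anc h
  have h2 : (2 : ℝ) ≤ C.mu v := by exact_mod_cast two_le_mu hv
  have h3 := C.sc_pos (C.S.par v)
  have h4 : (C.mu v : ℝ) - 1 ≠ 0 := by linarith
  rw [sc_off h, Lam_par hv]
  field_simp

theorem base_par {v : Fin n} (hv : v ≠ C.S.r) : C.base v = C.A (C.S.par v) v := by
  unfold A base; rw [C.S.rc_step _ _ hv]

theorem sib {x a b : Fin n} (ha : C.Item x a) (hk : C.key x a < C.key x b) :
    C.A x a + C.Lam x a ≤ C.A x b := by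
  have h1 : C.pre x a + C.mass x a ≤ C.pre x b :=
    pre_le ha (by simp only [mem_filter, mem_univ, true_and]; exact ⟨ha, hk⟩)
      (fun c hc h => by simp only [mem_filter, mem_univ, true_and]; exact ⟨hc, h.trans hk⟩)
  have h2 : (C.pre x a : ℝ) + C.mass x a ≤ C.pre x b := by exact_mod_cast h1
  have := C.sc_pos x
  unfold A Lam; nlinarith

theorem in_base {x a : Fin n} (ha : C.Item x a) :
    C.base x ≤ C.A x a ∧ C.A x a + C.Lam x a ≤ C.base x + C.sc x * (C.mu x - 1) := by
  have h2 : (C.pre x a : ℝ) + C.mass x a + 1 ≤ C.mu x := by exact_mod_cast pre_mass ha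
  have h3 : (0 : ℝ) ≤ C.pre x a := Nat.cast_nonneg _
  have := C.sc_pos x
  unfold A Lam
  constructor <;> nlinarith

theorem in_par {x a : Fin n} (hx : x ≠ C.S.r) (ha : C.Item x a) :
    C.A (C.S.par x) x ≤ C.A x a ∧
      C.A x a + C.Lam x a ≤ C.A (C.S.par x) x + C.Lam (C.S.par x) x := by
  obtain ⟨h1, h2⟩ := in_base ha
  rw [base_par hx] at h1 h2
  refine ⟨h1, h2.trans ?_⟩
  rw [Lam_par hx]
  by_cases h : C.S.Anc x C.sp.z
  · rw [sc_sp h, sc_sp ((C.S.anc_par x).trans h)]
    have := C.s0_pos; nlinarith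
  · have h2 : (2 : ℝ) ≤ C.mu x := by exact_mod_cast two_le_mu hx
    have h4 : (C.mu x : ℝ) - 1 ≠ 0 := by linarith
    rw [sc_off h, div_mul_cancel₀ _ h4]

theorem nest {w g x a : Fin n} (ha : C.Item x a) (h : C.Und w g x a) :
    C.A w g ≤ C.A x a ∧ C.A x a + C.Lam x a ≤ C.A w g + C.Lam w g := by
  rcases h with ⟨e1, e2⟩ | ⟨hc, h⟩
  · rw [e1, e2]; exact ⟨le_rfl, le_rfl⟩
  · induction x using C.S.ind generalizing a with
    | h0 => exact absurd h.eq_r hc.ne_r
    | hs x hx ih =>
      obtain ⟨h1, h2⟩ := in_par hx ha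
      rcases h.cases with e | e
      · rw [← hc.1, e]; exact ⟨h1, h2⟩
      · obtain ⟨h3, h4⟩ := ih (child_par hx).item e.2
        exact ⟨h3.trans h1, h2.trans h4⟩

theorem range {x a : Fin n} (ha : C.Item x a) : 0 ≤ C.A x a ∧ C.A x a + C.Lam x a ≤ C.K := by
  induction x using C.S.ind generalizing a with
  | h0 =>
    obtain ⟨h1, h2⟩ := in_base ha
    have e : C.base C.S.r = 0 := C.S.rc_r _ _
    rw [e] at h1 h2
    rw [sc_sp (C.S.anc_r _)] at h2
    have h3 : (C.mu C.S.r : ℝ) ≤ 5 * n := by exact_mod_cast C.mu_le _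
    have := C.s0_mul
    have := C.s0_pos
    exact ⟨h1, by nlinarith⟩
  | hs x hx ih =>
    obtain ⟨h1, h2⟩ := in_par hx ha
    obtain ⟨h3, h4⟩ := ih (child_par hx).item
    exact ⟨h3.trans h1, h2.trans h4⟩

theorem top_self (x a : Fin n) : C.top x x a = a := by simp [top]

theorem top_ne {w x : Fin n} (a : Fin n) (h : x ≠ w) : C.top w x a = C.S.ch w x := by
  simp [top, h]

theorem top_item {w x a : Fin n} (hw : C.S.Anc w x) (ha : C.Item x a) :
    C.Item w (C.top w x a) := by
  by_cases e : x = w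
  · rw [← e, top_self]; exact ha
  · rw [top_ne a e]; exact (child_ch hw (Ne.symm e)).item

theorem top_und {w x : Fin n} (a : Fin n) (hw : C.S.Anc w x) : C.Und w (C.top w x a) x a := by
  by_cases e : x = w
  · rw [← e, top_self]; exact und_refl _ _
  · rw [top_ne a e]; exact Or.inr ⟨child_ch hw (Ne.symm e), C.S.ch_anc w x⟩

theorem key_ne {w g g' : Fin n} (h : g ≠ g') : C.key w g ≠ C.key w g' := fun e => h (cy_inj e)

theorem sib_und {w g g' x a y b : Fin n} (hg : C.Item w g) (hk : C.key w g < C.key w g')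
    (ha : C.Item x a) (hb : C.Item y b) (h1 : C.Und w g x a) (h2 : C.Und w g' y b) :
    C.A x a + C.Lam x a ≤ C.A y b :=
  (nest ha h1).2.trans ((sib hg hk).trans (nest hb h2).1)

theorem lt_key {w x a y b : Fin n} (hx : C.S.Anc w x) (hy : C.S.Anc w y) (ha : C.Item x a)
    (hb : C.Item y b) (hne : C.top w x a ≠ C.top w y b) (hlt : C.A x a < C.A y b) :
    C.key w (C.top w x a) < C.key w (C.top w y b) := by
  rcases lt_or_gt_of_ne (key_ne (C := C) (w := w) hne) with h | h
  · exact h
  · have := sib_und (top_item hy hb) h hb ha (top_und b hy) (top_und a hx)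
    have := C.Lam_pos y b
    linarith

theorem top_eq {x a y b : Fin n}
    (h : C.top (C.S.lca x y) x a = C.top (C.S.lca x y) y b) :
    (x = y ∧ a = b) ∨ (C.Child x a ∧ C.S.Anc a y) ∨ (C.Child y b ∧ C.S.Anc b x) := by
  have hx := C.S.lca_l x y
  have hy := C.S.lca_r x y
  generalize hw : C.S.lca x y = w at *
  by_cases e1 : x = w <;> by_cases e2 : y = w
  · left; rw [e1, e2] at h; rw [top_self, top_self] at h; exact ⟨e1.trans e2.symm, h⟩
  · right; left
    rw [top_ne b e2, ← e1, top_self] at h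
    rw [h]; exact ⟨child_ch (e1 ▸ hy) (fun e => e2 (e ▸ e1)), C.S.ch_anc _ _⟩
  · right; right
    rw [top_ne a e1, ← e2, top_self] at h
    rw [← h]; exact ⟨child_ch (e2 ▸ hx) (fun e => e1 (e ▸ e2)), C.S.ch_anc _ _⟩
  · exfalso
    rw [top_ne a e1, top_ne b e2] at h
    have := (RT.anc_lca (C.S.ch_anc w x) (h ▸ C.S.ch_anc w y)).dep_le
    rw [hw, RT.dep_ch hx (Ne.symm e1)] at this; omega

/-- two items are nested or under two different siblings -/
theorem tri {x a y b : Fin n} (ha : C.Item x a) (hb : C.Item y b) :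
    (x = y ∧ a = b) ∨ (C.Child x a ∧ C.S.Anc a y) ∨ (C.Child y b ∧ C.S.Anc b x) ∨
    ∃ w g g', C.Item w g ∧ C.Item w g' ∧ C.Und w g x a ∧ C.Und w g' y b ∧
      (C.key w g < C.key w g' ∨ C.key w g' < C.key w g) := by
  by_cases h : C.top (C.S.lca x y) x a = C.top (C.S.lca x y) y b
  · rcases top_eq h with h | h | h
    · exact Or.inl h
    · exact Or.inr (Or.inl h)
    · exact Or.inr (Or.inr (Or.inl h))
  · exact Or.inr (Or.inr (Or.inr ⟨_, _, _, top_item (C.S.lca_l x y) ha,
      top_item (C.S.lca_r x y) hb, top_und a (C.S.lca_l x y), top_und b (C.S.lca_r x y),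
      lt_or_gt_of_ne (key_ne h)⟩))

theorem disj {x a y b : Fin n} (ha : C.Item x a) (hb : C.Item y b) (h0 : ¬ (x = y ∧ a = b))
    (h1 : ¬ (C.Child x a ∧ C.S.Anc a y)) (h2 : ¬ (C.Child y b ∧ C.S.Anc b x)) :
    C.A x a + C.Lam x a ≤ C.A y b ∨ C.A y b + C.Lam y b ≤ C.A x a := by
  rcases tri ha hb with h | h | h | ⟨w, g, g', k1, k2, k3, k4, h | h⟩
  · exact absurd h h0
  · exact absurd h h1
  · exact absurd h h2
  · exact Or.inl (sib_und k1 h ha hb k3 k4)
  · exact Or.inr (sib_und k2 h hb ha k4 k3)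

theorem ray_lt {y y' : Fin n} (hy : y ≠ C.S.r) (hy' : y' ≠ C.S.r)
    (h : cy C.S.r y < cy C.S.r y') : C.A y y + C.Lam y y ≤ C.A y' y' := by
  have hne : y ≠ y' := fun e => by rw [e] at h; omega
  have h1 := C.S.lca_l y y'
  have h2 := C.S.lca_r y y'
  have ht : C.top (C.S.lca y y') y y ≠ C.top (C.S.lca y y') y' y' := fun e => by
    rcases top_eq e with e | e | e
    · exact hne e.1
    · exact not_child_ray _ e.1
    · exact not_child_ray _ e.1
  generalize hw : C.S.lca y y' = w at *
  refine sib_und (top_item h1 (item_ray hy)) ?_ (item_ray hy) (item_ray hy') (top_und y h1)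
    (top_und y' h2)
  have nch : ∀ u u', C.S.Anc w u → u ≠ w → C.S.Anc (C.S.ch w u) u' →
      C.S.dep w < C.S.dep (C.S.lca u u') := fun u u' k1 k2 k3 => by
    have := (RT.anc_lca (C.S.ch_anc w u) k3).dep_le
    rw [RT.dep_ch k1 (Ne.symm k2)] at this; omega
  have t1 : C.S.Anc w (C.top w y y) ∧ (cy C.S.r (C.top w y y) < cy C.S.r y') := by
    by_cases e : y = w
    · rw [← e, top_self]; exact ⟨C.S.anc_refl _, h⟩
    · rw [top_ne y e]
      refine ⟨RT.anc_ch h1 (Ne.symm e), ?_⟩
      exact (RT.sub_side C.nc (C.S.anc_refl _) (C.S.ch_anc w y)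
        (fun hh => by have := nch y y' h1 e hh; rw [hw] at this; omega)).2 h
  unfold key
  by_cases e : y' = w
  · rw [← e, top_self, e]
    rw [RT.key_mono C.nc t1.1 (C.S.anc_refl w)]
    exact e ▸ t1.2
  · rw [top_ne y' e] at ht ⊢
    rw [RT.key_mono C.nc t1.1 (RT.anc_ch h2 (Ne.symm e))]
    have hn : ¬ C.S.Anc (C.S.ch w y') (C.top w y y) := fun hh => by
      by_cases e' : y = w
      · rw [← e', top_self] at hh
        have := hh.dep_le
        rw [e', RT.dep_ch h2 (Ne.symm e)] at this; omega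
      · rw [top_ne y e'] at hh ht
        exact ht (hh.eq_of_dep (by rw [RT.dep_ch h2 (Ne.symm e), RT.dep_ch h1 (Ne.symm e')])).symm
    have := RT.sub_side C.nc (C.S.anc_refl _) (C.S.ch_anc w y') hn
    have e2 : cy C.S.r (C.top w y y) ≠ cy C.S.r (C.S.ch w y') := fun e => ht (cy_inj e)
    have := t1.2
    omega

variable (C) in
theorem Lam_z : C.Lam C.sp.z C.sp.z = C.s0 := by
  unfold Lam mass; rw [if_neg (not_child_ray _), sc_sp (C.S.anc_refl _)]; simp

theorem side_tri {x a : Fin n} (ha : C.Item x a) : C.Right x a ∨ C.Left x a ∨ C.Spine x a := by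
  by_cases h : C.Spine x a
  · exact Or.inr (Or.inr h)
  · unfold Spine at h
    push Not at h
    rcases disj ha (item_ray C.sp.z_ne) (fun k => h.2 k.1 k.2) (fun k => h.1 k.1 k.2)
      (fun k => not_child_ray _ k.1) with k | k
    · exact Or.inl k
    · rw [C.Lam_z] at k; exact Or.inr (Or.inl k)

theorem Spine.nest {x a : Fin n} (h : C.Spine x a) : C.A x a ≤ C.A C.sp.z C.sp.z ∧
    C.A C.sp.z C.sp.z + C.s0 ≤ C.A x a + C.Lam x a := by
  rw [← C.Lam_z]
  exact Ctx.nest (item_ray C.sp.z_ne) (h.symm.imp (fun k => ⟨k.1.symm, k.2.symm⟩) id)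

theorem Spine.not_right {x a : Fin n} (h : C.Spine x a) : ¬ C.Right x a := fun k => by
  have := h.nest.2; have := C.s0_pos; unfold Right at k; linarith

theorem Spine.not_left {x a : Fin n} (h : C.Spine x a) : ¬ C.Left x a := fun k => by
  have := h.nest.1; have := C.s0_pos; unfold Left at k; linarith

theorem Right.not_left {x a : Fin n} (h : C.Right x a) : ¬ C.Left x a := fun k => by
  have := C.Lam_pos x a; have := C.s0_pos; unfold Left at k; unfold Right at h; linarith

theorem Right.und {w g x a : Fin n} (h : C.Right w g) (ha : C.Item x a) (hu : C.Und w g x a) :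
    C.Right x a := (nest ha hu).2.trans h

theorem Left.und {w g x a : Fin n} (h : C.Left w g) (ha : C.Item x a) (hu : C.Und w g x a) :
    C.Left x a := h.trans (nest ha hu).1

theorem off_RL {v : Fin n} (h : ¬ C.S.Anc v C.sp.z) :
    C.Right (C.S.par v) v ∨ C.Left (C.S.par v) v := by
  rcases side_tri (child_par (RT.ne_r_of_not_anc h)).item with k | k | k | k
  · exact Or.inl k
  · exact Or.inr k
  · exact absurd k.2 h
  · exact absurd (k.2 ▸ C.S.anc_refl _) h

theorem und_par {v : Fin n} (hv : v ≠ C.S.r) (a : Fin n) : C.Und (C.S.par v) v v a :=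
  Or.inr ⟨child_par hv, C.S.anc_refl v⟩

theorem side_R {v : Fin n} (h : ¬ C.S.Anc v C.sp.z) (hc : cy C.S.r v < cy C.S.r C.sp.z) :
    C.Right (C.S.par v) v := by
  have hv := RT.ne_r_of_not_anc h
  refine (off_RL h).resolve_right (fun k => ?_)
  exact Right.not_left (ray_lt hv C.sp.z_ne hc) (k.und (item_ray hv) (und_par hv v))

theorem side_L {v : Fin n} (h : ¬ C.S.Anc v C.sp.z) (hc : cy C.S.r C.sp.z < cy C.S.r v) :
    C.Left (C.S.par v) v := by
  have hv := RT.ne_r_of_not_anc h
  refine (off_RL h).resolve_left (fun k => ?_)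
  have := ray_lt C.sp.z_ne hv hc
  rw [C.Lam_z] at this
  exact Right.not_left (k.und (item_ray hv) (und_par hv v)) this

end Ctx
end
end Pool.Agent.Work.MP_37ce0f_lc.W
end

-- merged part: Pool.Agent.Work.MP_37ce0f_lc.W.Poly
section
namespace Pool.Agent.Work.MP_37ce0f_lc.W
open Finset Classical
noncomputable section
variable {n : ℕ} {G : SimpleGraph (Fin n)}

namespace Ctx
variable (C : Ctx G)

def Chord (x a : Fin n) : Prop := G.Adj x a ∧ a ≠ C.S.par x ∧ x ≠ C.S.par a
def beta (x a : Fin n) : ℕ := if C.A x a < C.A a x then cy x a else cy a x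

variable {C}

theorem Chord.symm {x a : Fin n} (h : C.Chord x a) : C.Chord a x := ⟨h.1.symm, h.2.2, h.2.1⟩

theorem Chord.item {x a : Fin n} (h : C.Chord x a) : C.Item x a := ⟨Or.inr h.1, h.2.1⟩

theorem Chord.not_child {x a : Fin n} (h : C.Chord x a) : ¬ C.Child x a :=
  fun k => h.2.2 k.1.symm

theorem chord_of {x a : Fin n} (ha : C.Item x a) (hne : a ≠ x) (hc : ¬ C.Child x a) :
    C.Chord x a :=
  ⟨ha.1.resolve_left hne, ha.2, fun e => hc ⟨e.symm, hne⟩⟩

/-- two different non-child items have disjoint intervals -/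
theorem leaf_disj {x a y b : Fin n} (ha : C.Item x a) (hb : C.Item y b) (h1 : ¬ C.Child x a)
    (h2 : ¬ C.Child y b) (h0 : ¬ (x = y ∧ a = b)) :
    C.A x a + C.Lam x a ≤ C.A y b ∨ C.A y b + C.Lam y b ≤ C.A x a :=
  disj ha hb h0 (fun k => h1 k.1) (fun k => h2 k.1)

theorem Chord.A_ne {x a : Fin n} (h : C.Chord x a) : C.A x a ≠ C.A a x := by
  have := C.Lam_pos x a
  have := C.Lam_pos a x
  rcases leaf_disj h.item h.symm.item h.not_child h.symm.not_child (fun k => h.1.ne k.1)
    with k | k <;> intro e <;> linarith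

theorem Chord.beta_symm {x a : Fin n} (h : C.Chord x a) : C.beta x a = C.beta a x := by
  unfold beta
  rcases lt_or_gt_of_ne h.A_ne with k | k
  · rw [if_pos k, if_neg (not_lt.2 k.le)]
  · rw [if_neg (not_lt.2 k.le), if_pos k]

theorem Chord.beta_pos {x a : Fin n} (h : C.Chord x a) : 0 < C.beta x a := by
  unfold beta; split_ifs
  · exact cy_pos h.1.ne.symm
  · exact cy_pos h.1.ne

theorem beta_lt (x a : Fin n) : C.beta x a < n := by
  unfold beta; split_ifs <;> exact cy_lt _ _

/-- cyclic order of three vertices, read from the base point `P` -/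
def Cyc (P a b c : Fin n) : Prop :=
  (cy P a < cy P b ∧ cy P b < cy P c) ∨ (cy P b < cy P c ∧ cy P c < cy P a) ∨
    (cy P c < cy P a ∧ cy P a < cy P b)

theorem Cyc.base {P a b c : Fin n} (Q : Fin n) (h : Cyc P a b c) : Cyc Q a b c := by
  have h1 := cy_lt P a
  have h2 := cy_lt P b
  have h3 := cy_lt P c
  have h4 := cy_lt P Q
  unfold Cyc at h ⊢
  rw [cy_rel P Q a, cy_rel P Q b, cy_rel P Q c]
  split_ifs <;> omega

/-- the tree path from `v` up to the last common ancestor and down to `u` -/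
structure PD (C : Ctx G) (u v : Fin n) where
  y : ℕ → Fin n
  p : ℕ
  N : ℕ
  pN : p ≤ N
  y0 : y 0 = v
  yN : y N = u
  yp : y p = C.S.lca u v
  upc : ∀ t, t < p → C.Child (y (t + 1)) (y t)
  dnc : ∀ t, p ≤ t → t < N → C.Child (y t) (y (t + 1))
  av : ∀ t, t ≤ p → C.S.Anc (y t) v ∧ C.S.dep (y t) + t = C.S.dep v
  au : ∀ t, p ≤ t → t ≤ N → C.S.Anc (y t) u ∧ C.S.dep (y t) + N = C.S.dep u + t

theorem exists_pd (C : Ctx G) (u v : Fin n) : Nonempty (PD C u v) := by
  have hu := C.S.lca_l u v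
  have hv := C.S.lca_r u v
  generalize hw : C.S.lca u v = w at hu hv
  have du := hu.dep_le
  have dv := hv.dep_le
  obtain ⟨p, hp⟩ := Nat.exists_eq_add_of_le dv
  obtain ⟨q, hq⟩ := Nat.exists_eq_add_of_le du
  let y : ℕ → Fin n := fun t =>
    if t ≤ p then C.S.up v (C.S.dep v - t) else C.S.up u (C.S.dep w + (t - p))
  have e1 : ∀ t, t ≤ p → y t = C.S.up v (C.S.dep v - t) := fun t ht => if_pos ht
  have ep : y p = w := by
    rw [e1 p le_rfl, show C.S.dep v - p = C.S.dep w by omega, hv.eq_up]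
  have e2 : ∀ t, p ≤ t → y t = C.S.up u (C.S.dep w + (t - p)) := fun t ht => by
    rcases ht.eq_or_lt with e | e
    · rw [← e, ep, Nat.sub_self, Nat.add_zero, hu.eq_up]
    · exact if_neg (by omega)
  have av : ∀ t, t ≤ p → C.S.Anc (y t) v ∧ C.S.dep (y t) + t = C.S.dep v := fun t ht => by
    rw [e1 t ht, C.S.dep_up (by omega)]
    exact ⟨C.S.up_anc _ _, by omega⟩
  have au : ∀ t, p ≤ t → t ≤ p + q →
      C.S.Anc (y t) u ∧ C.S.dep (y t) + (p + q) = C.S.dep u + t := fun t ht ht' => by
    rw [e2 t ht, C.S.dep_up (by omega)]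
    exact ⟨C.S.up_anc _ _, by omega⟩
  refine ⟨⟨y, p, p + q, by omega, ?_, ?_, ep.trans hw.symm, ?_, ?_, av, au⟩⟩
  · rw [e1 0 (by omega), Nat.sub_zero, C.S.up_dep]
  · rw [e2 _ (by omega), show C.S.dep w + (p + q - p) = C.S.dep u by omega, C.S.up_dep]
  · intro t ht
    refine ⟨?_, fun e => ?_⟩
    · rw [e1 t ht.le, e1 (t + 1) ht, show C.S.dep v - t = C.S.dep v - (t + 1) + 1 by omega,
        C.S.par_up (by omega)]
    · have k1 := (av t ht.le).2
      have k2 := (av (t + 1) ht).2
      rw [e] at k1; omega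
  · intro t ht ht'
    refine ⟨?_, fun e => ?_⟩
    · rw [e2 t ht, e2 (t + 1) (by omega),
        show C.S.dep w + (t + 1 - p) = C.S.dep w + (t - p) + 1 by omega, C.S.par_up (by omega)]
    · have k1 := (au t ht ht'.le).2
      have k2 := (au (t + 1) (by omega) ht').2
      rw [e] at k2; omega

namespace PD
variable {u v : Fin n} (P : PD C u v)

theorem notu {t : ℕ} (ht : t < P.p) : ¬ C.S.Anc (P.y t) u := fun h => by
  have k1 := P.av t ht.le
  have k2 := (P.av P.p le_rfl).2
  have k3 := (RT.anc_lca h k1.1).dep_le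
  rw [← P.yp] at k3; omega

theorem notv {t : ℕ} (ht : P.p < t) (hN : t ≤ P.N) : ¬ C.S.Anc (P.y t) v := fun h => by
  have k1 := P.au t ht.le hN
  have k2 := (P.au P.p le_rfl P.pN).2
  have k3 := (RT.anc_lca k1.1 h).dep_le
  rw [← P.yp] at k3; omega

theorem ne_of_lt {s t : ℕ} (h : s < t) (ht : t ≤ P.N) : P.y s ≠ P.y t := fun e => by
  rcases le_or_gt t P.p with k | k
  · have k1 := (P.av s (by omega)).2
    have k2 := (P.av t k).2
    rw [e] at k1; omega
  · rcases lt_or_ge s P.p with k' | k'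
    · exact P.notu k' (e ▸ (P.au t k.le ht).1)
    · have k1 := (P.au s k' (by omega)).2
      have k2 := (P.au t k.le ht).2
      rw [e] at k1; omega

theorem surj {m : Fin n} (hw : C.S.Anc (C.S.lca u v) m) (h : C.S.Anc m u ∨ C.S.Anc m v) :
    ∃ t, t ≤ P.N ∧ P.y t = m := by
  have k0 := hw.dep_le
  rw [← P.yp] at k0
  have k1 := (P.av P.p le_rfl).2
  have k2 := (P.au P.p le_rfl P.pN).2
  have k3 := P.pN
  rcases h with h | h
  · have k4 := h.dep_le
    have k5 := P.au (P.N - (C.S.dep u - C.S.dep m)) (by omega) (by omega)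
    exact ⟨_, by omega, k5.1.eq_of_dep_eq h (by omega)⟩
  · have k4 := h.dep_le
    have k5 := P.av (C.S.dep v - C.S.dep m) (by omega)
    exact ⟨_, by omega, k5.1.eq_of_dep_eq h (by omega)⟩

theorem adj {t : ℕ} (ht : t < P.N) : G.Adj (P.y t) (P.y (t + 1)) := by
  rcases lt_or_ge t P.p with k | k
  · exact (P.upc t k).adj.symm
  · exact (P.dnc t k ht).adj

theorem wt_le (h : G.Adj u v) {t : ℕ} (ht : t < P.N) :
    wt u v ≤ wt (P.y t) (P.y (t + 1)) := by
  rcases lt_or_ge t P.p with k | k
  · have := C.hP v u _ h.symm (P.av t k.le).1 (P.notu k)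
    rwa [(P.upc t k).1, wt_comm v u] at this
  · have := C.hP u v _ h (P.au (t + 1) (by omega) ht).1 (P.notv (by omega) ht)
    rwa [(P.dnc t k ht).1, wt_comm (P.y (t + 1))] at this

theorem two_le (h : C.Chord u v) : 2 ≤ P.N := by
  by_contra hN
  have k0 := P.y0
  have k1 := P.yN
  rcases (by omega : P.N = 0 ∨ P.N = 1) with e | e
  · rw [e] at k1; exact h.1.ne (k1.symm.trans k0)
  · rw [e] at k1
    rcases Nat.eq_zero_or_pos P.p with e' | e'
    · have := (P.dnc 0 (by omega) (by omega)).1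
      rw [Nat.zero_add, k0, k1] at this
      exact h.2.1 this.symm
    · have := (P.upc 0 e').1
      rw [Nat.zero_add, k0, k1] at this
      exact h.2.2 this.symm

theorem ch_u {t : ℕ} (h1 : P.p ≤ t) (h2 : t < P.N) : C.S.ch (P.y t) u = P.y (t + 1) :=
  RT.ch_unique (P.au (t + 1) (by omega) h2).1 (P.dnc t h1 h2).1 (P.dnc t h1 h2).2

theorem ch_v {t : ℕ} (h1 : t < P.p) : C.S.ch (P.y (t + 1)) v = P.y t :=
  RT.ch_unique (P.av t h1.le).1 (P.upc t h1).1 (P.upc t h1).2

theorem ne_u {t : ℕ} (h : t < P.N) : P.y t ≠ u := fun e =>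
  P.ne_of_lt h le_rfl (e.trans P.yN.symm)

theorem ne_v {t : ℕ} (h0 : 0 < t) (h : t ≤ P.N) : P.y t ≠ v := fun e =>
  P.ne_of_lt h0 h (P.y0.trans e.symm)

/-- one inner vertex of the path lies on the arc from `v` to `u` -/
theorem anchor (h : C.Chord u v) (hA : C.A u v < C.A v u) :
    ∃ t, 0 < t ∧ t < P.N ∧ Cyc C.S.r v (P.y t) u := by
  have hN := P.two_le h
  have hu := C.S.lca_l u v
  have hv := C.S.lca_r u v
  rw [← P.yp] at hu hv
  have huv : cy C.S.r u ≠ cy C.S.r v := fun e => h.1.ne (cy_inj e)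
  rcases P.pN.eq_or_lt with e | e
  · -- the top vertex is `u`
    obtain ⟨t, ht⟩ : ∃ t, P.N = t + 1 := ⟨P.N - 1, by omega⟩
    have eu : P.y (t + 1) = u := ht ▸ P.yN
    have ec : C.S.ch u v = P.y t := by
      have := P.ch_v (t := t) (by omega); rwa [eu] at this
    have hv' : C.S.Anc u v := by rw [e, P.yN] at hv; exact hv
    have hc := P.upc t (by omega)
    rw [eu] at hc
    have k1 := lt_key (C.S.anc_refl u) hv' h.item h.symm.item
      (by rw [top_self, top_ne u h.1.ne.symm, ec]; exact (P.ne_v (by omega) (by omega)).symm) hA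
    rw [top_self, top_ne u h.1.ne.symm, ec] at k1
    unfold key at k1
    rw [RT.key_mono C.nc hv' hc.anc] at k1
    have k2 := RT.sub_side C.nc (P.av t (by omega)).1 (C.S.anc_refl _) (P.notu (t := t) (by omega))
    have k3 : cy C.S.r (P.y t) ≠ cy C.S.r u := fun e' => P.ne_u (by omega) (cy_inj e')
    refine ⟨t, by omega, by omega, ?_⟩
    unfold Cyc; omega
  rcases Nat.eq_zero_or_pos P.p with e0 | e0
  · -- the top vertex is `v`
    have ec : C.S.ch v u = P.y 1 := by
      have := P.ch_u (t := 0) (by omega) (by omega); rwa [P.y0] at this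
    have hu' : C.S.Anc v u := by rw [e0, P.y0] at hu; exact hu
    have hc := P.dnc 0 (by omega) (by omega)
    rw [P.y0, Nat.zero_add] at hc
    have k1 := lt_key hu' (C.S.anc_refl v) h.item h.symm.item
      (by rw [top_self, top_ne v h.1.ne, ec]; exact P.ne_u (by omega)) hA
    rw [top_self, top_ne v h.1.ne, ec] at k1
    unfold key at k1
    rw [RT.key_mono C.nc hc.anc hu'] at k1
    have k2 := RT.sub_side C.nc (P.au 1 (by omega) (by omega)).1 (C.S.anc_refl _)
      (P.notv (t := 1) (by omega) (by omega))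
    have k3 : cy C.S.r (P.y 1) ≠ cy C.S.r v := fun e' => P.ne_v (by omega) (by omega) (cy_inj e')
    refine ⟨1, by omega, by omega, ?_⟩
    unfold Cyc; omega
  · -- the top vertex is an inner vertex
    obtain ⟨t, ht⟩ : ∃ t, P.p = t + 1 := ⟨P.p - 1, by omega⟩
    have nu : u ≠ P.y P.p := (P.ne_u e).symm
    have nv : v ≠ P.y P.p := (P.ne_v e0 e.le).symm
    have c1 : C.S.ch (P.y P.p) u = P.y (P.p + 1) := P.ch_u le_rfl e
    have c2 : C.S.ch (P.y P.p) v = P.y t := by rw [ht]; exact P.ch_v (by omega)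
    have hc1 := P.dnc P.p le_rfl e
    have hc2 := P.upc t (by omega)
    rw [← ht] at hc2
    have k1 := lt_key hu hv h.item h.symm.item
      (by rw [top_ne v nu, top_ne u nv, c1, c2]; exact (P.ne_of_lt (by omega) e).symm) hA
    rw [top_ne v nu, top_ne u nv, c1, c2] at k1
    unfold key at k1
    rw [RT.key_mono C.nc hc1.anc hc2.anc] at k1
    have a1 := (P.au (P.p + 1) (by omega) e).1
    have a2 := (P.av t (by omega)).1
    have k2 := RT.sub_side C.nc (C.S.anc_refl _) a1
      (m := P.y t) (fun k => P.notv (by omega) e (k.trans a2))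
    have k3 := RT.sub_side C.nc (C.S.anc_refl _) a2 (P.notu (t := t) (by omega))
    have k4 : cy C.S.r u < cy C.S.r v := by omega
    have k5 : ∀ m, C.S.Anc m (P.y P.p) →
        (cy C.S.r u < cy C.S.r m ↔ cy C.S.r v < cy C.S.r m) := by
      intro m
      induction m using C.S.ind with
      | h0 => intro _; rw [cy_self]; omega
      | hs m hm ih =>
        intro ha
        have hb := (C.S.anc_par m).trans ha
        have d1 := hu.dep_lt nu.symm
        have d2 := hv.dep_lt nv.symm
        have f : ∀ b, C.S.Anc b (P.y P.p) → b ≠ u ∧ b ≠ v := fun b hb =>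
          ⟨fun e' => by have := hb.dep_le; rw [e'] at this; omega,
            fun e' => by have := hb.dep_le; rw [e'] at this; omega⟩
        exact (nc_side C.nc C.S.r h.1 (C.S.adj m hm) (f _ ha).1 (f _ ha).2 (f _ hb).1
          (f _ hb).2).2 (ih hb)
    have k6 := k5 _ (C.S.anc_refl _)
    have k7 : cy C.S.r u ≠ cy C.S.r (P.y P.p) := fun e' => nu (cy_inj e')
    refine ⟨P.p, e0, e, ?_⟩
    unfold Cyc; omega

/-- (S): all inner vertices of the path lie on the arc from `v` to `u` -/
theorem side (h : C.Chord u v) (hA : C.A u v < C.A v u) {t : ℕ} (h0 : 0 < t) (hN : t < P.N) :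
    cy v (P.y t) < cy v u := by
  have main : ∀ t, 0 < t → t < P.N → (cy v u < cy v (P.y t) ↔ cy v u < cy v (P.y 1)) := by
    intro t
    induction t with
    | zero => intro k; omega
    | succ t ih =>
      intro _ k
      rcases Nat.eq_zero_or_pos t with e | e
      · rw [e]
      · rw [← ih e (by omega)]
        have n1 := P.ne_v e (by omega : t ≤ P.N)
        have n2 := P.ne_v (t := t + 1) (by omega) k.le
        have := nc_side C.nc v h.1.symm (P.adj (by omega : t < P.N)) n1 (P.ne_u (by omega)) n2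
          (P.ne_u k)
        have p1 := cy_pos n1
        have p2 := cy_pos n2
        rw [cy_self] at this
        omega
  obtain ⟨s, s0, sN, hs⟩ := P.anchor h hA
  have k1 := hs.base v
  unfold Cyc at k1
  rw [cy_self] at k1
  have k2 := main s s0 sN
  have k3 := main t h0 hN
  have k4 : cy v (P.y t) ≠ cy v u := fun e => P.ne_u hN (cy_inj e)
  omega

/-- (M): the path runs monotonically along the arc from `v` to `u` -/
theorem mono (h : C.Chord u v) (hA : C.A u v < C.A v u) {s t : ℕ} (hst : s < t) (ht : t ≤ P.N) :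
    cy v (P.y s) < cy v (P.y t) := by
  have step : ∀ t, t < P.N → ∀ s, s ≤ t → cy v (P.y s) < cy v (P.y (t + 1)) := by
    intro t
    induction t using Nat.strong_induction_on with
    | _ t ih =>
      intro ht
      have le : ∀ s s', s ≤ s' → s' ≤ t → cy v (P.y s) ≤ cy v (P.y s') := by
        intro s s' k1 k2
        rcases k1.eq_or_lt with e | e
        · rw [e]
        · obtain ⟨j, rfl⟩ : ∃ j, s' = j + 1 := ⟨s' - 1, by omega⟩
          exact (ih j (by omega) (by omega) s (by omega)).le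
      suffices hh : cy v (P.y t) < cy v (P.y (t + 1)) from
        fun s hs => (le s t hs le_rfl).trans_lt hh
      by_contra hcon
      have p1 := cy_pos (P.ne_v (t := t + 1) (by omega) ht)
      have ex : ∃ j, cy v (P.y (t + 1)) ≤ cy v (P.y j) := ⟨t, by omega⟩
      have j1 := Nat.find_spec ex
      have j2 : Nat.find ex ≤ t := Nat.find_min' ex (by omega)
      have j3 : Nat.find ex ≠ 0 := fun e => by
        rw [e, P.y0, cy_self] at j1; omega
      obtain ⟨j, hj⟩ : ∃ j, Nat.find ex = j + 1 := ⟨Nat.find ex - 1, by omega⟩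
      have j4 := Nat.find_min ex (m := j) (by omega)
      rw [hj] at j1 j2
      have j5 : cy v (P.y (j + 1)) ≠ cy v (P.y (t + 1)) :=
        fun e => P.ne_of_lt (by omega) ht (cy_inj e)
      have rest : ∀ i, t + 1 ≤ i → i ≤ P.N →
          cy v (P.y j) < cy v (P.y i) ∧ cy v (P.y i) < cy v (P.y (j + 1)) := by
        intro i hi
        induction i, hi using Nat.le_induction with
        | base => intro _; omega
        | succ i hi ih' =>
          intro k
          have k1 := ih' (by omega)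
          have n1 := (P.ne_of_lt (by omega : j < i) (by omega)).symm
          have n2 := (P.ne_of_lt (by omega : j + 1 < i) (by omega)).symm
          have n3 := (P.ne_of_lt (by omega : j < i + 1) k).symm
          have n4 := (P.ne_of_lt (by omega : j + 1 < i + 1) k).symm
          have k2 := nc_side C.nc v (P.adj (by omega : j < P.N)) (P.adj (by omega : i < P.N))
            n1 n2 n3 n4
          have k3 : cy v (P.y (i + 1)) ≠ cy v (P.y (j + 1)) := fun e => n4 (cy_inj e)
          omega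
      have k1 := (rest P.N ht le_rfl).2
      have k2 := P.side h hA (t := j + 1) (by omega) (by omega)
      rw [P.yN] at k1
      omega
  obtain ⟨j, rfl⟩ : ∃ j, t = j + 1 := ⟨t - 1, by omega⟩
  exact step j ht s (by omega)

theorem mono_le (h : C.Chord u v) (hA : C.A u v < C.A v u) {s t : ℕ} (hst : s ≤ t)
    (ht : t ≤ P.N) : cy v (P.y s) ≤ cy v (P.y t) := by
  rcases hst.eq_or_lt with e | e
  · rw [e]
  · exact (P.mono h hA e ht).le

theorem gap (h : C.Chord u v) (hA : C.A u v < C.A v u) {t : ℕ} (ht : t < P.N) :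
    cy v (P.y t) + wt u v ≤ cy v (P.y (t + 1)) := by
  have k1 := P.wt_le h.1 ht
  have k2 : wt (P.y t) (P.y (t + 1)) ≤ cy (P.y t) (P.y (t + 1)) := min_le_left _ _
  have k3 := P.mono h hA (s := t) (t := t + 1) (by omega) ht
  rw [cy_rel v (P.y t), if_pos k3.le] at k2
  omega

/-- a chord between two path vertices is long -/
theorem long (h : C.Chord u v) (hA : C.A u v < C.A v u) {s t : ℕ} (hst : s + 1 < t)
    (ht : t ≤ P.N) (hne : 0 < s ∨ t < P.N) (hc : C.Chord (P.y s) (P.y t)) :
    2 * C.beta u v ≤ C.beta (P.y s) (P.y t) := by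
  have m1 := P.mono h hA (s := s) (t := s + 1) (by omega) (by omega)
  have m2 := P.mono h hA hst ht
  have l1 := cy_lt v (P.y t)
  have ho : ¬ C.A (P.y s) (P.y t) < C.A (P.y t) (P.y s) := by
    intro ho
    obtain ⟨Q⟩ := exists_pd C (P.y s) (P.y t)
    have on : C.S.Anc (C.S.lca (P.y s) (P.y t)) (P.y (s + 1)) ∧
        (C.S.Anc (P.y (s + 1)) (P.y s) ∨ C.S.Anc (P.y (s + 1)) (P.y t)) := by
      rcases lt_or_ge s P.p with k | k
      · have hc' := P.upc s k
        refine ⟨?_, Or.inl hc'.anc⟩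
        rw [← hc'.1]
        refine (C.S.lca_l _ _).of_ne (fun e => ?_)
        have a1 := C.S.lca_r (P.y s) (P.y t)
        rw [e] at a1
        rcases le_or_gt t P.p with k' | k'
        · have d1 := a1.dep_le
          have d2 := (P.av s k.le).2
          have d3 := (P.av t k').2
          omega
        · exact P.notu k (a1.trans (P.au t k'.le ht).1)
      · have hc' := P.dnc s k (by omega)
        have a1 := P.au (s + 1) (by omega) (by omega)
        have a2 := P.au t (by omega) ht
        exact ⟨(C.S.lca_l _ _).trans hc'.anc, Or.inr (a1.1.total a2.1 (by omega))⟩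
    obtain ⟨j, jN, hj⟩ := Q.surj on.1 on.2
    have j0 : j ≠ 0 := fun e => by
      rw [e, Q.y0] at hj; exact P.ne_of_lt hst ht hj.symm
    have j1 : j ≠ Q.N := fun e => by
      rw [e, Q.yN] at hj; exact P.ne_of_lt (Nat.lt_succ_self s) (by omega) hj
    have k1 := Q.side hc ho (t := j) (by omega) (by omega)
    rw [hj, cy_rel v (P.y t) (P.y (s + 1)), cy_rel v (P.y t) (P.y s)] at k1
    split_ifs at k1 <;> omega
  unfold beta
  rw [if_pos hA, if_neg ho, cy_rel v (P.y t) (P.y s), if_neg (by omega)]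
  have b1 : cy u v = n - cy v u := by
    have := cy_pos h.1.ne
    rw [cy_rel v u v, cy_self, if_neg (by omega), Nat.zero_add]
  have b2 : wt u v = min (cy u v) (cy v u) := rfl
  have b3 := cy_lt v u
  have b4 := P.mono_le h hA ht le_rfl
  rw [P.yN] at b4
  rcases hne with k | k
  · have g1 := P.gap h hA (t := 0) (by omega)
    have g2 := P.mono_le h hA (s := 0 + 1) (t := s) (by omega) (by omega)
    rw [P.y0, cy_self] at g1
    omega
  · obtain ⟨j, hj⟩ : ∃ j, P.N = j + 1 := ⟨P.N - 1, by omega⟩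
    have g1 := P.gap h hA (t := j) (by omega)
    have g2 := P.mono_le h hA (s := t) (t := j) (by omega) (by omega)
    rw [← hj, P.yN] at g1
    omega

/-- the previous and the next vertex of the polygon -/
def prv (t : ℕ) : Fin n := if t = 0 then u else P.y (t - 1)
def nxt (t : ℕ) : Fin n := if t = P.N then v else P.y (t + 1)

/-- a neighbour of a polygon vertex on the arc between its polygon neighbours is on the
polygon -/
theorem on_poly (h : C.Chord u v) (hA : C.A u v < C.A v u) {t : ℕ} (ht : t ≤ P.N) {g : Fin n}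
    (hg : g = P.y t ∨ G.Adj (P.y t) g) (hc : Cyc v (P.nxt t) g (P.prv t)) :
    ∃ s, s ≤ P.N ∧ P.y s = g ∧ (s + 1 < t ∨ t + 1 < s) ∧ (0 < min s t ∨ max s t < P.N) := by
  have hN := P.two_le h
  have z0 : cy v (P.y 0) = 0 := by rw [P.y0, cy_self]
  have zN : cy v (P.y P.N) = cy v u := by rw [P.yN]
  have arc : (t = 0 → cy v (P.y 1) < cy v g ∧ cy v g < cy v (P.y P.N)) ∧
      (t = P.N → 0 < cy v g ∧ cy v g < cy v (P.y (t - 1))) ∧
      (0 < t → t < P.N → cy v (P.y (t + 1)) < cy v g ∨ cy v g < cy v (P.y (t - 1))) := by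
    unfold Cyc nxt prv at hc
    refine ⟨fun e => ?_, fun e => ?_, fun e e' => ?_⟩
    · rw [if_pos e, if_neg (by omega), e, Nat.zero_add] at hc
      have := P.mono h hA (s := 1) (t := P.N) (by omega) le_rfl
      omega
    · rw [if_pos e, if_neg (by omega), cy_self] at hc
      omega
    · rw [if_neg (by omega), if_neg (by omega)] at hc
      have := P.mono h hA (s := t - 1) (t := t + 1) (by omega) e'
      omega
  obtain ⟨a0, aN, am⟩ := arc
  have far : ∀ j, j < P.N → cy v (P.y j) ≤ cy v g → cy v g ≤ cy v (P.y (j + 1)) →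
      j ≠ t ∧ j + 1 ≠ t := by
    intro j hj k1 k2
    refine ⟨fun e => ?_, fun e => ?_⟩
    · subst e
      rcases Nat.eq_zero_or_pos j with e | e
      · have := a0 e; rw [e, Nat.zero_add] at k2; omega
      · have := am e hj
        have := P.mono h hA (s := j - 1) (t := j) (by omega) hj.le
        omega
    · subst e
      rw [Nat.add_sub_cancel] at aN am
      rcases (Nat.succ_le_of_lt hj).eq_or_lt with e | e
      · have := aN e; omega
      · have := am (by omega) e
        have := P.mono h hA (s := j + 1) (t := j + 1 + 1) (by omega) e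
        omega
  have hadj : G.Adj (P.y t) g := by
    refine hg.resolve_left (fun e => ?_)
    rcases ht.eq_or_lt with e' | e'
    · obtain ⟨j, hj⟩ : ∃ j, t = j + 1 := ⟨t - 1, by omega⟩
      have := P.mono h hA (s := j) (t := t) (by omega) ht
      exact (far j (by omega) (by rw [e]; omega) (by rw [e, hj])).2 hj.symm
    · have := P.mono h hA (s := t) (t := t + 1) (by omega) e'
      exact (far t e' (by rw [e]) (by rw [e]; omega)).1 rfl
  by_cases hp : ∃ s, s ≤ P.N ∧ P.y s = g
  · obtain ⟨s, sN, hs⟩ := hp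
    refine ⟨s, sN, hs, ?_, ?_⟩
    · by_contra hcon
      rcases (by omega : s = t ∨ s + 1 = t ∨ s = t + 1) with e | e | e
      · exact hadj.ne (e ▸ hs)
      · have := P.mono h hA (s := s) (t := s + 1) (by omega) (by omega)
        exact (far s (by omega) (by rw [hs]) (by rw [← hs]; omega)).2 e
      · have := P.mono h hA (s := t) (t := s) (by omega) sN
        exact (far t (by omega) (by rw [← hs]; omega) (by rw [← hs, e])).1 rfl
    · by_contra hcon
      rcases (by omega : (s = 0 ∧ t = P.N) ∨ (t = 0 ∧ s = P.N)) with e | e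
      · have := (aN e.2).1
        rw [← hs, e.1] at this; omega
      · have := (a0 e.1).2
        rw [← hs, e.2] at this; omega
  · exfalso
    have ne : ∀ s, s ≤ P.N → cy v (P.y s) ≠ cy v g := fun s hs e => hp ⟨s, hs, cy_inj e⟩
    rcases lt_or_gt_of_ne (ne P.N le_rfl) with k | k
    · have t0 : t ≠ 0 := fun e => by have := a0 e; omega
      have tN : t ≠ P.N := fun e => by
        have := aN e
        have := P.mono h hA (s := t - 1) (t := P.N) (by omega) le_rfl
        omega
      have k1 := P.mono h hA (s := 0) (t := t) (by omega) ht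
      have k2 := P.mono h hA (s := t) (t := P.N) (by omega) le_rfl
      refine nc_cy C.nc v (P.y 0) (P.y t) (P.y P.N) g k1 k2 k ?_ hadj
      rw [P.y0, P.yN]; exact h.1.symm
    · have ex : ∃ j, cy v g < cy v (P.y j) := ⟨P.N, k⟩
      have j1 := Nat.find_spec ex
      have j2 : Nat.find ex ≤ P.N := Nat.find_min' ex k
      have j3 : Nat.find ex ≠ 0 := fun e => by rw [e] at j1; omega
      obtain ⟨j, hj⟩ : ∃ j, Nat.find ex = j + 1 := ⟨Nat.find ex - 1, by omega⟩
      have j4 := Nat.find_min ex (m := j) (by omega)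
      rw [hj] at j1 j2
      have j5 := ne j (by omega)
      have j6 := far j j2 (by omega) j1.le
      rcases (by omega : t < j ∨ j + 1 < t) with e | e
      · exact nc_cy C.nc v (P.y t) (P.y j) g (P.y (j + 1)) (P.mono h hA e (by omega)) (by omega)
          j1 hadj (P.adj j2)
      · exact nc_cy C.nc v (P.y j) g (P.y (j + 1)) (P.y t) (by omega) j1 (P.mono h hA e ht)
          (P.adj j2) hadj.symm

theorem top_u {t : ℕ} (h1 : P.p ≤ t) (h2 : t ≤ P.N) : C.top (P.y t) u v = P.nxt t := by
  unfold nxt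
  split_ifs with e
  · rw [e, P.yN, top_self]
  · rw [top_ne v (P.ne_u (by omega)).symm, P.ch_u h1 (by omega)]

theorem top_v {t : ℕ} (h1 : t ≤ P.p) : C.top (P.y t) v u = P.prv t := by
  have := P.pN
  unfold prv
  split_ifs with e
  · rw [e, P.y0, top_self]
  · obtain ⟨j, rfl⟩ : ∃ j, t = j + 1 := ⟨t - 1, by omega⟩
    rw [top_ne u (P.ne_v (by omega) (by omega)).symm, P.ch_v h1, Nat.add_sub_cancel]

theorem anc_w {t : ℕ} (ht : t ≤ P.N) :
    C.S.Anc (P.y t) u ∨ C.S.Anc (P.y t) v := by
  rcases le_total t P.p with k | k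
  · exact Or.inr (P.av t k).1
  · exact Or.inl (P.au t k ht).1

end PD

/-- BETWEEN (section 5 of the paper) -/
theorem between {u v x a : Fin n} (h : C.Chord u v) (ha : C.Item x a) (hc : ¬ C.Child x a)
    (h1 : C.A u v < C.A x a) (h2 : C.A x a < C.A v u) :
    C.Chord x a ∧ 2 * C.beta u v ≤ C.beta x a := by
  have hA := h1.trans h2
  obtain ⟨P⟩ := exists_pd C u v
  have hN := P.two_le h
  have hpN := P.pN
  have hw : C.S.Anc (C.S.lca u v) x := by
    by_contra hw
    have hr := RT.ne_r_of_not_anc hw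
    have n1 := nest h.item (Or.inr ⟨child_par hr, C.S.lca_l u v⟩)
    have n2 := nest h.symm.item (Or.inr ⟨child_par hr, C.S.lca_r u v⟩)
    have l1 := C.Lam_pos x a
    have l2 := C.Lam_pos v u
    rcases disj ha (child_par hr).item (fun k => hc (by rw [k.1, k.2]; exact child_par hr))
      (fun k => hc k.1) (fun k => hw k.2) with k | k <;> linarith [n1.1, n2.2]
  obtain ⟨m, m1, m2, m3, m4⟩ : ∃ m, C.S.Anc m x ∧ C.S.Anc (C.S.lca u v) m ∧
      (C.S.Anc m u ∨ C.S.Anc m v) ∧
      ∀ b, C.S.Anc b x → (C.S.Anc b u ∨ C.S.Anc b v) → C.S.Anc b m := by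
    have a1 := RT.anc_lca hw (C.S.lca_l u v)
    have a2 := RT.anc_lca hw (C.S.lca_r u v)
    rcases (C.S.lca_l x u).total' (C.S.lca_l x v) with k | k
    · exact ⟨_, C.S.lca_l x v, a2, Or.inr (C.S.lca_r x v), fun b b1 b2 =>
        b2.elim (fun b2 => (RT.anc_lca b1 b2).trans k) (fun b2 => RT.anc_lca b1 b2)⟩
    · exact ⟨_, C.S.lca_l x u, a1, Or.inl (C.S.lca_r x u), fun b b1 b2 =>
        b2.elim (fun b2 => RT.anc_lca b1 b2) (fun b2 => (RT.anc_lca b1 b2).trans k)⟩
  obtain ⟨t, ht, rfl⟩ := P.surj m2 m3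
  have gi := top_item m1 ha
  have off : x ≠ P.y t → ¬ (C.S.Anc (C.top (P.y t) x a) u ∨ C.S.Anc (C.top (P.y t) x a) v) := by
    intro e k
    rw [top_ne a e] at k
    have := (m4 _ (C.S.ch_anc _ x) k).dep_le
    rw [RT.dep_ch m1 e.symm] at this; omega
  have tne : ∀ c d, C.Chord c d → (c = u ∨ c = v) → (d = u ∨ d = v) → C.S.Anc (P.y t) c →
      C.A c d ≠ C.A x a → C.top (P.y t) c d ≠ C.top (P.y t) x a := by
    intro c d hcd hc1 hd1 hc2 hne e
    by_cases e1 : x = P.y t
    · rw [← e1, top_self] at e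
      by_cases e2 : c = x
      · rw [e2, top_self] at e
        exact hne (by rw [e2, e])
      · rw [top_ne d e2] at e
        exact hc (e ▸ child_ch (e1 ▸ hc2) (Ne.symm e2))
    · refine off e1 ?_
      rw [← e]
      by_cases e2 : c = P.y t
      · rw [← e2, top_self]
        exact hd1.imp (fun k => by rw [k]; exact C.S.anc_refl _) (fun k => by rw [k]; exact C.S.anc_refl _)
      · rw [top_ne d e2]
        exact hc1.imp (fun k => by rw [k]; exact C.S.ch_anc _ _)
          (fun k => by rw [k]; exact C.S.ch_anc _ _)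
  have ku : P.p ≤ t → C.key (P.y t) (P.nxt t) < C.key (P.y t) (C.top (P.y t) x a) := fun k => by
    have a1 := (P.au t k ht).1
    rw [← P.top_u k ht]
    exact lt_key a1 m1 h.item ha (tne u v h (Or.inl rfl) (Or.inr rfl) a1 h1.ne) h1
  have kv : t ≤ P.p → C.key (P.y t) (C.top (P.y t) x a) < C.key (P.y t) (P.prv t) := fun k => by
    have a1 := (P.av t k).1
    rw [← P.top_v k]
    exact lt_key m1 a1 ha h.symm.item (tne v u h.symm (Or.inr rfl) (Or.inl rfl) a1 h2.ne').symm h2
  have cyc : Cyc (C.S.par (P.y t)) (P.nxt t) (C.top (P.y t) x a) (P.prv t) := by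
    have g0 := cy_pos gi.2
    unfold key at ku kv
    unfold Cyc
    rcases lt_trichotomy t P.p with k | k | k
    · have e : P.nxt t = C.S.par (P.y t) := by
        unfold PD.nxt; rw [if_neg (by omega), (P.upc t k).1]
      have := kv k.le
      rw [e, cy_self]; omega
    · have := ku k.ge
      have := kv k.le
      omega
    · have e : P.prv t = C.S.par (P.y t) := by
        obtain ⟨j, rfl⟩ : ∃ j, t = j + 1 := ⟨t - 1, by omega⟩
        unfold PD.prv
        rw [if_neg (by omega), Nat.add_sub_cancel, (P.dnc j (by omega) (by omega)).1]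
      have k1 := ku k.le
      have k2 : P.nxt t ≠ C.S.par (P.y t) := by
        rw [← P.top_u k.le ht]; exact (top_item (P.au t k.le ht).1 h.item).2
      have k3 := cy_pos k2
      rw [e, cy_self]; omega
  obtain ⟨s, sN, hs, s1, s2⟩ := P.on_poly h hA ht gi.1 (cyc.base v)
  have ex : x = P.y t := by
    by_contra e
    exact off e (hs ▸ P.anc_w sN)
  rw [← ex, top_self] at hs
  have hne : a ≠ x := by
    rw [← hs, ex]
    rcases s1 with k | k
    · exact P.ne_of_lt (by omega) ht
    · exact (P.ne_of_lt (by omega) sN).symm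
  have hch := chord_of ha hne hc
  refine ⟨hch, ?_⟩
  rcases s1 with k | k
  · rw [hch.beta_symm, ← hs, ex]
    exact P.long h hA k ht (by omega) (by rw [hs, ← ex]; exact hch.symm)
  · rw [← hs, ex]
    exact P.long h hA k sN (by omega) (by rw [hs, ← ex]; exact hch)

end Ctx
end
end Pool.Agent.Work.MP_37ce0f_lc.W
end

-- merged part: Pool.Agent.Work.MP_37ce0f_lc.W.Geo1
section
namespace Pool.Agent.Work.MP_37ce0f_lc.W
open Finset Classical
noncomputable section
variable {n : ℕ} {G : SimpleGraph (Fin n)}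

def th (n : ℕ) : ℤ := (((n - 1) / 3 : ℕ) : ℤ)

namespace Ctx
variable (C : Ctx G)

def R : ℤ := ((5 * n / C.K + 1 : ℕ) : ℤ)
def lay (x a : Fin n) : ℤ := ((Nat.log 2 n - Nat.log 2 (C.beta x a) : ℕ) : ℤ)
def dirOf (x a : Fin n) (q : ℤ) : ℤ × ℤ :=
  if C.Right x a then (q, ⌊(q : ℝ) * C.A x a⌋ + 1)
  else if C.Left x a then (-q, -(⌊(q : ℝ) * (C.A x a - C.K)⌋ + 1))
  else (C.sp.xi a - C.sp.xi x, C.K * |C.sp.xi a - C.sp.xi x| + 1)
def qc (x a : Fin n) : ℤ := ⌊1 / C.Lam x a⌋ + 1
def pos : Fin n → ℤ × ℤ :=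
  C.S.rc (C.sp.xi C.S.r, 0) (fun v p => p + C.dirOf (C.S.par v) v (C.qc (C.S.par v) v))
def XX (x a : Fin n) : ℤ :=
  if C.Right x a then th n + 2 * C.R + C.lay x a else -(2 * C.R + C.lay x a)
def qq (x a : Fin n) : ℤ :=
  if C.Child x a then C.qc x a else if a = x then C.R else |C.XX x a - (C.pos x).1|
def d (x a : Fin n) : ℤ × ℤ := C.dirOf x a (C.qq x a)
def OnR (v : Fin n) : Prop := C.S.Anc v C.sp.z ∨ cy C.S.r v < cy C.S.r C.sp.z
def OnL (v : Fin n) : Prop := C.S.Anc v C.sp.z ∨ cy C.S.r C.sp.z < cy C.S.r v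

theorem R_gt : 1 / C.s0 < C.R := by
  have h1 : (0 : ℝ) < C.K := by exact_mod_cast C.K1
  have h2 : 5 * n < C.K * (5 * n / C.K + 1) := Nat.lt_mul_div_succ _ C.K1
  have h3 : (5 : ℝ) * n < C.K * ((5 * n / C.K + 1 : ℕ) : ℝ) := by exact_mod_cast h2
  unfold s0 R
  rw [one_div_div, div_lt_iff₀ h1, Int.cast_natCast]
  linarith

theorem R_pos : 0 < C.R := by unfold R; positivity

theorem KR_le : (C.K : ℤ) * C.R ≤ 5 * n + C.K := by
  have h2 : C.K * (5 * n / C.K) ≤ 5 * n := Nat.mul_div_le _ _
  have h3 : C.K * (5 * n / C.K + 1) ≤ 5 * n + C.K := by rw [Nat.mul_succ]; omega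
  unfold R; exact_mod_cast h3

theorem lay_nonneg (x a : Fin n) : 0 ≤ C.lay x a := Int.natCast_nonneg _

theorem lay_le (x a : Fin n) : C.lay x a ≤ Nat.log 2 n := by
  unfold lay; exact_mod_cast Nat.sub_le _ _

theorem pos_r : C.pos C.S.r = (C.sp.xi C.S.r, 0) := C.S.rc_r _ _

theorem on_or (v : Fin n) : C.OnR v ∨ C.OnL v := by
  by_cases e : v = C.sp.z
  · exact Or.inl (Or.inl (e ▸ C.S.anc_refl _))
  · rcases lt_or_gt_of_ne (fun k : cy C.S.r v = cy C.S.r C.sp.z => e (cy_inj k)) with k | k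
    · exact Or.inl (Or.inr k)
    · exact Or.inr (Or.inr k)

variable {C}

theorem qq_child {x a : Fin n} (h : C.Child x a) : C.qq x a = C.qc x a := by simp [qq, h]

theorem pos_par {v : Fin n} (hv : v ≠ C.S.r) :
    C.pos v = C.pos (C.S.par v) + C.d (C.S.par v) v := by
  unfold d
  rw [qq_child (child_par hv)]
  exact C.S.rc_step _ _ hv

theorem Child.pos {x a : Fin n} (h : C.Child x a) : C.pos a = C.pos x + C.d x a := by
  have := pos_par h.ne_r
  rwa [h.1] at this

theorem d_R {x a : Fin n} (h : C.Right x a) :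
    C.d x a = (C.qq x a, ⌊(C.qq x a : ℝ) * C.A x a⌋ + 1) := by simp [d, dirOf, h]

theorem d_L {x a : Fin n} (h : C.Left x a) :
    C.d x a = (-C.qq x a, -(⌊(C.qq x a : ℝ) * (C.A x a - C.K)⌋ + 1)) := by
  have : ¬ C.Right x a := fun k => k.not_left h
  simp only [d, dirOf, h, this, if_true, if_false]

theorem d_S {x a : Fin n} (h : C.Spine x a) :
    C.d x a = (C.sp.xi a - C.sp.xi x, C.K * |C.sp.xi a - C.sp.xi x| + 1) := by
  simp only [d, dirOf, h.not_left, h.not_right, if_false]

theorem spine_par {v : Fin n} (hv : v ≠ C.S.r) (h : C.S.Anc v C.sp.z) : C.Spine (C.S.par v) v :=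
  Or.inl ⟨child_par hv, h⟩

theorem OnR.par {v : Fin n} (h : C.OnR v) : C.OnR (C.S.par v) := by
  by_cases k : C.S.Anc (C.S.par v) C.sp.z
  · exact Or.inl k
  · rcases h with h | h
    · exact absurd ((C.S.anc_par v).trans h) k
    · exact Or.inr ((RT.sub_side C.nc (C.S.anc_par v) (C.S.anc_refl _) k).1 h)

theorem OnL.par {v : Fin n} (h : C.OnL v) : C.OnL (C.S.par v) := by
  by_cases k : C.S.Anc (C.S.par v) C.sp.z
  · exact Or.inl k
  · rcases h with h | h
    · exact absurd ((C.S.anc_par v).trans h) k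
    · right
      have := RT.sub_side C.nc (C.S.anc_par v) (C.S.anc_refl _) k
      have e : cy C.S.r (C.S.par v) ≠ cy C.S.r C.sp.z := fun e => k (cy_inj e ▸ C.S.anc_refl _)
      omega

theorem Right.onR {x a : Fin n} (h : C.Right x a) (ha : C.Item x a) : C.OnR x := by
  by_cases k : C.S.Anc x C.sp.z
  · exact Or.inl k
  · refine (C.on_or x).resolve_right (fun k2 => ?_)
    exact h.not_left ((side_L k (k2.resolve_left k)).und ha (und_par (RT.ne_r_of_not_anc k) a))

theorem Left.onL {x a : Fin n} (h : C.Left x a) (ha : C.Item x a) : C.OnL x := by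
  by_cases k : C.S.Anc x C.sp.z
  · exact Or.inl k
  · refine (C.on_or x).resolve_left (fun k2 => ?_)
    exact ((side_R k (k2.resolve_left k)).und ha (und_par (RT.ne_r_of_not_anc k) a)).not_left h

variable (C) in
theorem qc_spec (x a : Fin n) :
    1 ≤ C.qc x a ∧ 1 < (C.qc x a : ℝ) * C.Lam x a ∧ (C.qc x a : ℝ) ≤ 1 + 1 / C.Lam x a := by
  have h := C.Lam_pos x a
  have h1 : 0 ≤ ⌊1 / C.Lam x a⌋ := Int.floor_nonneg.2 (by positivity)
  have h2 := Int.lt_floor_add_one (1 / C.Lam x a)
  have h3 := Int.floor_le (1 / C.Lam x a)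
  unfold qc
  refine ⟨by omega, ?_, by push_cast; linarith⟩
  push_cast
  rwa [div_lt_iff₀ h] at h2

theorem x_sp {v : Fin n} (h : C.S.Anc v C.sp.z) : (C.pos v).1 = C.sp.xi v := by
  induction v using C.S.ind with
  | h0 => rw [C.pos_r]
  | hs v hv ih =>
    rw [pos_par hv, d_S (spine_par hv h), Prod.fst_add, ih ((C.S.anc_par v).trans h)]
    ring

theorem OnR.x {v : Fin n} (h : C.OnR v) : C.sp.xi v ≤ (C.pos v).1 ∧
    ((C.pos v).1 : ℝ) ≤ C.sp.xi v + (1 / C.s0 - 1 / C.sc v) := by
  induction v using C.S.ind with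
  | h0 => rw [x_sp (C.S.anc_r _), sc_sp (C.S.anc_r _)]; simp
  | hs v hv ih =>
    by_cases k : C.S.Anc v C.sp.z
    · rw [x_sp k, sc_sp k]; simp
    · obtain ⟨i1, i2⟩ := ih h.par
      obtain ⟨q1, -, q3⟩ := C.qc_spec (C.S.par v) v
      have hc := h.resolve_left k
      rw [pos_par hv, d_R (side_R k hc), qq_child (child_par hv), C.sp.xiR v k hc, inv_sc k,
        Prod.fst_add]
      refine ⟨by dsimp only; omega, ?_⟩
      push_cast
      linarith

theorem OnL.x {v : Fin n} (h : C.OnL v) : (C.pos v).1 ≤ C.sp.xi v ∧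
    (C.sp.xi v : ℝ) - (1 / C.s0 - 1 / C.sc v) ≤ (C.pos v).1 := by
  induction v using C.S.ind with
  | h0 => rw [x_sp (C.S.anc_r _), sc_sp (C.S.anc_r _)]; simp
  | hs v hv ih =>
    by_cases k : C.S.Anc v C.sp.z
    · rw [x_sp k, sc_sp k]; simp
    · obtain ⟨i1, i2⟩ := ih h.par
      obtain ⟨q1, -, q3⟩ := C.qc_spec (C.S.par v) v
      have hc := h.resolve_left k
      rw [pos_par hv, d_L (side_L k hc), qq_child (child_par hv), C.sp.xiL v k hc, inv_sc k,
        Prod.fst_add]
      refine ⟨by dsimp only; omega, ?_⟩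
      push_cast
      linarith

variable (C) in
theorem posx (v : Fin n) : -C.R < (C.pos v).1 ∧ (C.pos v).1 < th n + C.R := by
  have h0 := C.sp.xi0 v
  have h1 : C.sp.xi v ≤ th n := C.sp.xi1 v
  have h2 := C.R_gt
  have h3 := C.R_pos
  have h4 : 0 < 1 / C.sc v := one_div_pos.2 (C.sc_pos v)
  rcases C.on_or v with h | h
  · obtain ⟨i1, i2⟩ := h.x
    have : ((C.pos v).1 : ℝ) < C.sp.xi v + C.R := by linarith
    have : (C.pos v).1 < C.sp.xi v + C.R := by exact_mod_cast this
    omega
  · obtain ⟨i1, i2⟩ := h.x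
    have : (C.sp.xi v : ℝ) - C.R < (C.pos v).1 := by linarith
    have : C.sp.xi v - C.R < (C.pos v).1 := by exact_mod_cast this
    omega

theorem qq_spec (x a : Fin n) : 0 < C.qq x a ∧ 1 < (C.qq x a : ℝ) * C.Lam x a := by
  by_cases hc : C.Child x a
  · rw [qq_child hc]
    obtain ⟨q1, q2, -⟩ := C.qc_spec x a
    exact ⟨by omega, q2⟩
  · have h1 : C.R ≤ C.qq x a := by
      have := C.posx x
      have := C.lay_nonneg x a
      unfold qq XX
      rw [if_neg hc]
      split_ifs
      · exact le_rfl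
      · exact le_abs.2 (Or.inl (by omega))
      · exact le_abs.2 (Or.inr (by omega))
    have h2 := C.R_pos
    have h3 := C.R_gt
    have h4 := C.s0_pos
    have h5 := C.Lam_ge x a
    have h6 : (C.R : ℝ) ≤ C.qq x a := by exact_mod_cast h1
    have h7 : (0 : ℝ) < C.R := by exact_mod_cast h2
    rw [div_lt_iff₀ h4] at h3
    exact ⟨by omega, by nlinarith⟩

theorem Right.dir {x a : Fin n} (h : C.Right x a) : 0 < (C.d x a).1 ∧
    C.A x a * (C.d x a).1 < (C.d x a).2 ∧
    ((C.d x a).2 : ℝ) < (C.A x a + C.Lam x a) * (C.d x a).1 := by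
  obtain ⟨q1, q2⟩ := qq_spec (C := C) x a
  have h2 := Int.lt_floor_add_one ((C.qq x a : ℝ) * C.A x a)
  have h3 := Int.floor_le ((C.qq x a : ℝ) * C.A x a)
  rw [d_R h]
  refine ⟨q1, ?_, ?_⟩ <;> push_cast <;> nlinarith

theorem Left.dir {x a : Fin n} (h : C.Left x a) : (C.d x a).1 < 0 ∧
    ((C.d x a).2 : ℝ) < (C.A x a - C.K) * (C.d x a).1 ∧
    (C.A x a + C.Lam x a - C.K) * (C.d x a).1 < (C.d x a).2 := by
  obtain ⟨q1, q2⟩ := qq_spec (C := C) x a
  have h2 := Int.lt_floor_add_one ((C.qq x a : ℝ) * (C.A x a - C.K))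
  have h3 := Int.floor_le ((C.qq x a : ℝ) * (C.A x a - C.K))
  rw [d_L h]
  refine ⟨by dsimp only; omega, ?_, ?_⟩ <;> push_cast <;> nlinarith

theorem Spine.dir {x a : Fin n} (h : C.Spine x a) :
    (C.K : ℝ) * |((C.d x a).1 : ℝ)| < (C.d x a).2 := by
  rw [d_S h]; push_cast; linarith

theorem Rpos {x a : Fin n} (ha : C.Item x a) {b : ℝ} (b0 : 0 ≤ b) (b1 : b ≤ C.K)
    (h : C.Right x a → b ≤ C.A x a) : 0 < ((C.d x a).2 : ℝ) - b * (C.d x a).1 := by
  obtain ⟨r0, r1⟩ := range ha
  rcases side_tri ha with k | k | k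
  · obtain ⟨d1, d2, -⟩ := k.dir
    have : (0 : ℝ) < (C.d x a).1 := by exact_mod_cast d1
    have := h k
    nlinarith
  · obtain ⟨d1, -, d3⟩ := k.dir
    have : ((C.d x a).1 : ℝ) < 0 := by exact_mod_cast d1
    nlinarith
  · have := k.dir
    have := le_abs_self ((C.d x a).1 : ℝ)
    have := abs_nonneg ((C.d x a).1 : ℝ)
    nlinarith

theorem Lpos {x a : Fin n} (ha : C.Item x a) {b : ℝ} (b0 : 0 ≤ b) (b1 : b ≤ C.K)
    (h : C.Left x a → C.A x a + C.Lam x a ≤ b) :
    0 < ((C.d x a).2 : ℝ) - (b - C.K) * (C.d x a).1 := by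
  obtain ⟨r0, r1⟩ := range ha
  rcases side_tri ha with k | k | k
  · obtain ⟨d1, d2, -⟩ := k.dir
    have : (0 : ℝ) < (C.d x a).1 := by exact_mod_cast d1
    nlinarith
  · obtain ⟨d1, -, d3⟩ := k.dir
    have : ((C.d x a).1 : ℝ) < 0 := by exact_mod_cast d1
    have := h k
    nlinarith
  · have := k.dir
    have := neg_abs_le ((C.d x a).1 : ℝ)
    have := abs_nonneg ((C.d x a).1 : ℝ)
    nlinarith

theorem dy_pos {x a : Fin n} (ha : C.Item x a) : 0 < (C.d x a).2 := by
  have := Rpos ha le_rfl (Nat.cast_nonneg _) (fun _ => (range ha).1)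
  simpa using this

/-- SEP -/
theorem sep {w g g' : Fin n} (hg : C.Item w g) (hg' : C.Item w g') (hk : C.key w g < C.key w g') :
    ∃ p q : ℝ, p ≤ 0 ∧ ((0 < q ∧ C.Right w g) ∨ (q < 0 ∧ C.Left w g')) ∧
      (∀ x a, C.Item x a → C.Und w g x a → p * (C.d x a).1 + q * (C.d x a).2 < 0) ∧
      (∀ x a, C.Item x a → C.Und w g' x a → 0 < p * (C.d x a).1 + q * (C.d x a).2) := by
  have hs := sib hg hk
  obtain ⟨r0, r1⟩ := range hg
  obtain ⟨r2, r3⟩ := range hg'
  have l1 := C.Lam_pos w g
  have l2 := C.Lam_pos w g'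
  by_cases hR : C.Right w g
  · refine ⟨-(C.A w g + C.Lam w g), 1, by linarith, Or.inl ⟨one_pos, hR⟩, ?_, ?_⟩
    · intro x a ha hu
      obtain ⟨d1, -, d3⟩ := (hR.und ha hu).dir
      have : (0 : ℝ) < (C.d x a).1 := by exact_mod_cast d1
      have := (nest ha hu).2
      nlinarith
    · intro x a ha hu
      have := Rpos ha (b := C.A w g + C.Lam w g) (by linarith) r1
        (fun _ => hs.trans (nest ha hu).1)
      linarith
  · have hL : C.Left w g' := by
      rcases side_tri hg with k | k | k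
      · exact absurd k hR
      · unfold Left at k ⊢; linarith
      · have := k.nest.2; unfold Left; linarith
    refine ⟨C.A w g' - C.K, -1, by linarith, Or.inr ⟨by norm_num, hL⟩, ?_, ?_⟩
    · intro x a ha hu
      have := Lpos ha (b := C.A w g') r2 (by linarith) (fun _ => (nest ha hu).2.trans hs)
      linarith
    · intro x a ha hu
      obtain ⟨d1, d2, -⟩ := (hL.und ha hu).dir
      have : ((C.d x a).1 : ℝ) < 0 := by exact_mod_cast d1
      have := (nest ha hu).1
      nlinarith

theorem cr_sib {w g g' : Fin n} (hg : C.Item w g) (hg' : C.Item w g')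
    (hk : C.key w g < C.key w g') : 0 < cr (C.d w g) (C.d w g') := by
  obtain ⟨p, q, hp, -, h1, h2⟩ := sep hg hg' hk
  have k1 := h1 w g hg (und_refl _ _)
  have k2 := h2 w g' hg' (und_refl _ _)
  have y1 : (0 : ℝ) < (C.d w g).2 := by exact_mod_cast dy_pos hg
  have y2 : (0 : ℝ) < (C.d w g').2 := by exact_mod_cast dy_pos hg'
  have : (0 : ℝ) < (C.d w g).1 * (C.d w g').2 - (C.d w g).2 * (C.d w g').1 := by
    by_contra hcon
    push Not at hcon
    nlinarith [mul_pos k2 y1, mul_pos (neg_pos.2 k1) y2, mul_nonneg (neg_nonneg.2 hp) (neg_nonneg.2 hcon)]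
  unfold cr; exact_mod_cast this

theorem y_mono {a v : Fin n} (h : C.S.Anc a v) : (C.pos a).2 ≤ (C.pos v).2 := by
  induction v using C.S.ind with
  | h0 => rw [h.eq_r]
  | hs v hv ih =>
    rcases h.cases with e | e
    · rw [e]
    · have := ih e.2
      have := dy_pos (child_par hv).item
      rw [pos_par hv, Prod.snd_add]; omega

variable (C) in
theorem y_nonneg (v : Fin n) : 0 ≤ (C.pos v).2 := by
  have := y_mono (C.S.anc_r v)
  rwa [C.pos_r] at this

theorem y_sp {v : Fin n} (h : C.S.Anc v C.sp.z) : (C.pos v).2 ≤ C.K * C.sp.T v := by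
  have hK : (1 : ℤ) ≤ C.K := by exact_mod_cast C.K1
  induction v using C.S.ind with
  | h0 => rw [C.pos_r]; have := C.sp.T0 C.S.r; positivity
  | hs v hv ih =>
    have h1 := ih ((C.S.anc_par v).trans h)
    have h2 := C.sp.Tstep v hv h
    rw [pos_par hv, d_S (spine_par hv h), Prod.snd_add]
    dsimp only
    nlinarith

theorem Right.slope {x a : Fin n} (h : C.Right x a) (ha : C.Item x a) :
    (C.d x a).2 ≤ C.K * (C.d x a).1 := by
  obtain ⟨d1, -, d3⟩ := h.dir
  have h1 : (0 : ℝ) < (C.d x a).1 := by exact_mod_cast d1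
  have := (range ha).2
  have : ((C.d x a).2 : ℝ) ≤ C.K * (C.d x a).1 := by nlinarith
  exact_mod_cast this

theorem Left.slope {x a : Fin n} (h : C.Left x a) (ha : C.Item x a) :
    (C.d x a).2 ≤ -(C.K * (C.d x a).1) := by
  obtain ⟨d1, d2, -⟩ := h.dir
  have h1 : ((C.d x a).1 : ℝ) < 0 := by exact_mod_cast d1
  have := (range ha).1
  have : ((C.d x a).2 : ℝ) ≤ -(C.K * (C.d x a).1) := by nlinarith
  exact_mod_cast this

theorem OnR.y {v : Fin n} (h : C.OnR v) : (C.pos v).2 ≤ C.K * (3 * n + (C.pos v).1) := by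
  have sp : ∀ v, C.S.Anc v C.sp.z → (C.pos v).2 ≤ C.K * (3 * n + (C.pos v).1) := fun v k => by
    have := C.sp.T1 v
    have := C.sp.xi0 v
    rw [x_sp k]
    exact (y_sp k).trans (mul_le_mul_of_nonneg_left (by omega) (Int.natCast_nonneg _))
  induction v using C.S.ind with
  | h0 => exact sp _ (C.S.anc_r _)
  | hs v hv ih =>
    by_cases k : C.S.Anc v C.sp.z
    · exact sp v k
    · have := ih h.par
      have := (side_R k (h.resolve_left k)).slope (child_par hv).item
      rw [pos_par hv, Prod.snd_add, Prod.fst_add]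
      linarith

theorem OnL.y {v : Fin n} (h : C.OnL v) :
    (C.pos v).2 ≤ C.K * (3 * n + th n - (C.pos v).1) := by
  have sp : ∀ v, C.S.Anc v C.sp.z → (C.pos v).2 ≤ C.K * (3 * n + th n - (C.pos v).1) :=
    fun v k => by
    have := C.sp.T1 v
    have : C.sp.xi v ≤ th n := C.sp.xi1 v
    rw [x_sp k]
    exact (y_sp k).trans (mul_le_mul_of_nonneg_left (by omega) (Int.natCast_nonneg _))
  induction v using C.S.ind with
  | h0 => exact sp _ (C.S.anc_r _)
  | hs v hv ih =>
    by_cases k : C.S.Anc v C.sp.z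
    · exact sp v k
    · have := ih h.par
      have := (side_L k (h.resolve_left k)).slope (child_par hv).item
      rw [pos_par hv, Prod.snd_add, Prod.fst_add]
      linarith

theorem Chord.RL {x a : Fin n} (h : C.Chord x a) : C.Right x a ∨ C.Left x a := by
  rcases side_tri h.item with k | k | k | k
  · exact Or.inl k
  · exact Or.inr k
  · exact absurd k.1 h.not_child
  · exact absurd (k.1.trans k.2.symm) h.1.ne

theorem XX_R {x a : Fin n} (h : C.Right x a) : C.XX x a = th n + 2 * C.R + C.lay x a := by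
  simp [XX, h]

theorem XX_L {x a : Fin n} (h : C.Left x a) : C.XX x a = -(2 * C.R + C.lay x a) := by
  have : ¬ C.Right x a := fun k => k.not_left h
  simp only [XX, this, if_false]

variable (C) in
/-- the bend next to `x` on the chord `xa` -/
def E (x a : Fin n) : ℤ × ℤ := C.pos x + C.d x a

theorem Chord.E_x {x a : Fin n} (h : C.Chord x a) : (C.E x a).1 = C.XX x a := by
  have e : C.qq x a = |C.XX x a - (C.pos x).1| := by
    unfold qq; rw [if_neg h.not_child, if_neg h.1.ne.symm]
  have := C.posx x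
  have := C.lay_nonneg x a
  have := C.R_pos
  unfold E
  rcases h.RL with k | k
  · rw [Prod.fst_add, d_R k, e, XX_R k, abs_of_nonneg (by omega)]; ring
  · rw [Prod.fst_add, d_L k, e, XX_L k, abs_of_nonpos (by omega)]; ring

theorem box_aux {y t : ℤ} (h : y ≤ C.K * (3 * n + t)) (ht : t ≤ th n + 2 * C.R + Nat.log 2 n) :
    y ≤ (20 * C.K * n : ℕ) := by
  have h1 : th n ≤ n := by unfold th; omega
  have h2 : (Nat.log 2 n : ℤ) ≤ n := by exact_mod_cast Nat.log_le_self 2 n
  have h3 := C.KR_le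
  have hK : (1 : ℤ) ≤ C.K := by exact_mod_cast C.K1
  have hn : (1 : ℤ) ≤ n := by exact_mod_cast C.n_pos
  have h4 : C.K * t ≤ C.K * (2 * n + 2 * C.R) := mul_le_mul_of_nonneg_left (by omega) (by omega)
  push_cast
  nlinarith

variable (C) in
theorem box_pos (v : Fin n) : (C.pos v).2 ≤ (20 * C.K * n : ℕ) := by
  have := C.posx v
  have := C.R_pos
  rcases C.on_or v with h | h
  · exact box_aux h.y (by omega)
  · exact box_aux (t := th n - (C.pos v).1) (by have := h.y; linarith) (by omega)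

theorem Chord.box {x a : Fin n} (h : C.Chord x a) :
    -(2 * C.R + Nat.log 2 n) ≤ (C.E x a).1 ∧ (C.E x a).1 ≤ th n + 2 * C.R + Nat.log 2 n ∧
      0 ≤ (C.E x a).2 ∧ (C.E x a).2 ≤ (20 * C.K * n : ℕ) := by
  have e := h.E_x
  have := C.lay_nonneg x a
  have := C.lay_le x a
  have := C.R_pos
  have t0 : 0 ≤ th n := Int.natCast_nonneg _
  have y0 : 0 ≤ (C.E x a).2 := by
    have := C.y_nonneg x
    have := dy_pos h.item
    unfold E; rw [Prod.snd_add]; omega
  rcases h.RL with k | k
  · rw [XX_R k] at e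
    refine ⟨by omega, by omega, y0, box_aux (C := C) (t := (C.E x a).1) ?_ (by omega)⟩
    have := (k.onR h.item).y
    have := k.slope h.item
    unfold E; rw [Prod.snd_add, Prod.fst_add]; linarith
  · rw [XX_L k] at e
    refine ⟨by omega, by omega, y0, box_aux (C := C) (t := th n - (C.E x a).1) ?_ (by omega)⟩
    have := (k.onL h.item).y
    have := k.slope h.item
    unfold E; rw [Prod.snd_add, Prod.fst_add]; linarith

end Ctx
end
end Pool.Agent.Work.MP_37ce0f_lc.W
end

-- merged part: Pool.Agent.Work.MP_37ce0f_lc.W.Geo2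
section
namespace Pool.Agent.Work.MP_37ce0f_lc.W
open Finset Classical
noncomputable section
variable {n : ℕ} {G : SimpleGraph (Fin n)}

theorem toR_inj {p q : ℤ × ℤ} (h : toR p = toR q) : p = q := by
  simp only [toR, Prod.mk.injEq, Int.cast_inj] at h
  exact Prod.ext h.1 h.2

theorem seg_symm (p q : ℤ × ℤ) : seg (p, q) = seg (q, p) := segment_symm ℝ _ _

theorem mem_seg {p q : ℤ × ℤ} {x : ℝ × ℝ} (h : x ∈ seg (p, q)) :
    ∃ t : ℝ, 0 ≤ t ∧ t ≤ 1 ∧ x.1 = p.1 + t * (q.1 - p.1) ∧ x.2 = p.2 + t * (q.2 - p.2) := by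
  obtain ⟨a, b, ha, hb, hab, rfl⟩ := h
  have : a = 1 - b := by linarith
  refine ⟨b, hb, by linarith, ?_, ?_⟩ <;> simp [toR, this] <;> ring

namespace Ctx
variable (C : Ctx G)

def pt (x a : Fin n) (t : ℝ) : ℝ × ℝ := toR (C.pos x) + t • toR (C.d x a)

theorem pt_fst (x a : Fin n) (t : ℝ) : (C.pt x a t).1 = (C.pos x).1 + t * (C.d x a).1 := by
  simp [pt, toR]

theorem pt_snd (x a : Fin n) (t : ℝ) : (C.pt x a t).2 = (C.pos x).2 + t * (C.d x a).2 := by
  simp [pt, toR]

theorem pt_one (x a : Fin n) : C.pt x a 1 = toR (C.E x a) := by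
  apply Prod.ext
  · rw [pt_fst]; simp [toR, E]
  · rw [pt_snd]; simp [toR, E]

theorem pt_zero (x a : Fin n) : C.pt x a 0 = toR (C.pos x) := by simp [pt]

def InCap (u v : Fin n) (p : ℝ × ℝ) : Prop :=
  p.1 = C.XX u v ∧ ((((C.E u v).2 : ℝ) ≤ p.2 ∧ p.2 ≤ (C.E v u).2) ∨
    (((C.E v u).2 : ℝ) ≤ p.2 ∧ p.2 ≤ (C.E u v).2))

variable {C}

theorem seg_pt {x a : Fin n} {p : ℝ × ℝ} (h : p ∈ seg (C.pos x, C.E x a)) :
    ∃ t : ℝ, 0 ≤ t ∧ t ≤ 1 ∧ p = C.pt x a t := by
  obtain ⟨t, h0, h1, h2, h3⟩ := mem_seg h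
  refine ⟨t, h0, h1, Prod.ext ?_ ?_⟩
  · rw [pt_fst, h2]; simp [E]
  · rw [pt_snd, h3]; simp [E]

theorem Child.E {x a : Fin n} (h : C.Child x a) : C.E x a = C.pos a := h.pos.symm

theorem chain_vtx {w g : Fin n} {p q : ℝ} (hc : C.Child w g)
    (h : ∀ x a, C.Item x a → C.Und w g x a → 0 < p * (C.d x a).1 + q * (C.d x a).2) {y : Fin n}
    (hy : C.S.Anc g y) :
    0 < p * (((C.pos y).1 : ℝ) - (C.pos w).1) + q * (((C.pos y).2 : ℝ) - (C.pos w).2) := by
  induction y using C.S.ind with
  | h0 => exact absurd hy.eq_r hc.ne_r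
  | hs y hr ih =>
    rcases hy.cases with e | e
    · have := h w g hc.item (und_refl _ _)
      rw [← e, hc.pos, Prod.fst_add, Prod.snd_add]
      push_cast; linarith
    · have := ih e.2
      have := h _ y (child_par hr).item (Or.inr ⟨hc, e.2⟩)
      rw [pos_par hr, Prod.fst_add, Prod.snd_add]
      push_cast; linarith

theorem chain_pt {w g : Fin n} {p q : ℝ}
    (h : ∀ x a, C.Item x a → C.Und w g x a → 0 < p * (C.d x a).1 + q * (C.d x a).2)
    {x a : Fin n} (ha : C.Item x a) (hu : C.Und w g x a) {t : ℝ} (ht : 0 < t) :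
    0 < p * ((C.pt x a t).1 - (C.pos w).1) + q * ((C.pt x a t).2 - (C.pos w).2) := by
  have h1 := mul_pos ht (h x a ha hu)
  rw [pt_fst, pt_snd]
  rcases hu with ⟨e, -⟩ | ⟨hc, hy⟩
  · rw [e] at h1 ⊢; linarith
  · have := chain_vtx hc h hy; linarith

theorem sep_pt {w g g' x a y b : Fin n} (hg : C.Item w g) (hg' : C.Item w g')
    (hk : C.key w g < C.key w g') (ha : C.Item x a) (hb : C.Item y b) (h1 : C.Und w g x a)
    (h2 : C.Und w g' y b) {t s : ℝ} (ht : 0 < t) (hs : 0 < s) :
    ∃ p q : ℝ, ((0 < q ∧ C.Right x a) ∨ (q < 0 ∧ C.Left y b)) ∧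
      0 < p * ((C.pt y b s).1 - (C.pt x a t).1) + q * ((C.pt y b s).2 - (C.pt x a t).2) := by
  obtain ⟨p, q, -, hq, k1, k2⟩ := sep hg hg' hk
  refine ⟨p, q, hq.imp (fun k => ⟨k.1, k.2.und ha h1⟩) (fun k => ⟨k.1, k.2.und hb h2⟩), ?_⟩
  have e1 := chain_pt (p := -p) (q := -q) (fun x a i j => by have := k1 x a i j; linarith) ha h1 ht
  have e2 := chain_pt k2 hb h2 hs
  linarith

theorem pt_y {x a : Fin n} (ha : C.Item x a) {t : ℝ} (ht : 0 < t) :
    ((C.pos x).2 : ℝ) < (C.pt x a t).2 := by
  have : (0 : ℝ) < (C.d x a).2 := by exact_mod_cast dy_pos ha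
  rw [pt_snd]; nlinarith

theorem nest_y {x a y b : Fin n} (hc : C.Child x a) (hy : C.S.Anc a y) (hb : C.Item y b)
    {t s : ℝ} (ht : t ≤ 1) (hs : 0 < s) : (C.pt x a t).2 < (C.pt y b s).2 := by
  have h1 := pt_y hb hs
  have h2 : ((C.pos a).2 : ℝ) ≤ (C.pos y).2 := by exact_mod_cast y_mono hy
  have h3 : (0 : ℝ) < (C.d x a).2 := by exact_mod_cast dy_pos hc.item
  rw [hc.pos, Prod.snd_add] at h2
  push_cast at h2
  rw [C.pt_snd x a]; nlinarith

theorem II_eq {x a y b : Fin n} (ha : C.Item x a) (hb : C.Item y b) {t s : ℝ} (ht : 0 < t)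
    (hs : 0 < s) (ht1 : C.Child x a → t ≤ 1) (hs1 : C.Child y b → s ≤ 1)
    (h : C.pt x a t = C.pt y b s) : x = y ∧ a = b := by
  rcases tri ha hb with k | k | k | ⟨w, g, g', k1, k2, k3, k4, k | k⟩
  · exact k
  · have := nest_y k.1 k.2 hb (ht1 k.1) hs
    rw [h] at this; exact absurd this (lt_irrefl _)
  · have := nest_y k.1 k.2 ha (hs1 k.1) ht
    rw [h] at this; exact absurd this (lt_irrefl _)
  · obtain ⟨p, q, -, e⟩ := sep_pt k1 k2 k ha hb k3 k4 ht hs
    rw [h] at e; simp at e
  · obtain ⟨p, q, -, e⟩ := sep_pt k2 k1 k hb ha k4 k3 hs ht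
    rw [h] at e; simp at e

theorem VI {w x a : Fin n} (ha : C.Item x a) {t : ℝ} (ht : 0 < t) (ht1 : C.Child x a → t ≤ 1)
    (h : toR (C.pos w) = C.pt x a t) : C.Child x a ∧ a = w := by
  by_cases hw : w = C.S.r
  · exfalso
    have h1 := pt_y ha ht
    have h2 : (0 : ℝ) ≤ (C.pos x).2 := by exact_mod_cast C.y_nonneg x
    rw [← h, hw, C.pos_r] at h1
    simp only [toR, Int.cast_zero] at h1
    linarith
  · have hc := child_par hw
    rw [← hc.E, ← pt_one] at h
    obtain ⟨e1, e2⟩ := II_eq hc.item ha one_pos ht (fun _ => le_rfl) ht1 h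
    exact ⟨e1 ▸ e2 ▸ hc, e2.symm⟩

variable (C) in
theorem pos_inj : Function.Injective C.pos := by
  intro u v h
  by_cases hu : u = C.S.r
  · by_cases hv : v = C.S.r
    · rw [hu, hv]
    · have hc := child_par hv
      exact (VI hc.item one_pos (fun _ => le_rfl) (by rw [pt_one, hc.E, h])).2.symm
  · have hc := child_par hu
    exact (VI hc.item one_pos (fun _ => le_rfl) (by rw [pt_one, hc.E, h])).2

theorem ord {x a y b : Fin n} (ha : C.Item x a) (hb : C.Item y b) (h1 : ¬ C.Child x a)
    (h2 : ¬ C.Child y b) (hlt : C.A x a < C.A y b) {t s : ℝ} (ht : 0 < t) (hs : 0 < s)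
    (hx : (C.pt x a t).1 = (C.pt y b s).1) :
    (C.Right y b → (C.pt x a t).2 < (C.pt y b s).2) ∧
      (C.Left x a → (C.pt y b s).2 < (C.pt x a t).2) := by
  rcases tri ha hb with k | k | k | ⟨w, g, g', k1, k2, k3, k4, k | k⟩
  · rw [k.1, k.2] at hlt; exact absurd hlt (lt_irrefl _)
  · exact absurd k.1 h1
  · exact absurd k.1 h2
  · obtain ⟨p, q, hq, e⟩ := sep_pt k1 k2 k ha hb k3 k4 ht hs
    rw [hx, sub_self, mul_zero, zero_add] at e
    constructor
    · intro hR
      have := (hq.resolve_right (fun k => hR.not_left k.2)).1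
      have := (mul_pos_iff_of_pos_left this).1 e
      linarith
    · intro hL
      have := (hq.resolve_left (fun k => k.2.not_left hL)).1
      nlinarith
  · have := sib_und k2 k hb ha k4 k3
    have := C.Lam_pos y b
    linarith

theorem Chord.side {u v : Fin n} (h : C.Chord u v) :
    (C.Right u v ∧ C.Right v u) ∨ (C.Left u v ∧ C.Left v u) := by
  have key : ∀ u v, C.Chord u v → C.Right u v → C.Left v u → False := fun u v h h1 h2 => by
    have := C.Lam_pos u v
    have := C.s0_pos
    unfold Right at h1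
    unfold Left at h2
    exact (between h (item_ray C.sp.z_ne) (not_child_ray _) (by linarith) (by linarith)).1.1.ne rfl
  rcases h.RL with k | k <;> rcases h.symm.RL with k' | k'
  · exact Or.inl ⟨k, k'⟩
  · exact (key _ _ h k k').elim
  · exact (key _ _ h.symm k' k).elim
  · exact Or.inr ⟨k, k'⟩

theorem Chord.XX_symm {u v : Fin n} (h : C.Chord u v) : C.XX u v = C.XX v u := by
  have e : C.lay u v = C.lay v u := by unfold lay; rw [h.beta_symm]
  rcases h.side with k | k
  · rw [XX_R k.1, XX_R k.2, e]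
  · rw [XX_L k.1, XX_L k.2, e]

theorem InCap.symm {u v : Fin n} (h : C.Chord u v) {p : ℝ × ℝ} (hp : C.InCap u v p) :
    C.InCap v u p := ⟨h.XX_symm ▸ hp.1, hp.2.symm⟩

theorem seg_cap {u v : Fin n} (h : C.Chord u v) {p : ℝ × ℝ} (hp : p ∈ seg (C.E u v, C.E v u)) :
    C.InCap u v p := by
  obtain ⟨t, h0, h1, h2, h3⟩ := mem_seg hp
  rw [h.E_x, h.symm.E_x, ← h.XX_symm] at h2
  refine ⟨by rw [h2]; ring, ?_⟩
  rcases le_total ((C.E u v).2 : ℝ) (C.E v u).2 with k | k
  · left; constructor <;> nlinarith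
  · right; constructor <;> nlinarith

theorem lay_lt {u v x a : Fin n} (h : C.Chord u v) (hb : 2 * C.beta u v ≤ C.beta x a) :
    C.lay x a < C.lay u v := by
  have h1 := Nat.log_mul_base (b := 2) one_lt_two h.beta_pos.ne'
  have h2 : Nat.log 2 (C.beta u v * 2) ≤ Nat.log 2 (C.beta x a) := Nat.log_mono_right (by omega)
  have h3 : Nat.log 2 (C.beta x a) ≤ Nat.log 2 n := Nat.log_mono_right (beta_lt x a).le
  unfold lay; omega

theorem cap_x {u v : Fin n} (h : C.Chord u v) {p : ℝ × ℝ} (hp : C.InCap u v p)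
    (h1 : -(C.R : ℝ) ≤ p.1) (h2 : p.1 ≤ th n + C.R) : False := by
  have l0 : (0 : ℝ) ≤ C.lay u v := by exact_mod_cast C.lay_nonneg u v
  have r0 : (0 : ℝ) < C.R := by exact_mod_cast C.R_pos
  have e := hp.1
  rcases h.RL with k | k
  · rw [XX_R k] at e; push_cast at e; linarith
  · rw [XX_L k] at e; push_cast at e; linarith

theorem posxR (v : Fin n) : -(C.R : ℝ) < (C.pos v).1 ∧ ((C.pos v).1 : ℝ) < th n + C.R := by
  obtain ⟨h1, h2⟩ := C.posx v
  exact ⟨by exact_mod_cast h1, by exact_mod_cast h2⟩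

theorem CV {u v w : Fin n} (h : C.Chord u v) (hp : C.InCap u v (toR (C.pos w))) : False :=
  cap_x h hp (posxR w).1.le (posxR w).2.le

theorem CI_aux {u v x a : Fin n} (h : C.Chord u v) (hlt : C.A u v < C.A v u) (ha : C.Item x a)
    {t : ℝ} (ht : 0 < t) (ht1 : a ≠ x → t ≤ 1) (hp : C.InCap u v (C.pt x a t)) :
    (x = u ∧ a = v) ∨ (x = v ∧ a = u) := by
  obtain ⟨p1, p2⟩ := posxR (C := C) x
  by_cases hc : C.Child x a
  · exfalso
    obtain ⟨p3, p4⟩ := posxR (C := C) a
    have := ht1 hc.2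
    rw [hc.pos, Prod.fst_add] at p3 p4
    push_cast at p3 p4
    refine cap_x h hp ?_ ?_ <;> rw [pt_fst] <;> nlinarith
  by_contra hcon
  rw [not_or] at hcon
  have l0 : (0 : ℝ) ≤ C.lay u v := by exact_mod_cast C.lay_nonneg u v
  have r0 : (0 : ℝ) < C.R := by exact_mod_cast C.R_pos
  have e1 : (C.pt u v 1).1 = C.XX u v := by rw [pt_one]; simp [toR, h.E_x]
  have e2 : (C.pt v u 1).1 = C.XX u v := by rw [pt_one]; simp [toR, h.symm.E_x, h.XX_symm]
  have f1 : (C.pt u v 1).2 = (C.E u v).2 := by rw [pt_one]; rfl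
  have f2 : (C.pt v u 1).2 = (C.E v u).2 := by rw [pt_one]; rfl
  obtain ⟨hx, hy⟩ := hp
  have o0 := ord h.item h.symm.item h.not_child h.symm.not_child hlt one_pos one_pos
    (e1.trans e2.symm)
  have L1 := C.Lam_pos x a
  have L2 := C.Lam_pos u v
  have L3 := C.Lam_pos v u
  have tr : C.A x a < C.A u v ∨ C.A v u < C.A x a ∨
      (C.Chord x a ∧ C.lay x a < C.lay u v) := by
    rcases leaf_disj ha h.item hc h.not_child hcon.1 with k | k
    · left; linarith
    · rcases leaf_disj ha h.symm.item hc h.symm.not_child hcon.2 with k' | k'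
      · obtain ⟨b1, b2⟩ := between h ha hc (by linarith) (by linarith)
        exact Or.inr (Or.inr ⟨b1, lay_lt h b2⟩)
      · right; left; linarith
  have dS : C.Spine x a → (C.d x a).1 = 0 := fun k => by
    have := k.resolve_left (fun k => hc k.1)
    rw [d_S k, this.1, this.2]; simp
  have hx' := hx
  rw [pt_fst] at hx'
  rw [f1, f2] at o0
  rcases h.side with ⟨s1, s2⟩ | ⟨s1, s2⟩
  · rw [XX_R s1] at hx'
    push_cast at hx'
    have dx : (0 : ℝ) < (C.d x a).1 := by
      by_contra hn; push Not at hn; nlinarith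
    have hR : C.Right x a := by
      rcases side_tri ha with k | k | k
      · exact k
      · have : ((C.d x a).1 : ℝ) < 0 := by exact_mod_cast k.dir.1
        linarith
      · rw [dS k] at dx; simp at dx
    have o1 := o0.1 s2
    rcases tr with k | k | ⟨k, k'⟩
    · have := (ord ha h.item hc h.not_child k ht one_pos (hx.trans e1.symm)).1 s1
      rw [f1] at this
      rcases hy with hy | hy <;> linarith [hy.1, hy.2]
    · have := (ord h.symm.item ha h.symm.not_child hc k one_pos ht (e2.trans hx.symm)).1 hR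
      rw [f2] at this
      rcases hy with hy | hy <;> linarith [hy.1, hy.2]
    · have e := k.E_x
      rw [XX_R hR] at e
      unfold E at e
      rw [Prod.fst_add] at e
      have e' : ((C.pos x).1 : ℝ) + (C.d x a).1 = th n + 2 * C.R + C.lay x a := by
        exact_mod_cast e
      have : (C.lay x a : ℝ) < C.lay u v := by exact_mod_cast k'
      have := ht1 k.1.ne.symm
      nlinarith
  · rw [XX_L s1] at hx'
    push_cast at hx'
    have dx : ((C.d x a).1 : ℝ) < 0 := by
      by_contra hn; push Not at hn; nlinarith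
    have hL : C.Left x a := by
      rcases side_tri ha with k | k | k
      · have : (0 : ℝ) < (C.d x a).1 := by exact_mod_cast k.dir.1
        linarith
      · exact k
      · rw [dS k] at dx; simp at dx
    have o1 := o0.2 s1
    rcases tr with k | k | ⟨k, k'⟩
    · have := (ord ha h.item hc h.not_child k ht one_pos (hx.trans e1.symm)).2 hL
      rw [f1] at this
      rcases hy with hy | hy <;> linarith [hy.1, hy.2]
    · have := (ord h.symm.item ha h.symm.not_child hc k one_pos ht (e2.trans hx.symm)).2 s2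
      rw [f2] at this
      rcases hy with hy | hy <;> linarith [hy.1, hy.2]
    · have e := k.E_x
      rw [XX_L hL] at e
      unfold E at e
      rw [Prod.fst_add] at e
      have e' : ((C.pos x).1 : ℝ) + (C.d x a).1 = -(2 * C.R + C.lay x a) := by
        exact_mod_cast e
      have : (C.lay x a : ℝ) < C.lay u v := by exact_mod_cast k'
      have := ht1 k.1.ne.symm
      nlinarith

theorem CI {u v x a : Fin n} (h : C.Chord u v) (ha : C.Item x a)
    {t : ℝ} (ht : 0 < t) (ht1 : a ≠ x → t ≤ 1) (hp : C.InCap u v (C.pt x a t)) :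
    (x = u ∧ a = v) ∨ (x = v ∧ a = u) := by
  rcases lt_or_gt_of_ne h.A_ne with k | k
  · exact CI_aux h k ha ht ht1 hp
  · exact (CI_aux h.symm k ha ht ht1 (hp.symm h)).symm

theorem CC {u v x a : Fin n} (h : C.Chord u v) (h' : C.Chord x a) {p : ℝ × ℝ}
    (hp : C.InCap u v p) (hp' : C.InCap x a p) : s(u, v) = s(x, a) := by
  have e : (C.XX x a : ℝ) = C.XX u v := hp'.1.symm.trans hp.1
  have key : ∀ u v x a, C.Chord u v → C.Chord x a → (C.XX x a : ℝ) = C.XX u v →
      ((((C.E u v).2 : ℝ) ≤ (C.E x a).2 ∧ ((C.E x a).2 : ℝ) ≤ (C.E v u).2) ∨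
        (((C.E v u).2 : ℝ) ≤ (C.E x a).2 ∧ ((C.E x a).2 : ℝ) ≤ (C.E u v).2)) →
      s(u, v) = s(x, a) := by
    intro u v x a h h' e k
    have : C.InCap u v (C.pt x a 1) := by
      rw [pt_one]; exact ⟨by simp [toR, h'.E_x, e], k⟩
    rcases CI h h'.item one_pos (fun _ => le_rfl) this with k | k
    · rw [k.1, k.2]
    · rw [k.1, k.2, Sym2.eq_swap]
  have k1 := key u v x a h h' e
  have k2 := key u v a x h h'.symm (by rw [← h'.XX_symm]; exact e)
  have k3 := key x a u v h' h e.symm
  have k4 := key x a v u h' h.symm (by rw [← h.XX_symm]; exact e.symm)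
  rw [Sym2.eq_swap (a := a)] at k2
  rw [Sym2.eq_swap (a := v)] at k4
  by_contra hne
  have n1 := fun k => hne (k1 k)
  have n2 := fun k => hne (k2 k)
  have n3 := fun k => hne (k3 k).symm
  have n4 := fun k => hne (k4 k).symm
  have q1 := hp.2
  have q2 := hp'.2
  generalize ((C.E u v).2 : ℝ) = a1 at *
  generalize ((C.E v u).2 : ℝ) = a2 at *
  generalize ((C.E x a).2 : ℝ) = b1 at *
  generalize ((C.E a x).2 : ℝ) = b2 at *
  rcases q1 with q1 | q1 <;> rcases q2 with q2 | q2
  · rcases le_total a1 b1 with k | k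
    · exact n1 (Or.inl ⟨k, by linarith [q1.2, q2.1]⟩)
    · exact n3 (Or.inl ⟨k, by linarith [q1.1, q2.2]⟩)
  · rcases le_total a1 b2 with k | k
    · exact n2 (Or.inl ⟨k, by linarith [q1.2, q2.1]⟩)
    · exact n3 (Or.inr ⟨k, by linarith [q1.1, q2.2]⟩)
  · rcases le_total a2 b1 with k | k
    · exact n1 (Or.inr ⟨k, by linarith [q1.2, q2.1]⟩)
    · exact n4 (Or.inl ⟨k, by linarith [q1.1, q2.2]⟩)
  · rcases le_total a2 b2 with k | k
    · exact n2 (Or.inr ⟨k, by linarith [q1.2, q2.1]⟩)
    · exact n4 (Or.inr ⟨k, by linarith [q1.1, q2.2]⟩)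

end Ctx
end
end Pool.Agent.Work.MP_37ce0f_lc.W
end

-- merged part: Pool.Agent.Work.MP_37ce0f_lc.W.Upper
section
namespace Pool.Agent.Work.MP_37ce0f_lc.W
open Finset Classical
noncomputable section
variable {n : ℕ} {G : SimpleGraph (Fin n)}

theorem path_of_mono (f : Fin n → ℝ) {u v : Fin n} (p : G.Walk u v)
    (h : ∀ e ∈ p.darts, f e.fst < f e.snd) : p.IsPath ∧ ∀ x ∈ p.support, f u ≤ f x := by
  induction p with
  | nil => simp
  | cons hab p ih =>
    obtain ⟨i1, i2⟩ := ih (fun e he => h e (by simp [he]))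
    have h0 := h ⟨(_, _), hab⟩ (by simp)
    dsimp only at h0
    constructor
    · rw [SimpleGraph.Walk.cons_isPath_iff]
      exact ⟨i1, fun hx => by have := i2 _ hx; linarith⟩
    · intro x hx
      rw [SimpleGraph.Walk.support_cons, List.mem_cons] at hx
      rcases hx with e | hx
      · rw [e]
      · have := i2 x hx; linarith

theorem cr_trans {a b c : ℤ × ℤ} (ha : 0 < a.2) (hb : 0 < b.2) (hc : 0 < c.2)
    (h : 0 < cr a b ∧ 0 ≤ cr b c ∨ 0 ≤ cr a b ∧ 0 < cr b c) : 0 < cr a c := by
  have e : cr a c * b.2 = cr a b * c.2 + cr b c * a.2 := by unfold cr; ring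
  have : 0 < cr a c * b.2 := by
    rw [e]
    rcases h with h | h
    · have := mul_pos h.1 hc; have := mul_nonneg h.2 ha.le; omega
    · have := mul_nonneg h.1 hc.le; have := mul_pos h.2 ha; omega
  exact (mul_pos_iff_of_pos_right hb).1 this

theorem cr_swap (a b : ℤ × ℤ) : cr b a = -cr a b := by unfold cr; ring

theorem cr_neg_r (a b : ℤ × ℤ) : cr a (-b) = -cr a b := by
  unfold cr; simp only [Prod.fst_neg, Prod.snd_neg]; ring

theorem cr_neg_l (a b : ℤ × ℤ) : cr (-a) b = -cr a b := by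
  unfold cr; simp only [Prod.fst_neg, Prod.snd_neg]; ring

namespace Ctx
variable (C : Ctx G)

def D : Drawing n where
  pos := C.pos
  bends := fun u v => if C.Chord u v then [C.E u v, C.E v u] else []
  symm := by
    intro u v
    by_cases h : C.Chord u v
    · simp [h, h.symm]
    · have : ¬ C.Chord v u := fun k => h k.symm
      simp [h, this]

variable {C}

theorem segs_chord {u v : Fin n} (h : C.Chord u v) :
    C.D.segs u v = [(C.pos u, C.E u v), (C.E u v, C.E v u), (C.E v u, C.pos v)] := by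
  simp [Drawing.segs, Drawing.chain, D, h]

theorem segs_tree {u v : Fin n} (h : ¬ C.Chord u v) : C.D.segs u v = [(C.pos u, C.pos v)] := by
  simp [Drawing.segs, Drawing.chain, D, h]

theorem edge_tri {u v : Fin n} (h : G.Adj u v) : C.Chord u v ∨ C.Child u v ∨ C.Child v u := by
  by_cases h1 : v = C.S.par u
  · exact Or.inr (Or.inr ⟨h1.symm, h.ne⟩)
  · by_cases h2 : u = C.S.par v
    · exact Or.inr (Or.inl ⟨h2.symm, h.ne.symm⟩)
    · exact Or.inl ⟨h, h1, h2⟩

theorem Child.not_chord {u v : Fin n} (h : C.Child u v) : ¬ C.Chord u v := fun k => k.not_child h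

theorem Child.not_chord' {u v : Fin n} (h : C.Child u v) : ¬ C.Chord v u :=
  fun k => k.symm.not_child h

/-- the kinds of points on an edge -/
theorem trace_cases {u v : Fin n} (h : G.Adj u v) {p : ℝ × ℝ} (hp : p ∈ C.D.trace u v) :
    (∃ w, (w = u ∨ w = v) ∧ p = toR (C.pos w)) ∨
    (∃ x a t, s(x, a) = s(u, v) ∧ a ≠ x ∧ C.Item x a ∧ 0 < t ∧ t ≤ 1 ∧ p = C.pt x a t) ∨
    (C.Chord u v ∧ C.InCap u v p) := by
  have key : ∀ x a, s(x, a) = s(u, v) → a ≠ x → C.Item x a → p ∈ seg (C.pos x, C.E x a) →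
      (∃ w, (w = u ∨ w = v) ∧ p = toR (C.pos w)) ∨
      (∃ x a t, s(x, a) = s(u, v) ∧ a ≠ x ∧ C.Item x a ∧ 0 < t ∧ t ≤ 1 ∧ p = C.pt x a t) ∨
      (C.Chord u v ∧ C.InCap u v p) := by
    intro x a e hne ha hp
    obtain ⟨t, h0, h1, h2⟩ := seg_pt hp
    rcases h0.eq_or_lt with k | k
    · left
      refine ⟨x, ?_, by rw [h2, ← k, pt_zero]⟩
      rcases Sym2.eq_iff.1 e with e | e
      · exact Or.inl e.1
      · exact Or.inr e.1
    · exact Or.inr (Or.inl ⟨x, a, t, e, hne, ha, k, h1, h2⟩)
  obtain ⟨s, hs, hp⟩ := hp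
  rcases edge_tri (C := C) h with k | k | k
  · rw [segs_chord k] at hs
    simp only [List.mem_cons, List.not_mem_nil, or_false] at hs
    rcases hs with rfl | rfl | rfl
    · exact key u v rfl h.ne.symm k.item hp
    · exact Or.inr (Or.inr ⟨k, seg_cap k hp⟩)
    · exact key v u Sym2.eq_swap h.ne k.symm.item (seg_symm _ _ ▸ hp)
  · rw [segs_tree k.not_chord, List.mem_singleton] at hs
    subst hs
    exact key u v rfl h.ne.symm k.item (k.E ▸ hp)
  · rw [segs_tree k.not_chord', List.mem_singleton] at hs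
    subst hs
    exact key v u Sym2.eq_swap h.ne k.item (k.E ▸ seg_symm _ _ ▸ hp)

theorem Chord.dx_ne {u v : Fin n} (h : C.Chord u v) : ((C.d u v).1 : ℝ) ≠ 0 := by
  rcases h.RL with k | k
  · exact_mod_cast k.dir.1.ne'
  · exact_mod_cast k.dir.1.ne

theorem Chord.cap_end {u v : Fin n} (h : C.Chord u v) {p : ℝ × ℝ}
    (h1 : p ∈ seg (C.pos u, C.E u v)) (h2 : p.1 = C.XX u v) : p = toR (C.E u v) := by
  obtain ⟨t, -, -, rfl⟩ := seg_pt h1
  rw [pt_fst, ← h.E_x] at h2
  unfold E at h2
  rw [Prod.fst_add] at h2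
  push_cast at h2
  have : t = 1 := mul_right_cancel₀ h.dx_ne (by linarith)
  rw [this, pt_one]

theorem Chord.halves {u v : Fin n} (h : C.Chord u v) {p : ℝ × ℝ}
    (h1 : p ∈ seg (C.pos u, C.E u v)) (h2 : p ∈ seg (C.pos v, C.E v u)) : False := by
  obtain ⟨t, t0, t1, e1⟩ := seg_pt h1
  obtain ⟨s, s0, s1, e2⟩ := seg_pt h2
  rw [e1] at e2
  rcases t0.eq_or_lt with k | k <;> rcases s0.eq_or_lt with k' | k'
  · rw [← k, ← k', pt_zero, pt_zero] at e2
    exact h.1.ne (C.pos_inj (toR_inj e2))
  · rw [← k, pt_zero] at e2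
    exact h.symm.not_child (VI h.symm.item k' (fun _ => s1) e2).1
  · rw [← k', pt_zero] at e2
    exact h.not_child (VI h.item k (fun _ => t1) e2.symm).1
  · exact h.1.ne (II_eq h.item h.symm.item k k' (fun _ => t1) (fun _ => s1) e2).1

theorem E_ne {x a : Fin n} (h : C.Item x a) : C.pos x ≠ C.E x a := fun e => by
  have := dy_pos h
  have e2 := congrArg Prod.snd e
  unfold E at e2
  rw [Prod.snd_add] at e2; omega

variable (C)

theorem planar : Planar G C.D := by
  refine ⟨C.pos_inj, ?_, ?_, ?_⟩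
  · intro u v h
    by_cases k : C.Chord u v
    · rw [segs_chord k]
      constructor
      · intro s hs
        simp only [List.mem_cons, List.not_mem_nil, or_false] at hs
        rcases hs with rfl | rfl | rfl
        · exact E_ne k.item
        · intro e
          dsimp only at e
          exact h.ne (II_eq k.item k.symm.item one_pos one_pos (fun _ => le_rfl) (fun _ => le_rfl)
            (by rw [pt_one, pt_one, e])).1
        · exact (E_ne k.symm.item).symm
      · simp only [List.pairwise_cons, List.mem_cons, List.not_mem_nil, or_false, forall_eq_or_imp,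
          forall_eq, List.Pairwise.nil, and_true, true_and, false_imp_iff, implies_true]
        refine ⟨⟨fun p h1 h2 => k.cap_end h1 (seg_cap k h2).1,
          fun p h1 h2 => (k.halves h1 (seg_symm _ _ ▸ h2)).elim⟩, fun p h1 h2 => ?_⟩
        exact k.symm.cap_end (seg_symm _ _ ▸ h2) (k.XX_symm ▸ (seg_cap k h1).1)
    · rw [segs_tree k]
      refine ⟨fun s hs => ?_, List.pairwise_singleton _ _⟩
      rw [List.mem_singleton] at hs
      subst hs
      exact fun e => h.ne (C.pos_inj e)
  · intro u v w h hp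
    rcases trace_cases h hp with ⟨w', k1, k2⟩ | ⟨x, a, t, e, -, ha, t0, t1, k⟩ | ⟨k1, k2⟩
    · have : w = w' := C.pos_inj (toR_inj k2)
      exact this ▸ k1
    · have := (VI ha t0 (fun _ => t1) k).2
      rcases Sym2.eq_iff.1 e with e | e
      · exact Or.inr (this.symm.trans e.2)
      · exact Or.inl (this.symm.trans e.2)
    · exact (CV k1 k2).elim
  · intro u v x y h h' hne p hp hp'
    rcases trace_cases h hp with ⟨w, -, k⟩ | ⟨x1, a1, t, e, -, ha, t0, t1, k⟩ | ⟨k1, k2⟩
    · exact ⟨w, k⟩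
    · rcases trace_cases h' hp' with ⟨w, -, k⟩ | ⟨x2, a2, s, e', -, ha', s0, s1, k'⟩ | ⟨k1, k2⟩
      · exact ⟨w, k⟩
      · obtain ⟨i1, i2⟩ := II_eq ha ha' t0 s0 (fun _ => t1) (fun _ => s1) (k.symm.trans k')
        exact absurd (by rw [← e, ← e', i1, i2]) hne
      · rcases CI k1 ha t0 (fun _ => t1) (k ▸ k2) with i | i
        · exact absurd (by rw [← e, i.1, i.2]) hne
        · exact absurd (by rw [← e, i.1, i.2, Sym2.eq_swap]) hne
    · rcases trace_cases h' hp' with ⟨w, -, k⟩ | ⟨x2, a2, s, e', -, ha', s0, s1, k'⟩ | ⟨k3, k4⟩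
      · exact ⟨w, k⟩
      · rcases CI k1 ha' s0 (fun _ => s1) (k' ▸ k2) with i | i
        · exact absurd (by rw [← e', i.1, i.2]) hne
        · exact absurd (by rw [← e', i.1, i.2, Sym2.eq_swap]) hne
      · exact absurd (CC k1 k3 k2 k4) hne

variable {C}

theorem dir_item {v a : Fin n} (h : G.Adj v a) (ha : C.Item v a) : C.D.dir v a = C.d v a := by
  by_cases k : C.Child v a
  · simp [Drawing.dir, D, k.not_chord, k.pos]
  · simp [Drawing.dir, D, chord_of ha h.ne.symm k, E]

theorem dir_par {v : Fin n} (hv : v ≠ C.S.r) :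
    C.D.dir v (C.S.par v) = -C.d (C.S.par v) v := by
  have k := child_par hv
  simp only [Drawing.dir, D, k.not_chord', if_false, List.headD_nil]
  rw [pos_par hv]; abel

variable (C)

theorem preserves : Preserves G C.D := by
  intro v
  by_cases hv : v = C.S.r
  · refine ⟨(0, -1), by simp, fun t ht x y h hp => ?_, fun a b ha hb hlt => ?_⟩
    · have e : (toR (C.D.pos v) + t • toR (0, -1)).2 = -t := by
        simp [toR, D, hv, C.pos_r]
      rcases trace_cases h hp with ⟨w, -, k⟩ | ⟨x1, a1, s, -, -, ha, t0, -, k⟩ | ⟨k1, k2⟩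
      · have : (0 : ℝ) ≤ (C.pos w).2 := by exact_mod_cast C.y_nonneg w
        rw [k] at e; simp only [toR] at e; linarith
      · have : (0 : ℝ) ≤ (C.pos x1).2 := by exact_mod_cast C.y_nonneg x1
        have := pt_y ha t0
        rw [k] at e; linarith
      · have h1 : (0 : ℝ) ≤ (C.E x y).2 := by exact_mod_cast k1.box.2.2.1
        have h2 : (0 : ℝ) ≤ (C.E y x).2 := by exact_mod_cast k1.symm.box.2.2.1
        have := k2.2
        rw [e] at this
        rcases this with k | k <;> linarith [k.1]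
    · have hp : C.S.par v = v := by rw [hv, C.S.par_r]
      have ia : C.Item v a := ⟨Or.inr ha, by rw [hp]; exact ha.ne.symm⟩
      have ib : C.Item v b := ⟨Or.inr hb, by rw [hp]; exact hb.ne.symm⟩
      have c := cr_sib ia ib (by unfold key; rw [hp]; exact hlt)
      have ya := dy_pos ia
      have yb := dy_pos ib
      rw [dir_item ha ia, dir_item hb ib]
      generalize C.d v a = da at *
      generalize C.d v b = db at *
      have e1 : cr (0, -1) da = da.1 := by simp [cr]
      have e2 : cr (0, -1) db = db.1 := by simp [cr]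
      unfold Before
      rw [e1, e2]
      by_cases k1 : 0 < da.1 <;> by_cases k2 : 0 < db.1
      · exact Or.inr ⟨by tauto, c⟩
      · exact Or.inl ⟨k1, by omega⟩
      · exfalso
        unfold cr at c
        nlinarith
      · exact Or.inr ⟨by tauto, c⟩
  · have io := item_ray hv
    have yo := dy_pos io
    refine ⟨C.d v v, fun e => by rw [e] at yo; simp at yo, fun t ht x y h hp => ?_,
      fun a b ha hb hlt => ?_⟩
    · change C.pt v v t ∈ _ at hp
      rcases trace_cases h hp with ⟨w, -, k⟩ | ⟨x1, a1, s, -, hne, ha, t0, t1, k⟩ | ⟨k1, k2⟩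
      · exact not_child_ray _ (VI io ht (fun k => absurd k (not_child_ray _)) k.symm).1
      · obtain ⟨i1, i2⟩ := II_eq io ha ht t0 (fun k => absurd k (not_child_ray _)) (fun _ => t1) k
        exact hne (i2.symm.trans i1)
      · rcases CI k1 io ht (fun k => absurd rfl k) k2 with i | i
        · exact h.ne (i.1.symm.trans i.2)
        · exact h.ne (i.2.symm.trans i.1)
    · have ye := dy_pos (child_par hv).item
      have ka := cy_lt (C.S.par v) a
      have kb := cy_lt (C.S.par v) b
      have kv := cy_lt (C.S.par v) v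
      have pv : 0 < cy (C.S.par v) v := cy_pos (RT.par_ne hv).symm
      have na : C.key v a ≠ C.key v v := key_ne ha.ne.symm
      have nb : C.key v b ≠ C.key v v := key_ne hb.ne.symm
      have aft : ∀ a, G.Adj v a → C.Item v a → C.key v v < C.key v a → 0 < cr (C.d v v) (C.d v a) :=
        fun a _ ia k => cr_sib io ia k
      have bef : ∀ a, G.Adj v a → C.Item v a → C.key v a < C.key v v → 0 < cr (C.d v a) (C.d v v) :=
        fun a _ ia k => cr_sib ia io k
      rw [cy_rel (C.S.par v) v a, cy_rel (C.S.par v) v b] at hlt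
      unfold key at na nb
      unfold Before
      by_cases ea : a = C.S.par v <;> by_cases eb : b = C.S.par v
      · rw [ea, eb] at hlt; omega
      · have ib : C.Item v b := ⟨Or.inr hb, eb⟩
        have k : C.key v b < C.key v v := by
          rw [ea, cy_self] at hlt; unfold key; split_ifs at hlt <;> omega
        have c := bef b hb ib k
        rw [ea, dir_par hv, dir_item hb ib, cr_neg_r, cr_neg_l, cr_swap (C.d v b) (C.d v v)]
        by_cases k1 : 0 < -cr (C.d v v) (C.d (C.S.par v) v)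
        · exact Or.inl ⟨k1, by omega⟩
        · have := cr_trans (dy_pos ib) yo ye (Or.inl ⟨c, by omega⟩)
          rw [cr_swap (C.d v b) (C.d (C.S.par v) v)]
          exact Or.inr ⟨by omega, by omega⟩
      · have ia : C.Item v a := ⟨Or.inr ha, ea⟩
        have pa := cy_pos (p := C.S.par v) ea
        have k : C.key v v < C.key v a := by
          rw [eb, cy_self] at hlt; unfold key; split_ifs at hlt <;> omega
        have c := aft a ha ia k
        rw [eb, dir_par hv, dir_item ha ia, cr_neg_r, cr_neg_r]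
        by_cases k1 : 0 < -cr (C.d v v) (C.d (C.S.par v) v)
        · have := cr_trans ye yo (dy_pos ia) (Or.inr ⟨by rw [cr_swap]; omega, c⟩)
          rw [cr_swap (C.d (C.S.par v) v) (C.d v a)]
          exact Or.inr ⟨by omega, by omega⟩
        · exact Or.inl ⟨c, by omega⟩
      · have ia : C.Item v a := ⟨Or.inr ha, ea⟩
        have ib : C.Item v b := ⟨Or.inr hb, eb⟩
        rw [dir_item ha ia, dir_item hb ib]
        rcases lt_or_gt_of_ne na with k1 | k1 <;> rcases lt_or_gt_of_ne nb with k2 | k2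
        · have c1 := bef a ha ia k1
          have c2 := bef b hb ib k2
          rw [cr_swap] at c1 c2
          exact Or.inr ⟨by omega, cr_sib ia ib (by unfold key; split_ifs at hlt <;> omega)⟩
        · exfalso; split_ifs at hlt <;> omega
        · have c2 := bef b hb ib k2
          rw [cr_swap] at c2
          exact Or.inl ⟨aft a ha ia k1, by omega⟩
        · have c1 := aft a ha ia k1
          have c2 := aft b hb ib k2
          exact Or.inr ⟨by omega, cr_sib ia ib (by unfold key; split_ifs at hlt <;> omega)⟩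

variable {C}

theorem walk_up {w v : Fin n} (h : C.S.Anc w v) : ∃ p : G.Walk v w, ∀ e ∈ p.darts,
    C.Child e.snd e.fst ∧ C.S.Anc w e.snd ∧ C.S.Anc e.fst v := by
  induction v using C.S.ind with
  | h0 => rw [h.eq_r]; exact ⟨SimpleGraph.Walk.nil, by simp⟩
  | hs v hv ih =>
    rcases h.cases with e | e
    · rw [e]; exact ⟨SimpleGraph.Walk.nil, by simp⟩
    · obtain ⟨p, hp⟩ := ih e.2
      refine ⟨SimpleGraph.Walk.cons (C.S.adj v hv) p, fun d hd => ?_⟩
      rw [SimpleGraph.Walk.darts_cons, List.mem_cons] at hd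
      rcases hd with rfl | hd
      · exact ⟨child_par hv, e.2, C.S.anc_refl v⟩
      · exact ⟨(hp d hd).1, (hp d hd).2.1, (hp d hd).2.2.step⟩

theorem und_of {w x c u : Fin n} (hc : C.Child x c) (h1 : C.S.Anc w x) (h2 : C.S.Anc c u) :
    w ≠ u ∧ C.Und w (C.S.ch w u) x c := by
  have hne : w ≠ u := fun e => by
    have := h1.dep_le; have := h2.dep_le; have := hc.dep; rw [e] at *; omega
  refine ⟨hne, ?_⟩
  by_cases e : x = w
  · exact Or.inl ⟨e, (RT.ch_unique h2 (e ▸ hc.1) (e ▸ hc.2)).symm⟩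
  · exact Or.inr ⟨child_ch (h1.trans (hc.anc.trans h2)) hne,
      RT.ch_anc_of h1 (Ne.symm e) (hc.anc.trans h2)⟩

variable (C)

theorem mono_aux (u v : Fin n) : ∃ p : G.Walk u v, ∃ a b : ℝ, ∀ e ∈ p.darts,
    ¬ C.Chord e.fst e.snd ∧ 0 < a * (((C.pos e.snd).1 : ℝ) - (C.pos e.fst).1) +
      b * (((C.pos e.snd).2 : ℝ) - (C.pos e.fst).2) := by
  have hu := C.S.lca_l u v
  have hv := C.S.lca_r u v
  obtain ⟨a, b, h1, h2⟩ : ∃ a b : ℝ,
      (∀ x c, C.Item x c → C.S.lca u v ≠ u → C.Und (C.S.lca u v) (C.S.ch (C.S.lca u v) u) x c →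
        a * (C.d x c).1 + b * (C.d x c).2 < 0) ∧
      (∀ x c, C.Item x c → C.S.lca u v ≠ v → C.Und (C.S.lca u v) (C.S.ch (C.S.lca u v) v) x c →
        0 < a * (C.d x c).1 + b * (C.d x c).2) := by
    by_cases e1 : C.S.lca u v = u
    · refine ⟨0, 1, fun x c _ k => absurd e1 k, fun x c i _ _ => ?_⟩
      have : (0 : ℝ) < (C.d x c).2 := by exact_mod_cast dy_pos i
      linarith
    by_cases e2 : C.S.lca u v = v
    · refine ⟨0, -1, fun x c i _ _ => ?_, fun x c _ k => absurd e2 k⟩
      have : (0 : ℝ) < (C.d x c).2 := by exact_mod_cast dy_pos i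
      linarith
    have c1 := child_ch hu e1
    have c2 := child_ch hv e2
    have hne : C.S.ch (C.S.lca u v) u ≠ C.S.ch (C.S.lca u v) v := fun e => by
      have := (RT.anc_lca (C.S.ch_anc (C.S.lca u v) u) (e ▸ C.S.ch_anc (C.S.lca u v) v)).dep_le
      have := c1.dep; omega
    rcases lt_or_gt_of_ne (key_ne (C := C) (w := C.S.lca u v) hne) with k | k
    · obtain ⟨p, q, -, -, k1, k2⟩ := sep c1.item c2.item k
      exact ⟨p, q, fun x c i _ j => k1 x c i j, fun x c i _ j => k2 x c i j⟩
    · obtain ⟨p, q, -, -, k1, k2⟩ := sep c2.item c1.item k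
      exact ⟨-p, -q, fun x c i _ j => by have := k2 x c i j; linarith,
        fun x c i _ j => by have := k1 x c i j; linarith⟩
  obtain ⟨p1, k1⟩ := walk_up hu
  obtain ⟨p2, k2⟩ := walk_up hv
  refine ⟨p1.append p2.reverse, a, b, fun e he => ?_⟩
  rw [SimpleGraph.Walk.darts_append, List.mem_append, SimpleGraph.Walk.mem_darts_reverse] at he
  rcases he with he | he
  · obtain ⟨i1, i2, i3⟩ := k1 e he
    obtain ⟨j1, j2⟩ := und_of i1 i2 i3
    have := h1 _ _ i1.item j1 j2
    refine ⟨i1.not_chord', ?_⟩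
    rw [i1.pos, Prod.fst_add, Prod.snd_add]
    push_cast; linarith
  · obtain ⟨i1, i2, i3⟩ := k2 _ he
    change C.Child e.fst e.snd at i1
    obtain ⟨j1, j2⟩ := und_of i1 i2 i3
    have := h2 _ _ i1.item j1 j2
    refine ⟨i1.not_chord, ?_⟩
    rw [i1.pos, Prod.fst_add, Prod.snd_add]
    push_cast; linarith

theorem mono_path (u v : Fin n) : ∃ p : G.Walk u v, p.IsPath ∧ ∃ a b : ℝ, ∀ e ∈ p.darts,
    ¬ C.Chord e.fst e.snd ∧ 0 < a * (((C.pos e.snd).1 : ℝ) - (C.pos e.fst).1) +
      b * (((C.pos e.snd).2 : ℝ) - (C.pos e.fst).2) := by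
  obtain ⟨p, a, b, h⟩ := C.mono_aux u v
  refine ⟨p, (path_of_mono (fun x => a * (C.pos x).1 + b * (C.pos x).2) p (fun e he => ?_)).1,
    a, b, h⟩
  have := (h e he).2
  linarith

theorem isMono : IsMono G C.D := by
  intro u v
  obtain ⟨p, hp, a, b, h⟩ := C.mono_path u v
  refine ⟨p, hp, (a, b), fun e he s hs => ?_⟩
  rw [segs_tree (h e he).1, List.mem_singleton] at hs
  subst hs
  exact (h e he).2

theorem no_chord (hG : G.IsAcyclic) (u v : Fin n) : ¬ C.Chord u v := by
  intro k
  obtain ⟨p, hp, a, b, h⟩ := C.mono_path u v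
  have e := (hG.subsingleton_path u v).elim ⟨p, hp⟩ (SimpleGraph.Path.singleton k.1)
  have e' : p = SimpleGraph.Walk.cons k.1 SimpleGraph.Walk.nil := congrArg Subtype.val e
  exact (h ⟨(u, v), k.1⟩ (by rw [e']; simp)).1 k

theorem inBox : InBox G C.D ((n - 1) / 3 + 20 * n / C.K + 2 * Nat.log 2 n + 4) (20 * C.K * n) := by
  have hR : 4 * C.R ≤ ((20 * n / C.K : ℕ) : ℤ) + 4 := by
    have : 4 * (5 * n / C.K) ≤ 20 * n / C.K := by
      have := Nat.mul_div_le_mul_div_assoc 4 (5 * n) C.K
      rwa [← mul_assoc] at this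
    unfold R; omega
  have r0 := C.R_pos
  have e : (((n - 1) / 3 + 20 * n / C.K + 2 * Nat.log 2 n + 4 : ℕ) : ℤ) =
      th n + ((20 * n / C.K : ℕ) : ℤ) + 2 * (Nat.log 2 n : ℤ) + 4 := by
    unfold th; rw [Nat.cast_add, Nat.cast_add, Nat.cast_add, Nat.cast_mul]; rfl
  refine ⟨-(2 * C.R + Nat.log 2 n), 0, fun p hp => ?_⟩
  rw [e]
  rcases hp with ⟨v, rfl⟩ | ⟨u, v, h, hp⟩
  · have := C.posx v
    have := C.y_nonneg v
    have := C.box_pos v
    change _ ≤ (C.pos v).1 ∧ (C.pos v).1 ≤ _ ∧ _ ≤ (C.pos v).2 ∧ (C.pos v).2 ≤ _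
    omega
  · by_cases k : C.Chord u v
    · simp only [D, k, if_true, List.mem_cons, List.not_mem_nil, or_false] at hp
      have h1 := k.box
      have h2 := k.symm.box
      rcases hp with rfl | rfl <;> omega
    · simp [D, k] at hp

end Ctx

theorem upper (K n : ℕ) (hK : 1 ≤ K) (G : SimpleGraph (Fin n)) (hc : G.Connected)
    (h : NoCross G) : ∃ D : Drawing n, Planar G D ∧ Preserves G D ∧ IsMono G D ∧
      (∀ u v, (D.bends u v).length ≤ 2) ∧ (G.IsAcyclic → ∀ u v, D.bends u v = []) ∧
      InBox G D ((n - 1) / 3 + 20 * n / K + 2 * Nat.log 2 n + 4) (20 * K * n) := by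
  rcases le_or_gt 2 n with hn | hn
  · obtain ⟨S, hP, ⟨sp⟩⟩ := exists_sp hn hc h
    let C : Ctx G := ⟨S, hP, sp, h, K, hK⟩
    refine ⟨C.D, C.planar, C.preserves, C.isMono, fun u v => ?_, fun hG u v => ?_, C.inBox⟩
    · simp only [Ctx.D]; split_ifs <;> simp
    · simp [Ctx.D, C.no_chord hG u v]
  · have sub : ∀ u v : Fin n, u = v := fun u v => Fin.ext (by have := u.isLt; have := v.isLt; omega)
    have na : ∀ u v, ¬ G.Adj u v := fun u v k => k.ne (sub u v)
    refine ⟨⟨fun _ => (0, 0), fun _ _ => [], fun _ _ => rfl⟩,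
      ⟨fun u v _ => sub u v, fun u v k => absurd k (na u v), fun u v _ k => absurd k (na u v),
        fun u v _ _ k => absurd k (na u v)⟩,
      fun v => ⟨(0, 1), by simp, fun t _ x y k => absurd k (na x y),
        fun a b k => absurd k (na v a)⟩, fun u v => ?_, fun u v => by simp, fun _ u v => rfl,
      0, 0, fun p hp => ?_⟩
    · rw [sub u v]; exact ⟨SimpleGraph.Walk.nil, by simp, (0, 0), by simp⟩
    · rcases hp with ⟨v, rfl⟩ | ⟨u, v, k, -⟩
      · refine ⟨le_rfl, ?_, le_rfl, ?_⟩ <;> positivity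
      · exact absurd k (na u v)

end
end Pool.Agent.Work.MP_37ce0f_lc.W
end
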